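import Mathlib

/-!
Words, common suffixes and the word metric of the homogeneous tree.
Words are lists whose HEAD is the LAST letter (so the root side is the end of the list).
-/

namespace Pool.Agent.H57

section cs

variable {α : Type*}

open Classical in
/-- length of the longest common suffix -/
noncomputable def cs (v w : List α) : ℕ :=
  Nat.findGreatest (fun n => v.drop (v.length - n) = w.drop (w.length - n)) (min v.length w.length)

lemma cs_spec (v w : List α) : ∃ s, s <:+ v ∧ s <:+ w ∧ s.length = cs v w := by
  classical
  have h : v.drop (v.length - cs v w) = w.drop (w.length - cs v w) := by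
    have := Nat.findGreatest_spec (P := fun n => v.drop (v.length - n) = w.drop (w.length - n))
      (n := min v.length w.length) (m := 0) (Nat.zero_le _) (by simp)
    exact this
  have hle : cs v w ≤ min v.length w.length := Nat.findGreatest_le _
  refine ⟨v.drop (v.length - cs v w), List.drop_suffix _ _, h ▸ List.drop_suffix _ _, ?_⟩
  simp only [List.length_drop]
  omega

lemma suffix_iff_drop {s v : List α} (h : s <:+ v) : v.drop (v.length - s.length) = s := by
  obtain ⟨t, rfl⟩ := h
  simp

lemma le_cs {s v w : List α} (hv : s <:+ v) (hw : s <:+ w) : s.length ≤ cs v w := by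
  classical
  apply Nat.le_findGreatest
  · exact le_min hv.length_le hw.length_le
  · rw [suffix_iff_drop hv, suffix_iff_drop hw]

lemma cs_comm (v w : List α) : cs v w = cs w v := by
  apply le_antisymm
  · obtain ⟨s, h1, h2, h3⟩ := cs_spec v w
    rw [← h3]; exact le_cs h2 h1
  · obtain ⟨s, h1, h2, h3⟩ := cs_spec w v
    rw [← h3]; exact le_cs h2 h1

lemma cs_le_left (v w : List α) : cs v w ≤ v.length := by
  obtain ⟨s, h1, h2, h3⟩ := cs_spec v w
  rw [← h3]; exact h1.length_le

lemma cs_le_right (v w : List α) : cs v w ≤ w.length := by
  rw [cs_comm]; exact cs_le_left _ _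

lemma suffix_of_suffix_le {s t v : List α} (hs : s <:+ v) (ht : t <:+ v)
    (h : s.length ≤ t.length) : s <:+ t :=
  List.suffix_of_suffix_length_le hs ht h

lemma cs_ultra (x y z : List α) : min (cs x y) (cs y z) ≤ cs x z := by
  obtain ⟨s, h1, h2, h3⟩ := cs_spec x y
  obtain ⟨t, k1, k2, k3⟩ := cs_spec y z
  rw [← h3, ← k3]
  rcases le_total s.length t.length with h | h
  · rw [min_eq_left h]
    exact le_cs h1 ((suffix_of_suffix_le h2 k1 h).trans k2)
  · rw [min_eq_right h]
    exact le_cs ((suffix_of_suffix_le k1 h2 h).trans h1) k2

lemma cs_eq_length_left {v w : List α} (h : v <:+ w) : cs v w = v.length :=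
  le_antisymm (cs_le_left _ _) (le_cs (List.suffix_refl _) h)

lemma suffix_of_cs_eq {v w : List α} (h : cs v w = v.length) : v <:+ w := by
  obtain ⟨s, h1, h2, h3⟩ := cs_spec v w
  have : s = v := h1.eq_of_length (by omega)
  exact this ▸ h2

/-- word distance -/
noncomputable def dd (v w : List α) : ℕ := v.length + w.length - 2 * cs v w

lemma dd_comm (v w : List α) : dd v w = dd w v := by
  unfold dd; rw [cs_comm, add_comm]

lemma dd_self (v : List α) : dd v v = 0 := by
  unfold dd; rw [cs_eq_length_left (List.suffix_refl _)]; omega

lemma eq_of_dd {v w : List α} (h : dd v w = 0) : v = w := by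
  unfold dd at h
  have h1 := cs_le_left v w
  have h2 := cs_le_right v w
  exact (suffix_of_cs_eq (by omega)).eq_of_length (by omega)

lemma dd_triangle (x y z : List α) : dd x z ≤ dd x y + dd y z := by
  unfold dd
  have h1 := cs_le_left x y
  have h2 := cs_le_right x y
  have h3 := cs_le_left y z
  have h4 := cs_le_right y z
  have h5 := cs_ultra x y z
  have h6 := cs_le_left x z
  have h7 := cs_le_right x z
  omega

lemma dd_four (x y z w : List α) :
    dd x y + dd z w ≤ max (dd x z + dd y w) (dd x w + dd y z) := by
  unfold dd
  have a1 := cs_le_left x y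
  have a2 := cs_le_right x y
  have a3 := cs_le_left z w
  have a4 := cs_le_right z w
  have a5 := cs_le_left x z
  have a6 := cs_le_right x z
  have a7 := cs_le_left y w
  have a8 := cs_le_right y w
  have a9 := cs_le_left x w
  have a10 := cs_le_right x w
  have a11 := cs_le_left y z
  have a12 := cs_le_right y z
  have b1 := cs_ultra x y z
  have b2 := cs_ultra x y w
  have b3 := cs_ultra x z y
  have b4 := cs_ultra x z w
  have b5 := cs_ultra x w y
  have b6 := cs_ultra x w z
  have b7 := cs_ultra y x z
  have b8 := cs_ultra y x w
  have b9 := cs_ultra y z w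
  have b10 := cs_ultra y w z
  have b11 := cs_ultra z x w
  have b12 := cs_ultra z y w
  rw [cs_comm z y] at b3 b12
  rw [cs_comm w y] at b5
  rw [cs_comm w z] at b6 b10
  rw [cs_comm y x] at b7 b8
  rw [cs_comm z x] at b11
  omega

lemma dd_nil_left (w : List α) : dd [] w = w.length := by
  unfold dd
  have := cs_le_left ([] : List α) w
  simp at this
  simp [this]

lemma dd_nil_right (w : List α) : dd w [] = w.length := by
  rw [dd_comm, dd_nil_left]

lemma dd_cons_self (a : α) (x : List α) : dd (a :: x) x = 1 := by
  unfold dd
  rw [cs_comm, cs_eq_length_left (List.suffix_cons a x)]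
  simp; omega

lemma dd_cons_step {a : α} {v w : List α} (hl : w.length ≤ v.length + 1) (hne : a :: v ≠ w) :
    dd v w + 1 = dd (a :: v) w := by
  have h : cs (a :: v) w = cs v w := by
    apply le_antisymm
    · obtain ⟨s, h1, h2, h3⟩ := cs_spec (a :: v) w
      rw [← h3]
      rcases List.suffix_cons_iff.1 h1 with h | h
      · exfalso
        apply hne
        rw [← h]
        exact h2.eq_of_length (le_antisymm h2.length_le (by rw [h]; simpa using hl))
      · exact le_cs h h2
    · obtain ⟨s, h1, h2, h3⟩ := cs_spec v w
      rw [← h3]
      exact le_cs (h1.trans (List.suffix_cons a v)) h2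
  unfold dd
  rw [h]
  have h1 := cs_le_left v w
  have h2 := cs_le_right v w
  simp only [List.length_cons]
  omega

/-- adjacency of words -/
lemma dd_eq_one {v w : List α} (h : dd v w = 1) : (∃ a, v = a :: w) ∨ (∃ a, w = a :: v) := by
  have hne : v ≠ w := by
    rintro rfl; rw [dd_self] at h; omega
  rcases le_total w.length v.length with hl | hl
  · left
    cases v with
    | nil => simp at hl; simp [hl] at hne
    | cons a v =>
      have := dd_cons_step (v := v) (by simpa using hl) hne
      have h0 : dd v w = 0 := by omega
      exact ⟨a, by rw [eq_of_dd h0]⟩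
  · right
    cases w with
    | nil => simp at hl; simp [hl] at hne
    | cons a w =>
      have := dd_cons_step (v := w) (w := v) (by simpa using hl) (Ne.symm hne)
      have h0 : dd w v = 0 := by rw [dd_comm v] at h; omega
      exact ⟨a, by rw [eq_of_dd h0]⟩

end cs

end Pool.Agent.H57
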