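import Pool.Agent.H57.T9

/-!
Fresh portraits and the isolation of a root three-cycle.
-/

namespace Pool.Agent.H57

open Equiv

/-- finitary permutations moving only letters with label outside `A` -/
def Fr (A : Finset ℕ) : Subgroup (Perm Om) where
  carrier := {σ | (∀ a, (σ a).1 = a.1) ∧ (∀ a : Om, a.2 ∈ A → σ a = a) ∧ {a | σ a ≠ a}.Finite}
  mul_mem' := by
    rintro σ τ ⟨s1, s2, s3⟩ ⟨t1, t2, t3⟩
    refine ⟨fun a => by simp [s1, t1], fun a ha => by simp [t2 a ha, s2 a ha], ?_⟩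
    apply (s3.union t3).subset
    intro a ha
    by_contra hc
    simp only [Set.mem_union, Set.mem_ofPred_eq, not_or, not_not] at hc
    apply ha
    rw [Perm.mul_apply, hc.2, hc.1]
  one_mem' := ⟨fun _ => rfl, fun _ _ => rfl, by simp⟩
  inv_mem' := by
    rintro σ ⟨s1, s2, s3⟩
    refine ⟨fun a => ?_, fun a ha => by rw [Perm.inv_eq_iff_eq, s2 a ha], ?_⟩
    · have := s1 (σ⁻¹ a)
      simp at this
      simp [this]
    · apply s3.subset
      intro a ha h
      apply ha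
      rw [Perm.inv_eq_iff_eq, h]

lemma Fr_notin {A : Finset ℕ} {σ : Perm Om} (hσ : σ ∈ Fr A) {a : Om} (ha : a.2 ∉ A) :
    (σ a).2 ∉ A := by
  intro h
  have h1 := hσ.2.1 _ h
  have h2 := σ.injective h1
  rw [h2] at h
  exact ha h

lemma swap_mem_Fr {A : Finset ℕ} {a b : Om} (hab : a.1 = b.1) (ha : a.2 ∉ A) (hb : b.2 ∉ A) :
    swap a b ∈ Fr A := by
  refine ⟨swap_sgn hab, fun c hc => ?_, swap_fin _ _⟩
  apply swap_apply_of_ne_of_ne
  · rintro rfl; exact ha hc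
  · rintro rfl; exact hb hc

/-- letterwise equality up to fresh letters -/
def EE (A : Finset ℕ) (v w : V) : Prop :=
  List.Forall₂ (fun a b : Om => a = b ∨ (a.2 ∉ A ∧ b.2 ∉ A)) v.1 w.1

lemma EE_cons {A : Finset ℕ} {v w x y : V} {a b : Om} (hv : v.1 = a :: x.1) (hw : w.1 = b :: y.1) :
    EE A v w ↔ (a = b ∨ (a.2 ∉ A ∧ b.2 ∉ A)) ∧ EE A x y := by
  unfold EE
  rw [hv, hw, List.forall₂_cons]

lemma EE_nil_left {A : Finset ℕ} {w : V} (h : EE A nil w) : w = nil := by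
  unfold EE at h
  rw [nil_val, List.forall₂_nil_left_iff] at h
  exact eq_nil h

lemma EE_cases {A : Finset ℕ} {v w x : V} {a : Om} (hv : v.1 = a :: x.1) (h : EE A v w) :
    ∃ b, ∃ y : V, w.1 = b :: y.1 ∧ (a = b ∨ (a.2 ∉ A ∧ b.2 ∉ A)) ∧ EE A x y := by
  have hw : w ≠ nil := by
    rintro rfl
    unfold EE at h
    rw [nil_val, List.forall₂_nil_right_iff] at h
    rw [h] at hv
    simp at hv
  obtain ⟨b, y, hy⟩ := exists_cons hw
  exact ⟨b, y, hy, (EE_cons hv hy).1 h⟩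

lemma EE_refl (A : Finset ℕ) (v : V) : EE A v v := by
  unfold EE
  rw [List.forall₂_same]
  exact fun _ _ => Or.inl rfl

lemma EE_TT {A : Finset ℕ} {v w : V} (h : EE A v w) (hv : v ∈ TT A) : w = v := by
  induction v using vind generalizing w with
  | h0 => exact EE_nil_left h
  | h1 a x v hvx ih =>
    obtain ⟨b, y, hy, hab, hxy⟩ := EE_cases hvx h
    rw [cons_mem_TT hvx] at hv
    have h1 := ih hxy hv.2
    subst h1
    rcases hab with rfl | ⟨h2, -⟩
    · exact cons_eq hy hvx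
    · exact absurd hv.1 h2

lemma EE_symm {A : Finset ℕ} {v w : V} (h : EE A v w) : EE A w v := by
  unfold EE at *
  apply List.Forall₂.flip
  apply h.imp
  intro a b hab
  rcases hab with rfl | ⟨h1, h2⟩
  · exact Or.inl rfl
  · exact Or.inr ⟨h2, h1⟩

lemma EE_map {A : Finset ℕ} {g : Perm V} (hg : g ∈ NA A) {v w : V} (h : EE A v w) :
    EE A (g v) (g w) := by
  induction v using vind generalizing w with
  | h0 => rw [EE_nil_left h]; exact EE_refl _ _
  | h1 a x v hvx ih =>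
    by_cases hT : v ∈ TT A
    · rw [EE_TT h hT]; exact EE_refl _ _
    · have hT' : w ∉ TT A := fun hw => by
        have := EE_TT (EE_symm h) hw
        rw [← this] at hw; exact hT hw
      obtain ⟨b, y, hy, hab, hxy⟩ := EE_cases hvx h
      rw [EE_cons (NA_cons hg hvx hT) (NA_cons hg hy hT')]
      exact ⟨hab, ih hxy⟩

/-- insensitive fresh portraits -/
def FF (A : Finset ℕ) : Subgroup Port where
  carrier := {f | (∀ x, f.1 x ∈ Fr A) ∧ ∀ v w, EE A v w → f.1 v = f.1 w}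
  mul_mem' := by
    rintro f g ⟨f1, f2⟩ ⟨g1, g2⟩
    refine ⟨fun x => (Fr A).mul_mem (f1 x) (g1 x), fun v w h => ?_⟩
    change f.1 v * g.1 v = f.1 w * g.1 w
    rw [f2 v w h, g2 v w h]
  one_mem' := ⟨fun x => (Fr A).one_mem, fun _ _ _ => rfl⟩
  inv_mem' := by
    rintro f ⟨f1, f2⟩
    refine ⟨fun x => (Fr A).inv_mem (f1 x), fun v w h => ?_⟩
    change (f.1 v)⁻¹ = (f.1 w)⁻¹
    rw [f2 v w h]

lemma EE_rt {A : Finset ℕ} {f : Port} (hf : f ∈ FF A) (v : V) : EE A (rt f v) v := by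
  induction v using vind with
  | h0 => exact EE_refl _ _
  | h1 a x v hv ih =>
    rw [EE_cons (rt_cons f hv) hv]
    refine ⟨?_, ih⟩
    by_cases ha : a.2 ∈ A
    · left; exact (hf.1 x).2.1 a ha
    · right; exact ⟨Fr_notin (hf.1 x) ha, ha⟩

/-- the homomorphism from insensitive fresh portraits -/
noncomputable def rtF (A : Finset ℕ) : FF A →* Perm V where
  toFun f := rt f.1
  map_one' := rt_one
  map_mul' f g := (rt_mul f.1 g.1 fun x => f.2.2 _ _ (EE_rt g.2 x)).symm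

/-- insensitive sets -/
def Ins (A : Finset ℕ) (X : Set V) : Prop := ∀ v w, EE A v w → (v ∈ X ↔ w ∈ X)

section
variable {A : Finset ℕ} (h0 : 0 ∈ A)

/-- the portrait equal to `σ` on `X` -/
noncomputable def px (X : Set V) (σ : Perm Om) (hσ : σ ∈ Fr A) : Port :=
  pS X σ hσ.1 (fun _ _ b _ => hσ.2.1 (rv b) h0)

lemma px_pos {X : Set V} {σ : Perm Om} {hσ : σ ∈ Fr A} {x : V} (h : x ∈ X) :
    (px h0 X σ hσ).1 x = σ := pS_pos h

lemma px_neg {X : Set V} {σ : Perm Om} {hσ : σ ∈ Fr A} {x : V} (h : x ∉ X) :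
    (px h0 X σ hσ).1 x = 1 := pS_neg h

lemma px_mem {X : Set V} (hX : Ins A X) {σ : Perm Om} (hσ : σ ∈ Fr A) : px h0 X σ hσ ∈ FF A := by
  constructor
  · intro x
    by_cases h : x ∈ X
    · rw [px_pos h0 h]; exact hσ
    · rw [px_neg h0 h]; exact (Fr A).one_mem
  · intro v w hvw
    have := hX v w hvw
    by_cases h : v ∈ X
    · rw [px_pos h0 h, px_pos h0 (this.1 h)]
    · rw [px_neg h0 h, px_neg h0 (fun h' => h (this.2 h'))]

lemma Ins_inter {X X' : Set V} (hX : Ins A X) (hX' : Ins A X') : Ins A (X ∩ X') := by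
  intro v w h
  rw [Set.mem_inter_iff, Set.mem_inter_iff, hX v w h, hX' v w h]

lemma Ins_diff {X X' : Set V} (hX : Ins A X) (hX' : Ins A X') : Ins A (X \ X') := by
  intro v w h
  rw [Set.mem_sdiff, Set.mem_sdiff, hX v w h, hX' v w h]

lemma rt_com {X X' : Set V} (hX : Ins A X) (hX' : Ins A X') {σ τ : Perm Om} (hσ : σ ∈ Fr A)
    (hτ : τ ∈ Fr A) : rt (px h0 (X ∩ X') (com σ τ) (com_mem hσ hτ)) =
      com (rt (px h0 X σ hσ)) (rt (px h0 X' τ hτ)) := by
  have h1 : (⟨px h0 (X ∩ X') (com σ τ) (com_mem hσ hτ), px_mem h0 (Ins_inter hX hX') _⟩ : FF A) =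
      com ⟨px h0 X σ hσ, px_mem h0 hX hσ⟩ ⟨px h0 X' τ hτ, px_mem h0 hX' hτ⟩ := by
    apply Subtype.ext
    apply Subtype.ext
    funext x
    change (px h0 (X ∩ X') (com σ τ) (com_mem hσ hτ)).1 x =
      com ((px h0 X σ hσ).1 x) ((px h0 X' τ hτ).1 x)
    by_cases h : x ∈ X
    · by_cases h' : x ∈ X'
      · rw [px_pos h0 (Set.mem_inter h h'), px_pos h0 h, px_pos h0 h']
      · rw [px_neg h0 (X := X ∩ X') (fun h'' => h' h''.2), px_pos h0 h, px_neg h0 h']; simp [com]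
    · rw [px_neg h0 (X := X ∩ X') (fun h'' => h h''.1), px_neg h0 h]; simp [com]
  have h2 := congrArg (rtF A) h1
  have h3 : rtF A (com ⟨px h0 X σ hσ, px_mem h0 hX hσ⟩ ⟨px h0 X' τ hτ, px_mem h0 hX' hτ⟩) =
      com (rtF A ⟨px h0 X σ hσ, px_mem h0 hX hσ⟩) (rtF A ⟨px h0 X' τ hτ, px_mem h0 hX' hτ⟩) := by
    simp only [com, map_mul, map_inv]
  rw [h3] at h2
  exact h2

lemma rt_diff {X X' : Set V} (hX : Ins A X) (hX' : Ins A X') {σ : Perm Om} (hσ : σ ∈ Fr A) :
    rt (px h0 (X \ X') σ hσ) = rt (px h0 X σ hσ) * (rt (px h0 (X ∩ X') σ hσ))⁻¹ := by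
  have h1 : (⟨px h0 (X \ X') σ hσ, px_mem h0 (Ins_diff hX hX') hσ⟩ : FF A) =
      (⟨px h0 X σ hσ, px_mem h0 hX hσ⟩ : FF A) *
        (⟨px h0 (X ∩ X') σ hσ, px_mem h0 (Ins_inter hX hX') hσ⟩ : FF A)⁻¹ := by
    apply Subtype.ext
    apply Subtype.ext
    funext x
    change (px h0 (X \ X') σ hσ).1 x =
      ((px h0 X σ hσ).1 x) * ((px h0 (X ∩ X') σ hσ).1 x)⁻¹
    by_cases h : x ∈ X
    · by_cases h' : x ∈ X'
      · rw [px_neg h0 (X := X \ X') (fun h'' => h''.2 h'), px_pos h0 h,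
          px_pos h0 (Set.mem_inter h h')]; simp
      · rw [px_pos h0 (X := X \ X') ⟨h, h'⟩, px_pos h0 h,
          px_neg h0 (X := X ∩ X') (fun h'' => h' h''.2)]; simp
    · rw [px_neg h0 (X := X \ X') (fun h'' => h h''.1), px_neg h0 h,
        px_neg h0 (X := X ∩ X') (fun h'' => h h''.1)]; simp
  have h2 := congrArg (rtF A) h1
  rw [map_mul, map_inv] at h2
  exact h2

lemma rt_conj {X : Set V} {σ : Perm Om} (hσ : σ ∈ Fr A) {g : Perm V} (hg : g ∈ NA A) :
    rt (px h0 (g ⁻¹' X) σ hσ) = g⁻¹ * rt (px h0 X σ hσ) * g := by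
  have e1 : ∀ (Y : Set V), ∀ x ∈ TT A, ∀ a : Om, a.2 ∈ A → (px h0 Y σ hσ).1 x a = a := by
    intro Y x _ a ha
    by_cases h : x ∈ Y
    · rw [px_pos h0 h, hσ.2.1 a ha]
    · rw [px_neg h0 h]; rfl
  have key : g * rt (px h0 (g ⁻¹' X) σ hσ) = rt (px h0 X σ hσ) * g := by
    ext1 v
    induction v using vind with
    | h0 =>
      rw [Perm.mul_apply, Perm.mul_apply, rt_nil, rt_fix (e1 X) ((NA_TT hg).2 (nil_mem_TT A))]
    | h1 a x v hv ih =>
      rw [Perm.mul_apply, Perm.mul_apply] at *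
      by_cases hT : v ∈ TT A
      · rw [rt_fix (e1 X) ((NA_TT hg).2 hT), rt_fix (e1 _) hT]
      · have h3 := NA_cons hg hv hT
        have h4 := rt_cons (px h0 X σ hσ) h3
        have h5 := rt_cons (px h0 (g ⁻¹' X) σ hσ) hv
        have h6 : rt (px h0 (g ⁻¹' X) σ hσ) v ∉ TT A := by
          intro h6
          have := rt_fix (e1 (g ⁻¹' X)) h6
          have h7 := (rt (px h0 (g ⁻¹' X) σ hσ)).injective this
          rw [h7] at h6
          exact hT h6
        have h8 := NA_cons hg h5 h6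
        symm
        apply cons_eq h4
        have h9 : (px h0 (g ⁻¹' X) σ hσ).1 x = (px h0 X σ hσ).1 (g x) := by
          by_cases h : g x ∈ X
          · rw [px_pos h0 h, px_pos h0 (show x ∈ g ⁻¹' X from h)]
          · rw [px_neg h0 h, px_neg h0 (show x ∉ g ⁻¹' X from h)]
        rw [h8, ih, h9]
  rw [mul_assoc, ← key]; group

end

/-! ### three-cycles -/

/-- the three-cycle `a → b → c → a` -/
def cyc (a b c : Om) : Perm Om := swap a b * swap b c

lemma cyc_eq {a b c : Om} (hab : a ≠ b) (hac : a ≠ c) : cyc a b c = swap b c * swap a c := by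
  have h1 := swap_apply_apply (swap b c) a c
  rw [swap_apply_of_ne_of_ne hab hac, swap_apply_right] at h1
  rw [cyc, h1]; group

lemma cyc_conj (x : Perm Om) (a b c : Om) : x * cyc a b c * x⁻¹ = cyc (x a) (x b) (x c) := by
  rw [cyc, cyc, swap_apply_apply, swap_apply_apply]; group

lemma cyc_com {a b c d e : Om} (hab : a ≠ b) (hac : a ≠ c) (hbc : b ≠ c) (had : a ≠ d)
    (hcd : c ≠ d) (hae : a ≠ e) (hbe : b ≠ e) (hde : d ≠ e) :
    cyc a b c = com (cyc a b d) (cyc a c e) := by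
  have e1 : cyc a b d a = b := by
    rw [cyc, Perm.mul_apply, swap_apply_of_ne_of_ne hab had, swap_apply_left]
  have e2 : cyc a b d c = c := by
    rw [cyc, Perm.mul_apply, swap_apply_of_ne_of_ne (Ne.symm hbc) hcd,
      swap_apply_of_ne_of_ne (Ne.symm hac) (Ne.symm hbc)]
  have e3 : cyc a b d e = e := by
    rw [cyc, Perm.mul_apply, swap_apply_of_ne_of_ne (Ne.symm hbe) (Ne.symm hde),
      swap_apply_of_ne_of_ne (Ne.symm hae) (Ne.symm hbe)]
  have e4 : com (cyc a b d) (cyc a c e) = cyc b c e * (cyc a c e)⁻¹ := by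
    have := cyc_conj (cyc a b d) a c e
    rw [e1, e2, e3] at this
    rw [com, this]
  rw [e4, cyc_eq hab hac, cyc, cyc]
  rw [mul_inv_rev, swap_inv, swap_inv, mul_assoc, ← mul_assoc (swap c e) (swap c e), swap_mul_self,
    one_mul]

lemma cyc_apply_left {a b c : Om} (hab : a ≠ b) (hac : a ≠ c) : cyc a b c a = b := by
  rw [cyc, Perm.mul_apply, swap_apply_of_ne_of_ne hab hac, swap_apply_left]

end Pool.Agent.H57
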