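import Pool.Agent.H57.T10

/-!
Isolation of a root three-cycle in `M`.
-/

namespace Pool.Agent.H57

open Equiv

/-- three distinct fresh letters of the same sign -/
structure F3 (A : Finset ℕ) (a b c : Om) : Prop where
  sab : a.1 = b.1
  sac : a.1 = c.1
  fa : a.2 ∉ A
  fb : b.2 ∉ A
  fc : c.2 ∉ A
  ab : a ≠ b
  ac : a ≠ c
  bc : b ≠ c

lemma cyc_mem {A : Finset ℕ} {a b c : Om} (h : F3 A a b c) : cyc a b c ∈ Fr A :=
  (Fr A).mul_mem (swap_mem_Fr h.sab h.fa h.fb) (swap_mem_Fr (h.sab.symm.trans h.sac) h.fb h.fc)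

/-- sets `X` such that fresh three-cycles on `X` belong to `M` -/
def BB (M : Subgroup (Perm V)) {A : Finset ℕ} (h0 : 0 ∈ A) : Set (Set V) :=
  {X | Ins A X ∧ ∀ a b c (h : F3 A a b c), rt (px h0 X (cyc a b c) (cyc_mem h)) ∈ M}

section
variable {M : Subgroup (Perm V)} {A : Finset ℕ} {h0 : 0 ∈ A}

lemma px_congr {X : Set V} {σ τ : Perm Om} (h : σ = τ) {hσ : σ ∈ Fr A} {hτ : τ ∈ Fr A} :
    px h0 X σ hσ = px h0 X τ hτ := by subst h; rfl

lemma BB_inter {X X' : Set V} (hX : X ∈ BB M h0) (hX' : X' ∈ BB M h0) : X ∩ X' ∈ BB M h0 := by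
  refine ⟨Ins_inter hX.1 hX'.1, fun a b c h => ?_⟩
  obtain ⟨k, hk⟩ := exists_fresh (A ∪ {a.2, b.2, c.2})
  obtain ⟨k', hk'⟩ := exists_fresh (insert k (A ∪ {a.2, b.2, c.2}))
  simp only [Finset.mem_union, Finset.mem_insert, Finset.mem_singleton, not_or] at hk hk'
  have had : a ≠ (a.1, k) := fun h => hk.2.1 (by rw [h])
  have hbd : b ≠ (a.1, k) := fun h => hk.2.2.1 (by rw [h])
  have hcd : c ≠ (a.1, k) := fun h => hk.2.2.2 (by rw [h])
  have hae : a ≠ (a.1, k') := fun h => hk'.2.2.1 (by rw [h])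
  have hbe : b ≠ (a.1, k') := fun h => hk'.2.2.2.1 (by rw [h])
  have hce : c ≠ (a.1, k') := fun h => hk'.2.2.2.2 (by rw [h])
  have hde : (a.1, k) ≠ (a.1, k') := fun h => hk'.1 (congrArg Prod.snd h).symm
  have hcy := cyc_com h.ab h.ac h.bc had hcd hae hbe hde
  have f1 : F3 A a b (a.1, k) := ⟨h.sab, rfl, h.fa, h.fb, hk.1, h.ab, had, hbd⟩
  have f2 : F3 A a c (a.1, k') := ⟨h.sac, rfl, h.fa, h.fc, hk'.2.1, h.ac, hae, hce⟩
  rw [px_congr hcy (hτ := com_mem (cyc_mem f1) (cyc_mem f2)), rt_com h0 hX.1 hX'.1 (cyc_mem f1) (cyc_mem f2)]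
  exact com_mem (hX.2 _ _ _ f1) (hX'.2 _ _ _ f2)

lemma BB_diff {X X' : Set V} (hX : X ∈ BB M h0) (hX' : X' ∈ BB M h0) : X \ X' ∈ BB M h0 := by
  refine ⟨Ins_diff hX.1 hX'.1, fun a b c h => ?_⟩
  rw [rt_diff h0 hX.1 hX'.1]
  exact M.mul_mem (hX.2 _ _ _ h) (M.inv_mem ((BB_inter hX hX').2 _ _ _ h))

lemma Ins_XW {W : List Om} (hW : ∀ a ∈ W, a.2 ∈ A) : Ins A (XW W) := by
  have key : ∀ v w : V, EE A v w → v ∈ XW W → w ∈ XW W := by
    induction W with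
    | nil => intro v w _ _; exact List.nil_prefix
    | cons c W ih =>
      intro v w hvw hv
      have hv' : c :: W <+: v.1 := hv
      have hvn : v ≠ nil := by
        rintro rfl; rw [nil_val] at hv'; simp at hv'
      obtain ⟨a, x, hx⟩ := exists_cons hvn
      obtain ⟨b, y, hy, hab, hxy⟩ := EE_cases hx hvw
      rw [hx, List.cons_prefix_cons] at hv'
      change c :: W <+: w.1
      rw [hy, List.cons_prefix_cons]
      refine ⟨?_, ih (fun a ha => hW a (by simp [ha])) x y hxy hv'.2⟩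
      rcases hab with h | ⟨h, -⟩
      · rw [← h]; exact hv'.1
      · exfalso; apply h; rw [← hv'.1]; exact hW c (by simp)
  exact fun v w h => ⟨key v w h, key w v (EE_symm h)⟩

lemma BB_XW {A0 : Finset ℕ} (hU : UU A0 ⊆ M) {W : List Om} (hW : ∀ a ∈ W, a.2 ∈ A) {c : Om}
    (hc : W.getLast? = some c) (hcA : c.2 ∉ A0) : XW W ∈ BB M h0 := by
  refine ⟨Ins_XW hW, fun a b e h => hU ?_⟩
  have hm := cyc_mem h
  apply pat_mem_UU _ hm.2.2 hc hcA
  intro L c' R hLR _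
  exact hm.2.1 c' (hW c' (by rw [hLR]; simp))

lemma BB_pre {g : Perm V} (hg : g ∈ NA A) (hgM : g ∈ M) {X : Set V} (hX : X ∈ BB M h0) :
    g ⁻¹' X ∈ BB M h0 := by
  refine ⟨fun v w h => hX.1 _ _ (EE_map hg h), fun a b c h => ?_⟩
  rw [rt_conj h0 (cyc_mem h) hg]
  exact M.mul_mem (M.mul_mem (M.inv_mem hgM) (hX.2 _ _ _ h)) hgM

lemma remove_fin {F : Set V} (hF : F.Finite)
    (hY : ∀ x ∈ F, ∃ Y ∈ BB M h0, x ∈ Y ∧ nil ∉ Y) {X : Set V} (hX : X ∈ BB M h0)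
    (hn : nil ∈ X) : ∃ X' ∈ BB M h0, X' ⊆ X ∧ nil ∈ X' ∧ ∀ x ∈ F, x ∉ X' := by
  induction F, hF using Set.Finite.induction_on with
  | empty => exact ⟨X, hX, subset_rfl, hn, by simp⟩
  | @insert y F _ _ ih =>
    obtain ⟨X', h1, h2, h3, h4⟩ := ih fun x hx => hY x (Set.mem_insert_of_mem _ hx)
    obtain ⟨Y, hY1, hY2, hY3⟩ := hY y (Set.mem_insert _ _)
    refine ⟨X' \ Y, BB_diff h1 hY1, fun z hz => h2 hz.1, ⟨h3, hY3⟩, ?_⟩
    intro x hx
    rcases Set.mem_insert_iff.1 hx with rfl | hx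
    · exact fun h => h.2 hY2
    · exact fun h => h4 x hx h.1

/-- the set to be controlled -/
def OO (h : Perm V) : Set V := {x | h x ∈ XW (h nil).1 ∧ x ∉ XW (h nil).1}

lemma OO_fin {h : Perm V} (hN : h ∈ NN) : (OO h).Finite := by
  have := (XW_fin (h nil).1 (NN.inv_mem hN)).image (h⁻¹ : Perm V)
  apply this.subset
  rintro x ⟨h1, h2⟩
  refine ⟨h x, ⟨h1, ?_⟩, inv_ap _ _⟩
  rw [inv_ap]; exact h2

lemma nil_mem_BB {A0 : Finset ℕ} (hU : UU A0 ⊆ M) {h : Perm V} (hM : h ∈ M) (hA : h ∈ NA A)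
    (key : ∀ x ∈ TT A0, ∃ c, h x ∈ B c ∧ c.2 ∉ A0) (hO : OO h ⊆ TT A) :
    {nil} ∈ BB M h0 := by
  obtain ⟨c0, hc0, hc0A⟩ := key nil (nil_mem_TT A0)
  have hPT : h nil ∈ TT A := (NA_TT hA).2 (nil_mem_TT A)
  have hP : XW (h nil).1 ∈ BB M h0 := BB_XW hU hPT hc0 hc0A
  have hX : h ⁻¹' XW (h nil).1 \ XW (h nil).1 ∈ BB M h0 := BB_diff (BB_pre hA hM hP) hP
  have hn : nil ∈ h ⁻¹' XW (h nil).1 \ XW (h nil).1 := by
    refine ⟨List.prefix_refl _, fun hx => ?_⟩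
    have hx' : (h nil).1 <+: nil.1 := hx
    rw [nil_val, List.prefix_nil] at hx'
    have : h nil = nil := eq_nil hx'
    rw [this] at hc0
    exact nil_notin_B _ hc0
  have hF : (OO h \ {nil}).Finite := (OO_fin hA.1).subset Set.sdiff_subset
  have hY : ∀ x ∈ OO h \ {nil}, ∃ Y ∈ BB M h0, x ∈ Y ∧ nil ∉ Y := by
    rintro x ⟨hx, hxn⟩
    by_cases hT : x ∈ TT A0
    · obtain ⟨c, hc, hcA⟩ := key x hT
      have hxT : h x ∈ TT A := (NA_TT hA).2 (hO hx)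
      refine ⟨h ⁻¹' XW (h x).1, BB_pre hA hM (BB_XW hU hxT hc hcA), List.prefix_refl _, ?_⟩
      intro hn'
      have e1 : (h x).1 <+: (h nil).1 := hn'
      have e2 : (h nil).1 <+: (h x).1 := hx.1
      have e3 := e1.eq_of_length (le_antisymm e1.length_le e2.length_le)
      exact hxn (h.injective (Subtype.ext e3))
    · obtain ⟨α, hα, h' | ⟨q, c, hq, hc⟩⟩ := exists_PP A0 x
      · exact absurd (h' ▸ hα) hT
      · have e : x.1 = (q ++ [c]) ++ α.1 := by rw [hq]; simp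
        refine ⟨XW (q ++ [c]), BB_XW hU ?_ (c := c) (by simp) hc, ?_, ?_⟩
        · intro a ha
          exact hO hx a (by rw [e]; exact List.mem_append_left _ ha)
        · change q ++ [c] <+: x.1
          rw [e]; exact List.prefix_append _ _
        · intro hn'
          have hn'' : q ++ [c] <+: nil.1 := hn'
          rw [nil_val, List.prefix_nil] at hn''
          simp at hn''
  obtain ⟨X', h1, h2, h3, h4⟩ := remove_fin hF hY hX hn
  have : X' = {nil} := by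
    apply Set.eq_singleton_iff_unique_mem.2
    refine ⟨h3, fun x hx => ?_⟩
    by_contra hne
    exact h4 x ⟨h2 hx, hne⟩ hx
  rw [← this]; exact h1

end

end Pool.Agent.H57
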