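import Pool.Agent.H57.T11

/-!
Sections realised by `M`.
-/

namespace Pool.Agent.H57

open Equiv

lemma last_uniq {α : Type*} {a a' b b' : List α} {η : α} (h : a ++ η :: b = a' ++ η :: b')
    (hb : η ∉ b) (hb' : η ∉ b') : a = a' ∧ b = b' := by
  rcases List.append_eq_append_iff.1 h with ⟨c, h1, h2⟩ | ⟨c, h1, h2⟩
  · cases c with
    | nil => simp at h1 h2; exact ⟨h1.symm, h2⟩
    | cons e c =>
      exfalso
      simp only [List.cons_append, List.cons.injEq] at h2
      apply hb; rw [h2.2]; simp
  · cases c with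
    | nil => simp at h1 h2; exact ⟨h1, h2.symm⟩
    | cons e c =>
      exfalso
      simp only [List.cons_append, List.cons.injEq] at h2
      apply hb'; rw [h2.2]; simp

lemma exists_last {α : Type*} {η : α} {R : List α} (h : η ∈ R) :
    ∃ R1 R2, R = R1 ++ η :: R2 ∧ η ∉ R2 := by
  induction R with
  | nil => simp at h
  | cons e R ih =>
    by_cases h' : η ∈ R
    · obtain ⟨R1, R2, h1, h2⟩ := ih h'
      exact ⟨e :: R1, R2, by rw [h1]; rfl, h2⟩
    · rcases List.mem_cons.1 h with rfl | h
      · exact ⟨[], R, rfl, h'⟩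
      · exact absurd h h'

lemma B_cons {η : Om} {v x : V} {a : Om} (hv : v.1 = a :: x.1) (hx : x ≠ nil) :
    v ∈ B η ↔ x ∈ B η := by
  obtain ⟨b, y, hy⟩ := exists_cons hx
  change v.1.getLast? = some η ↔ x.1.getLast? = some η
  rw [hv, hy, List.getLast?_cons_cons]

lemma B_of_cons {η : Om} {v x : V} {a : Om} (hv : v.1 = a :: x.1) (hx : x ∈ B η) : v ∈ B η := by
  rw [B_cons hv]; · exact hx
  rintro rfl; exact nil_notin_B _ hx

lemma rt_B {f : Port} (hf : f.1 nil = 1) {η : Om} (v : V) : rt f v ∈ B η ↔ v ∈ B η := by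
  induction v using vind with
  | h0 => rw [rt_nil]
  | h1 a x v hv ih =>
    by_cases hx : x = nil
    · subst hx
      have h1 := rt_cons f hv
      rw [hf, rt_nil] at h1
      rw [cons_eq (a := a) (x := nil) h1 hv]
    · rw [B_cons (rt_cons f hv), B_cons hv hx, ih]
      intro h
      exact hx ((rt f).injective (h.trans (rt_nil f).symm))

lemma rist_mem {H : Set V} {a : Perm V} (ha : a ∈ Rist H) {v : V} : a v ∈ H ↔ v ∈ H := by
  constructor
  · intro h
    by_contra hv
    rw [ha.2 v hv] at h; exact hv h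
  · intro h
    by_contra hv
    have h1 := ha.2 _ hv
    have h2 := a.injective h1
    rw [h2] at hv; exact hv h

/-- elements of the rigid stabiliser of `B η` realised by `M` -/
def SS (M : Subgroup (Perm V)) (η : Om) : Subgroup (Perm V) where
  carrier := {a | a ∈ Rist (B η) ∧ ∃ m ∈ M, m ∈ NN ∧ m nil = nil ∧ ∀ v ∈ B η, m v = a v}
  mul_mem' := by
    rintro a b ⟨ha, m, hm1, hm2, hm3, hm4⟩ ⟨hb, n, hn1, hn2, hn3, hn4⟩
    refine ⟨(Rist _).mul_mem ha hb, m * n, M.mul_mem hm1 hn1, NN.mul_mem hm2 hn2, ?_, ?_⟩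
    · rw [Perm.mul_apply, hn3, hm3]
    · intro v hv
      rw [Perm.mul_apply, Perm.mul_apply, hn4 v hv, hm4 _ ((rist_mem hb).2 hv)]
  one_mem' := ⟨(Rist _).one_mem, 1, M.one_mem, NN.one_mem, rfl, fun _ _ => rfl⟩
  inv_mem' := by
    rintro a ⟨ha, m, hm1, hm2, hm3, hm4⟩
    refine ⟨(Rist _).inv_mem ha, m⁻¹, M.inv_mem hm1, NN.inv_mem hm2, ?_, ?_⟩
    · rw [Perm.inv_eq_iff_eq, hm3]
    · intro v hv
      rw [Perm.inv_eq_iff_eq, hm4 _ ((rist_mem ((Rist _).inv_mem ha)).2 hv), ap_inv]

lemma rt_single_rist {η : Om} {y : V} (hy : y ∈ B η) {σ : Perm Om} {h1 h2}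
    (hfin : {a | σ a ≠ a}.Finite) : rt (pS {y} σ h1 h2) ∈ Rist (B η) := by
  refine ⟨rt_pS_mem_NN (Set.finite_singleton _) hfin, fun v hv => ?_⟩
  induction v using vind with
  | h0 => rfl
  | h1 c x v hvx ih =>
    have hx : x ∉ B η := fun h => hv (B_of_cons hvx h)
    apply cons_eq (a := c) (x := x) _ hvx
    rw [rt_cons _ hvx, ih hx, pS_neg]
    · rfl
    · rintro rfl; exact hx hy

section
variable {M : Subgroup (Perm V)} {A : Finset ℕ} {h : Perm V}

lemma gen (hM : M ≤ GG) (h0 : 0 ∈ A) (hU : UU A ⊆ M) (hhM : h ∈ M)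
    (key : ∀ x ∈ TT A, ∃ c, h x ∈ B c ∧ c.2 ∉ A) {A1 : Finset ℕ} (hAA : A ⊆ A1) (hh : h ∈ NA A1)
    {η : Om} (hη : η.2 ∉ A1) {y : V} (hy : y ∈ B η) {e e' : Om} (hee : e.1 = e'.1)
    (he : ∀ b ∈ y.1.head?, rv b ≠ e ∧ rv b ≠ e') {h2} :
    rt (pS {y} (swap e e') (swap_sgn hee) h2) ∈ SS M η := by
  obtain ⟨ρ, hρ, hρA⟩ := key nil (nil_mem_TT A)
  have hPT : h nil ∈ TT A1 := (NA_TT hh).2 (nil_mem_TT A1)
  obtain ⟨Ay, hAy⟩ := exists_TT (Set.finite_singleton y)
  obtain ⟨k, hk⟩ := exists_fresh (A1 ∪ Ay ∪ {e.2, e'.2, η.2})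
  simp only [Finset.mem_union, Finset.mem_insert, Finset.mem_singleton, not_or] at hk
  obtain ⟨⟨hk1, hk2⟩, hk3, hk4, hk5⟩ := hk
  have hkA : k ∉ A := fun hh => hk1 (hAA hh)
  obtain ⟨u, hu, huv⟩ := exists_rl (a := ρ) (b := (ρ.1, k)) h0 rfl hρA hkA
  set s := swap ρ (ρ.1, k) with hs
  have hss : ∀ l : List Om, (l.map s).map s = l := by
    intro l
    rw [List.map_map]
    have : (⇑s ∘ ⇑s) = id := by
      funext a; simp [hs]
    rw [this]; simp
  have hui : ∀ v, (u⁻¹ v).1 = v.1.map s := by
    intro v
    have : u (u v) = v := by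
      apply Subtype.ext; rw [huv, huv, hss]
    rw [← this, inv_ap, this, huv]
  have huM : u ∈ M := hU hu
  have huG : u ∈ GG := hM huM
  have hρ1 : ρ.2 ∈ A1 := by
    apply hPT ρ
    exact List.mem_of_getLast? hρ
  have hηρ : η ≠ ρ := by rintro rfl; exact hη hρ1
  have hηρ' : η ≠ (ρ.1, k) := fun hh => hk5 (by rw [hh])
  have hsη : s η = η := swap_apply_of_ne_of_ne hηρ hηρ'
  set h' := u * h * u⁻¹ with hh'
  have hh'M : h' ∈ M := M.mul_mem (M.mul_mem huM hhM) (M.inv_mem huM)
  have hh'N : h' ∈ NN := GG_conj huG hh.1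
  have hcopy : ∀ (q : List Om) (x v : V), v.1 = q ++ η :: x.1 → (h' v).1 = q ++ η :: (h' x).1 := by
    intro q x v hv
    have e1 : (u⁻¹ v).1 = q.map s ++ η :: (u⁻¹ x).1 := by
      rw [hui, hui, hv]; simp [hsη]
    have e2 := NA_app hh e1 hη
    have e3 : (h' v).1 = (h (u⁻¹ v)).1.map s := huv _
    have e4 : (h' x).1 = (h (u⁻¹ x)).1.map s := huv _
    rw [e3, e2, e4]
    simp only [List.map_append, List.map_cons, hss, hsη]
  have hunil : u⁻¹ nil = nil := by
    apply eq_nil; rw [hui, nil_val]; rfl
  have hP' : (h' nil).1 = (h nil).1.map s := by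
    have : (h' nil).1 = (h (u⁻¹ nil)).1.map s := huv _
    rw [this, hunil]
  have hP'ρ : (h' nil).1.getLast? = some (ρ.1, k) := by
    have hρ' : (h nil).1.getLast? = some ρ := hρ
    rw [hP', List.getLast?_map, hρ']
    simp [hs]
  have hP'0 : (h' nil).1 ≠ [] := by
    intro hh; rw [hh] at hP'ρ; simp at hP'ρ
  have hηP' : η ∉ (h' nil).1 := by
    rw [hP']
    intro hh
    obtain ⟨a, ha, hsa⟩ := List.mem_map.1 hh
    have : a = η := s.injective (hsa.trans hsη.symm)
    rw [this] at ha
    exact hη (hPT η ha)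
  obtain ⟨qy, hqy⟩ := mem_B.1 hy
  have hyn : y ≠ nil := by rintro rfl; exact nil_notin_B _ hy
  have hW : (h' y).1 = qy ++ η :: (h' nil).1 := hcopy qy nil y (by rw [hqy, nil_val])
  have hW' : (h' y).1 = y.1 ++ (h' nil).1 := by rw [hW, hqy]; simp
  have hWl : (h' y).1.getLast? = some (ρ.1, k) := by
    rw [hW', List.getLast?_append_of_ne_nil _ hP'0, hP'ρ]
  have hρy : (ρ.1, k) ∉ y.1 := fun hh => hk2 (hAy rfl _ hh)
  have hlen : y.1.length < (h' y).1.length := by
    rw [hW']
    have := List.length_pos_iff.2 hP'0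
    simp; omega
  have hlen2 : (h' nil).1.length < (h' y).1.length := by
    rw [hW]; simp; omega
  have h2' : ∀ x ∈ XW (h' y).1, ∀ b ∈ x.1.head?, swap e e' (rv b) = rv b := by
    rintro x ⟨t, ht'⟩ b hb
    rw [← ht', hW'] at hb
    obtain ⟨c, y', hy'⟩ := exists_cons hyn
    rw [hy'] at hb
    simp only [List.cons_append, List.head?_cons, Option.mem_def, Option.some.injEq] at hb
    subst hb
    have := he c (by rw [hy']; simp)
    exact swap_apply_of_ne_of_ne this.1 this.2
  have hPC : PC (h' y).1 (swap e e') := by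
    intro L c R hLR hR
    by_cases hRn : R = []
    · subst hRn
      rw [hLR] at hWl
      simp only [List.getLast?_append, List.getLast?_singleton, Option.some_or,
        Option.some.injEq] at hWl
      rw [hWl]
      apply swap_apply_of_ne_of_ne
      · intro hh; exact hk3 (by rw [← hh])
      · intro hh; exact hk4 (by rw [← hh])
    · exfalso
      have e1 : (h' y).1 = (L ++ [c]) ++ R := by rw [hLR]; simp
      have e2 : R.getLast? = some (ρ.1, k) := by
        rw [e1, List.getLast?_append_of_ne_nil _ hRn] at hWl; exact hWl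
      have e3 : (ρ.1, k) ∈ R := List.mem_of_getLast? e2
      have e4 : y.1 <+: (h' y).1 := by rw [hW']; exact List.prefix_append _ _
      rcases List.prefix_or_prefix_of_prefix hR e4 with e5 | e5
      · exact hρy (e5.subset e3)
      · obtain ⟨R', hR'⟩ := e5
        rw [← hR', hW', List.prefix_append_right_inj] at hR
        have e6 : η ∉ R' := fun hh => hηP' (hR.subset hh)
        have e7 : (L ++ [c] ++ qy) ++ η :: R' = qy ++ η :: (h' nil).1 := by
          rw [← hW, e1, ← hR', hqy]; simp
        have e8 := (last_uniq e7 e6 hηP').1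
        have := congrArg List.length e8
        simp at this
        omega
  set z := rt (pS (XW (h' y).1) (swap e e') (swap_sgn hee) h2') with hz
  have hzU : z ∈ UU A := pat_mem_UU hPC (swap_fin _ _) hWl hkA
  have hzM : z ∈ M := hU hzU
  have hzG : z ∈ GG := hM hzM
  have hnilW : nil ∉ XW (h' y).1 := by
    intro hh
    have := (show (h' y).1 <+: nil.1 from hh).length_le
    rw [nil_val] at this
    simp at this
    rw [this] at hWl; simp at hWl
  have hzB : ∀ v, z v ∈ B η ↔ v ∈ B η := fun v => rt_B (pS_neg hnilW) v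
  set a := rt (pS {y} (swap e e') (swap_sgn hee) h2) with ha
  have haR : a ∈ Rist (B η) := rt_single_rist hy (swap_fin _ _)
  refine ⟨haR, h'⁻¹ * z * h' * z⁻¹, M.mul_mem (M.mul_mem (M.mul_mem (M.inv_mem hh'M) hzM) hh'M)
    (M.inv_mem hzM), ?_, ?_, ?_⟩
  · have := NN.mul_mem (NN.inv_mem hh'N) (GG_conj hzG hh'N)
    simpa [mul_assoc] using this
  · simp only [Perm.mul_apply]
    rw [hz, rt_inv_nil, ← hz, hz, pat_short hlen2.le, inv_ap]
  · have hcopy1 : ∀ (c : Om) (x v : V), v.1 = c :: x.1 → x ∈ B η → (h' v).1 = c :: (h' x).1 := by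
      intro c x v hv hx
      obtain ⟨q, hq⟩ := mem_B.1 hx
      rw [hcopy (c :: q) nil v (by rw [hv, hq, nil_val]; rfl),
        hcopy q nil x (by rw [hq, nil_val])]
      rfl
    have hzy : z y = y := pat_short hlen.le
    have claim : ∀ v0, v0 ∈ B η → z (h' v0) = h' (a (z v0)) := by
      intro v0
      induction v0 using vind with
      | h0 => intro hh; exact absurd hh (nil_notin_B _)
      | h1 c u0 v0 hv ih =>
        intro hv0
        by_cases hu0 : u0 = nil
        · subst hu0
          have hc : c = η := by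
            apply B_unique (v := v0) _ hv0
            exact mem_B.2 ⟨[], by rw [hv, nil_val]; rfl⟩
          subst hc
          have e1 : z v0 = v0 := by
            apply pat_short
            rw [hv, nil_val]
            simp only [List.length_cons, List.length_nil]
            omega
          have e2 : a v0 = v0 := by
            apply cons_eq (a := c) (x := nil) _ hv
            rw [ha, rt_cons _ hv, rt_nil, pS_neg]
            · rfl
            · intro hh; exact hyn (by rw [Set.mem_singleton_iff.1 hh])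
          rw [e1, e2]
          apply pat_short
          have : (h' v0).1 = [] ++ c :: (h' nil).1 := hcopy [] nil v0 (by rw [hv]; rfl)
          rw [this, hW]
          simp
        · have hu0B : u0 ∈ B η := (B_cons hv hu0).1 hv0
          have ih' := ih hu0B
          have e1 := hcopy1 c u0 v0 hv hu0B
          have e2 : (z (h' v0)).1 = _ :: (z (h' u0)).1 := rt_cons _ e1
          have e3 : (z v0).1 = _ :: (z u0).1 := rt_cons _ hv
          have e4 : (a (z v0)).1 = _ :: (a (z u0)).1 := rt_cons _ e3
          have e5 : a (z u0) ∈ B η := (rist_mem haR).2 ((hzB u0).2 hu0B)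
          have e6 := hcopy1 _ _ _ e4 e5
          apply Subtype.ext
          rw [e2, e6, ih']
          congr 1
          by_cases huy : u0 = y
          · subst huy
            have f1 : h' u0 ∈ XW (h' u0).1 := List.prefix_refl _
            have f2 : u0 ∉ XW (h' u0).1 := by
              intro hh
              have := (show (h' u0).1 <+: u0.1 from hh).length_le
              omega
            rw [pS_pos f1, hzy, pS_pos (Set.mem_singleton u0), pS_neg f2]
            rfl
          · have f1 : z u0 ∉ ({y} : Set V) := by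
              intro hh
              have : z u0 = z y := by rw [hzy]; exact hh
              exact huy (z.injective this)
            have f2 : h' u0 ∈ XW (h' y).1 ↔ u0 ∈ XW (h' y).1 := by
              obtain ⟨q', hq'⟩ := mem_B.1 hu0B
              have g1 : (h' u0).1 = q' ++ η :: (h' nil).1 := hcopy q' nil u0 (by rw [hq', nil_val])
              have g2 : (h' u0).1 = u0.1 ++ (h' nil).1 := by rw [g1, hq']; simp
              constructor
              · rintro ⟨R, hR⟩
                change (h' y).1 <+: u0.1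
                rw [g1, hW] at hR
                by_cases hηR : η ∈ R
                · obtain ⟨R1, R2, hR1, hR2⟩ := exists_last hηR
                  have g3 : (qy ++ η :: (h' nil).1 ++ R1) ++ η :: R2 = q' ++ η :: (h' nil).1 := by
                    rw [← hR, hR1]; simp
                  have g4 := (last_uniq g3 hR2 hηP').1
                  rw [hW, hq', ← g4]
                  exact ⟨R1 ++ [η], by simp⟩
                · exfalso
                  have g3 : qy ++ η :: ((h' nil).1 ++ R) = q' ++ η :: (h' nil).1 := by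
                    rw [← hR]; simp
                  have g4 := (last_uniq g3 (by simp [hηP', hηR]) hηP').1
                  apply huy
                  apply Subtype.ext
                  rw [hq', hqy, g4]
              · intro hh
                change (h' y).1 <+: (h' u0).1
                rw [g2]
                exact List.IsPrefix.trans hh (List.prefix_append _ _)
            rw [pS_neg f1]
            by_cases f3 : u0 ∈ XW (h' y).1
            · rw [pS_pos f3, pS_pos (f2.2 f3)]; rfl
            · rw [pS_neg f3, pS_neg (fun hh => f3 (f2.1 hh))]; rfl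
    intro v hv
    have hv0 : z⁻¹ v ∈ B η := by rw [← hzB, ap_inv]; exact hv
    have := claim _ hv0
    simp only [Perm.mul_apply]
    rw [this, inv_ap, ap_inv]

end

end Pool.Agent.H57
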