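import Pool.Agent.H57.T12

/-!
All sections are realised by `M`; commutators of the rigid stabiliser of `B η` are in `M`.
-/

namespace Pool.Agent.H57

open Equiv

lemma sg_inj {a b : Om} (h : sg a = sg b) : a.1 = b.1 := by
  unfold sg at h
  cases h5 : a.1 <;> cases h6 : b.1 <;> simp [h5, h6] at h ⊢

lemma single_short {x w : V} {σ : Perm Om} {h1 h2} (hw : w.1.length ≤ x.1.length) :
    rt (pS {x} σ h1 h2) w = w := by
  induction w using vind with
  | h0 => rfl
  | h1 c y w hwy ih =>
    have hl : y.1.length < x.1.length := by rw [hwy] at hw; simpa using hw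
    apply cons_eq (a := c) (x := y) _ hwy
    rw [rt_cons _ hwy, ih hl.le, pS_neg]
    · rfl
    · rintro rfl; omega

lemma length_of_fix {a : Perm V} (ha : a ∈ ISO) (h0 : a nil = nil) (v : V) :
    (a v).1.length = v.1.length := by
  rw [← d_nil_right (a v), ← d_nil_right v]
  nth_rewrite 1 [← h0]
  exact ha.1 v nil

lemma gen_all {M : Subgroup (Perm V)} {η : Om}
    (hg : ∀ x ∈ B η, ∀ (e e' : Om) (hee : e.1 = e'.1),
      (∀ b ∈ x.1.head?, rv b ≠ e ∧ rv b ≠ e') → ∀ h2,
        rt (pS {x} (swap e e') (swap_sgn hee) h2) ∈ SS M η) : Rist (B η) ≤ SS M η := by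
  have key : ∀ n, ∀ a ∈ Rist (B η), (bad a).ncard = n → a ∈ SS M η := by
    intro n
    induction n using Nat.strong_induction_on with
    | _ n ih =>
      intro a ha hn
      have haN := ha.1
      have haI : a ∈ ISO := haN.1
      have ha0 : a nil = nil := ha.2 nil (nil_notin_B _)
      by_cases hbe : bad a = ∅
      · have : a = 1 := by
          ext1 v
          induction v using vind with
          | h0 => exact ha0
          | h1 c x v hv ihv =>
            have := not_bad (g := a) hv (by rw [hbe]; simp)
            apply cons_eq (a := c) (x := x) _ hv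
            rw [this, ihv]; rfl
        rw [this]; exact (SS M η).one_mem
      · obtain ⟨v, hvb, hmin⟩ := Set.exists_min_image (bad a) (fun v => v.1.length) haN.2
          (Set.nonempty_iff_ne_empty.2 hbe)
        obtain ⟨e, x, hv, hne⟩ := id hvb
        have hlv : v.1.length = x.1.length + 1 := by rw [hv]; rfl
        have hshort : ∀ w : V, w.1.length ≤ x.1.length → a w = w := by
          intro w
          induction w using vind with
          | h0 => intro _; exact ha0
          | h1 c y w hw ihw =>
            intro hl
            have hlw : w.1.length = y.1.length + 1 := by rw [hw]; rfl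
            have hwb : w ∉ bad a := by
              intro hwb
              have := hmin w hwb
              omega
            have h3 := not_bad hw hwb
            apply cons_eq (a := c) (x := y) _ hw
            rw [h3, ihw (by omega)]
        have hax : a x = x := hshort x le_rfl
        have hlav : (a v).1.length = x.1.length + 1 := by rw [length_of_fix haI ha0, hlv]
        obtain ⟨e', he'⟩ : ∃ e', (a v).1 = e' :: x.1 := by
          have h3 : d (a v) x = 1 := by
            nth_rewrite 1 [← hax]
            rw [haI.1]; exact d_cons hv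
          rcases d_eq_one h3 with h4 | ⟨c, h4⟩
          · exact h4
          · exfalso
            rw [h4] at hlav
            simp at hlav
            omega
        have hee' : e' ≠ e := by
          rintro rfl
          apply hne
          rw [he', hax]
        have havv : a v ≠ v := by
          intro h3
          rw [h3, hv] at he'
          injection he' with h4
          exact hee' h4.symm
        have hvB : v ∈ B η := by
          by_contra hc
          exact havv (ha.2 v hc)
        have hxB : x ∈ B η := by
          by_cases hx : x = nil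
          · exfalso
            subst hx
            have h3 : a v ∈ B η := (rist_mem ha).2 hvB
            have h4 : e = η := B_unique (v := v) (mem_B.2 ⟨[], by rw [hv, nil_val]; rfl⟩) hvB
            have h5 : e' = η := B_unique (v := a v) (mem_B.2 ⟨[], by rw [he', nil_val]; rfl⟩) h3
            exact hee' (h5.trans h4.symm)
          · exact (B_cons hv hx).1 hvB
        have hsgn : e.1 = e'.1 := by
          apply sg_inj
          have h3 := ht_app haI v
          rw [ha0, ht_nil, ht_cons hv, ht_cons he'] at h3
          omega
        have hhd : ∀ b ∈ x.1.head?, rv b ≠ e ∧ rv b ≠ e' := by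
          intro b hb
          have h3 := v.2
          have h4 := (a v).2
          rw [hv] at h3
          rw [he'] at h4
          exact ⟨((red_cons.1 h3).1 b hb).symm, ((red_cons.1 h4).1 b hb).symm⟩
        have h2 : ∀ y ∈ ({x} : Set V), ∀ b ∈ y.1.head?, swap e e' (rv b) = rv b := by
          rintro y hy b hb
          rw [Set.mem_singleton_iff] at hy
          subst hy
          exact swap_apply_of_ne_of_ne (hhd b hb).1 (hhd b hb).2
        have htS := hg x hxB e e' hsgn hhd h2
        set t := rt (pS {x} (swap e e') (swap_sgn hsgn) h2) with ht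
        have htx : t x = x := single_short le_rfl
        have hsub : bad (t * a) ⊆ bad a := by
          rintro w ⟨c, z, hw, hwne⟩
          by_contra hwb
          have h3 := not_bad hw hwb
          have h4 : (t (a w)).1 = _ :: (t (a z)).1 := rt_cons _ h3
          rw [Perm.mul_apply, Perm.mul_apply, h4] at hwne
          have h5 : (pS {x} (swap e e') (swap_sgn hsgn) h2).1 (a z) c ≠ c :=
            fun h5 => hwne (by rw [h5])
          have h6 : a z ∈ ({x} : Set V) := by
            by_contra h6
            rw [pS_neg h6] at h5
            exact h5 rfl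
          rw [pS_pos h6] at h5
          have h7 : z = x := a.injective ((Set.mem_singleton_iff.1 h6).trans hax.symm)
          subst h7
          by_cases h8 : c = e
          · subst h8
            apply hwb
            rw [cons_eq hw hv]; exact hvb
          · by_cases h9 : c = e'
            · subst h9
              rw [hax] at h3
              have : a w = a v := cons_eq h3 he'
              have := a.injective this
              rw [this, hv] at hw
              injection hw with h10
              exact h8 h10.symm
            · exact h5 (swap_apply_of_ne_of_ne h8 h9)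
        have hvnb : v ∉ bad (t * a) := by
          rintro ⟨c, z, hw, hwne⟩
          obtain ⟨rfl, rfl⟩ := cons_inj hv hw
          apply hwne
          have h4 : (t (a v)).1 = _ :: (t x).1 := rt_cons _ he'
          rw [Perm.mul_apply, Perm.mul_apply, h4, hax, pS_pos (Set.mem_singleton x), htx,
            swap_apply_right]
        have hlt : (bad (t * a)).ncard < (bad a).ncard := by
          apply Set.ncard_lt_ncard _ haN.2
          exact ⟨hsub, fun hh => hvnb (hh hvb)⟩
        have h3 := ih _ (hn ▸ hlt) (t * a) ((Rist _).mul_mem htS.1 ha) rfl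
        have h4 := (SS M η).mul_mem ((SS M η).inv_mem htS) h3
        simpa using h4
  exact fun a ha => key _ a ha rfl

lemma com_mul_right {G : Type*} [Group G] {r a c : G} (h : Commute c r) :
    com r (a * c) = com r a := by
  have h1 : c * r⁻¹ * c⁻¹ = r⁻¹ := by rw [h.inv_right.eq]; group
  calc com r (a * c) = r * a * (c * r⁻¹ * c⁻¹) * a⁻¹ := by simp only [com]; group
    _ = com r a := by rw [h1]; rfl

lemma DH_B {M : Subgroup (Perm V)} {A : Finset ℕ} {h0 : 0 ∈ A} {η : Om} (hη : η.2 ∉ A)
    (hS : Rist (B η) ≤ SS M η) (hr : {nil} ∈ BB M h0) : DH M (B η) := by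
  have key : ∀ a ∈ Rist (B η), ∀ b ∈ Rist (B η), com a⁻¹ b ∈ M := by
    intro a ha b hb
    obtain ⟨-, ma, ma1, ma2, ma3, ma4⟩ := hS ha
    obtain ⟨-, mb, mb1, mb2, mb3, mb4⟩ := hS hb
    obtain ⟨A1, hA1⟩ := exists_NA ma2
    obtain ⟨A2, hA2⟩ := exists_NA mb2
    obtain ⟨k, hk⟩ := exists_fresh (A ∪ A1 ∪ A2 ∪ {η.2})
    obtain ⟨k', hk'⟩ := exists_fresh (insert k (A ∪ A1 ∪ A2 ∪ {η.2}))
    simp only [Finset.mem_union, Finset.mem_insert, Finset.mem_singleton, not_or] at hk hk'
    have hma := hA1 A1 subset_rfl
    have hmb := hA2 A2 subset_rfl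
    have n2 : η ≠ (η.1, k) := fun h => hk.2 (by rw [h])
    have n3 : η ≠ (η.1, k') := fun h => hk'.2.2 (by rw [h])
    have n23 : ((η.1, k) : Om) ≠ (η.1, k') := fun h => hk'.1 (congrArg Prod.snd h).symm
    have hF : F3 A η (η.1, k) (η.1, k') :=
      ⟨rfl, rfl, hη, hk.1.1.1, hk'.2.1.1.1, n2, n3, n23⟩
    have hrM := hr.2 _ _ _ hF
    set r := rt (px h0 {nil} (cyc η (η.1, k) (η.1, k')) (cyc_mem hF)) with hrd
    have hrr : r = rr (cyc η (η.1, k) (η.1, k')) (cyc_mem hF).1 := rfl
    have hrfix : ∀ v, v ∉ B η → v ∉ B (η.1, k) → v ∉ B (η.1, k') → r v = v := by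
      intro v h1 h2 h3
      rw [hrr]
      by_cases hv : v = nil
      · subst hv; exact rr_nil
      · obtain ⟨c, hc⟩ := exists_B hv
        have c1 : c ≠ η := by rintro rfl; exact h1 hc
        have c2 : c ≠ (η.1, k) := by rintro rfl; exact h2 hc
        have c3 : c ≠ (η.1, k') := by rintro rfl; exact h3 hc
        obtain ⟨q, hq⟩ := mem_B.1 hc
        apply Subtype.ext
        rw [rr_app hq, hq, cyc, Perm.mul_apply, swap_apply_of_ne_of_ne c2 c3,
          swap_apply_of_ne_of_ne c1 c2]
    have hrmove : ∀ x ∈ B η, r x ∉ B η := by
      intro x hx hx'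
      have h1 : r x ∈ B (cyc η (η.1, k) (η.1, k') η) := by
        rw [hrr]; exact rr_B.2 hx
      rw [cyc_apply_left n2 n3] at h1
      exact n2 (B_unique hx' h1)
    -- the correction terms
    have corr : ∀ a ∈ Rist (B η), ∀ m, m nil = nil → (∀ v ∈ B η, m v = a v) →
        (∀ v ∈ B (η.1, k), m v = v) → (∀ v ∈ B (η.1, k'), m v = v) →
        Commute (a⁻¹ * m) r ∧ ∀ a' ∈ Rist (B η), Commute (a⁻¹ * m) a' := by
      intro a ha m _ hm1 hm2 hm3
      have g1 : ∀ v ∈ B η, (a⁻¹ * m) v = v := by
        intro v hv
        rw [Perm.mul_apply, hm1 v hv, inv_ap]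
      have gen : ∀ c, c ≠ η → (∀ v ∈ B c, m v = v) → ∀ v ∈ B c, (a⁻¹ * m) v = v := by
        intro c hc hmc v hv
        rw [Perm.mul_apply, hmc v hv]
        exact ((Rist _).inv_mem ha).2 v fun h => hc (B_unique hv h)
      refine ⟨?_, ?_⟩
      · apply Perm.Disjoint.commute
        intro x
        by_cases h1 : x ∈ B η
        · exact Or.inl (g1 x h1)
        · by_cases h2 : x ∈ B (η.1, k)
          · exact Or.inl (gen _ (Ne.symm n2) hm2 x h2)
          · by_cases h3 : x ∈ B (η.1, k')
            · exact Or.inl (gen _ (Ne.symm n3) hm3 x h3)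
            · exact Or.inr (hrfix x h1 h2 h3)
      · intro a' ha'
        apply Perm.Disjoint.commute
        intro x
        by_cases h1 : x ∈ B η
        · exact Or.inl (g1 x h1)
        · exact Or.inr (ha'.2 x h1)
    obtain ⟨ca1, -⟩ := corr a ha ma ma3 ma4
      (fun v hv => NA_fix hma ma3 hv hk.1.1.2) (fun v hv => NA_fix hma ma3 hv hk'.2.1.1.2)
    obtain ⟨cb1, cb2⟩ := corr b hb mb mb3 mb4
      (fun v hv => NA_fix hmb mb3 hv hk.1.2) (fun v hv => NA_fix hmb mb3 hv hk'.2.1.2)
    have e1 : com r ma = com r a := by
      have : ma = a * (a⁻¹ * ma) := by group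
      rw [this]; exact com_mul_right ca1
    have e2 : com r a ∈ M := by rw [← e1]; exact com_mem hrM ma1
    have e3 : com (com r a) mb = com (com r a) b := by
      have : mb = b * (b⁻¹ * mb) := by group
      rw [this]
      apply com_mul_right
      have ca' := cb2 a ha
      exact ((cb1.mul_right ca').mul_right cb1.inv_right).mul_right ca'.inv_right
    have e4 : com (com r a) b ∈ M := by rw [← e3]; exact com_mem e2 mb1
    rw [com_com (rist_commute hrmove ha ha) (rist_commute hrmove ha hb)] at e4
    exact e4
  intro a ha b hb
  have := key a⁻¹ ((Rist _).inv_mem ha) b hb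
  rwa [inv_inv] at this

end Pool.Agent.H57
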