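import Pool.Agent.H57.T13

/-!
If `M` contains some `UU A` and `M LL = GG` then `LL ≤ M`.
-/

namespace Pool.Agent.H57

open Equiv

lemma rl_invol {u : Perm V} {a b : Om} (hu : ∀ v, (u v).1 = v.1.map (swap a b)) (v : V) :
    u (u v) = v := by
  apply Subtype.ext
  rw [hu, hu, List.map_map]
  have : (⇑(swap a b) ∘ ⇑(swap a b)) = id := by
    funext c; simp
  rw [this]; simp

lemma rl_B {u : Perm V} {a b c : Om} (hu : ∀ v, (u v).1 = v.1.map (swap a b)) {v : V}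
    (hv : v ∈ B c) : u v ∈ B (swap a b c) := by
  change (u v).1.getLast? = _
  have hv' : v.1.getLast? = some c := hv
  rw [hu, List.getLast?_map, hv']; rfl

lemma DH_cj_suffix {M : Subgroup (Perm V)} {α g} (hg : g ∈ NN)
    (hpre : ∀ q v : V, v.1 = q.1 ++ α → g q = v) {Q : V} {q : List Om} {c : Om}
    (hQ : Q.1 = q ++ c :: α) (h : DH M {v | ¬ Q.1 <:+ v.1}) : DH (cj g M) (B c)ᶜ := by
  rw [DH_cj (NN_le_GG hg)]
  apply DH_mono _ h
  rintro _ ⟨w, hw, rfl⟩ ⟨r, hr⟩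
  apply hw
  rw [hQ] at hr
  have hred : Red (r ++ q ++ [c]) := by
    have := (g w).2
    have e : r ++ (q ++ c :: α) = (r ++ q ++ [c]) ++ α := by simp
    rw [← hr, e] at this
    exact (red_append.1 this).1
  have h1 : g ⟨r ++ q ++ [c], hred⟩ = g w := hpre _ _ (by rw [← hr]; simp)
  rw [← g.injective h1]
  exact mem_B.2 ⟨r ++ q, rfl⟩

lemma step67 {M : Subgroup (Perm V)} (hM : M ≤ GG) {A : Finset ℕ} (h0 : 0 ∈ A)
    (hU : UU A ⊆ M) {h : Perm V} (hhM : h ∈ M) (hhN : h ∈ NN)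
    (key : ∀ x ∈ TT A, ∃ c, h x ∈ B c ∧ c.2 ∉ A) : ∃ x, WM M x := by
  obtain ⟨A', hA'⟩ := exists_NA hhN
  obtain ⟨A'', hA''⟩ := exists_TT (OO_fin hhN)
  have hAA : A ⊆ A ∪ A' ∪ A'' := fun x hx => by simp [hx]
  have hh : h ∈ NA (A ∪ A' ∪ A'') := hA' _ fun x hx => by simp [hx]
  have hO : OO h ⊆ TT (A ∪ A' ∪ A'') := hA''.trans (TT_mono fun x hx => by simp [hx])
  set A1 := A ∪ A' ∪ A'' with hA1
  have h0' : 0 ∈ A1 := hAA h0
  have hr : {nil} ∈ BB M h0' := nil_mem_BB hU hhM hh key hO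
  obtain ⟨ρ, hρ, hρA⟩ := key nil (nil_mem_TT A)
  obtain ⟨k, hk⟩ := exists_fresh A1
  have hη : ((ρ.1, k) : Om).2 ∉ A1 := hk
  have hS : Rist (B (ρ.1, k)) ≤ SS M (ρ.1, k) :=
    gen_all fun x hx e e' hee he h2 => gen hM h0 hU hhM key hAA hh hη hx hee he
  have hD1 : DH M (B (ρ.1, k)) := DH_B hη hS hr
  obtain ⟨u, hu, huv⟩ := exists_rl (a := (ρ.1, k)) (b := ρ) h0 rfl (fun h => hk (hAA h)) hρA
  have hD2 : DH M (B ρ) := by
    apply DH_mono _ (DH_inv hM (hU hu) hD1)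
    intro v hv
    refine ⟨u v, ?_, rl_invol huv v⟩
    have := rl_B huv hv
    rwa [swap_apply_right] at this
  have hhI : h ∈ ISO := hhN.1
  have hD3 : DH M {v | ¬ (h⁻¹ nil).1 <:+ v.1} := by
    apply DH_mono _ (DH_inv hM (M.inv_mem hhM) hD2)
    intro v hv
    exact ⟨h v, big hhI hρ hv, inv_ap _ _⟩
  have hQ : h⁻¹ nil ∉ TT A := by
    intro hQ
    obtain ⟨c, hc, -⟩ := key _ hQ
    rw [ap_inv] at hc
    exact nil_notin_B _ hc
  obtain ⟨α, hα, h' | ⟨q, c, hq, hc⟩⟩ := exists_PP A (h⁻¹ nil)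
  · exact absurd (h' ▸ hα) hQ
  · obtain ⟨k', hk'⟩ := exists_fresh (A ∪ {c.2})
    simp only [Finset.mem_union, Finset.mem_singleton, not_or] at hk'
    obtain ⟨u2, hu2, hu2v⟩ := exists_rl (a := c) (b := (c.1, k')) h0 rfl hc hk'.1
    have hmα : α.1.map (swap c (c.1, k')) = α.1 := by
      rw [List.map_congr_left (g := id)]
      · simp
      · intro a ha
        apply swap_apply_of_ne_of_ne
        · rintro rfl; exact hc (hα _ ha)
        · rintro rfl; exact hk'.1 (hα _ ha)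
    have hQ2 : (u2 (h⁻¹ nil)).1 = q.map (swap c (c.1, k')) ++ (c.1, k') :: α.1 := by
      rw [hu2v, hq]; simp [hmα]
    have hD4 : DH M {v | ¬ (u2 (h⁻¹ nil)).1 <:+ v.1} := by
      apply DH_mono _ (DH_inv hM (hU hu2) hD3)
      intro v hv
      refine ⟨u2 v, fun hs => hv ?_, rl_invol hu2v v⟩
      have h5 := hs.map (swap c (c.1, k'))
      rw [← hu2v, ← hu2v, rl_invol hu2v] at h5
      exact h5
    obtain ⟨g, hg, hpre⟩ := exists_pre' α
    have e1 := DH_cj_suffix hg hpre hq hD3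
    have e2 := DH_cj_suffix hg hpre hQ2 hD4
    have hne : c ≠ (c.1, k') := fun h => hk'.2 (by rw [h])
    have e3 := full_nil_of hne e1 e2
    rw [WM_cj (NN_le_GG hg)] at e3
    exact ⟨_, e3⟩

/-- if `M` contains some `UU A` and supplements `LL` then `LL ≤ M` -/
theorem LL_le_of_UU {M : Subgroup (Perm V)} (hM : M ≤ GG)
    (hML : ∀ g ∈ GG, ∃ m ∈ M, ∃ l ∈ LL, g = m * l) {A : Finset ℕ} (h0 : 0 ∈ A)
    (hU : UU A ⊆ M) : LL ≤ M := by
  obtain ⟨h, hhM, hhN, hhT⟩ := step4 hM hML A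
  obtain ⟨g, hg, key⟩ := step5 hhN.1 h0 hhT
  have hgG : g ∈ GG := NN_le_GG (NA_le_NN A hg)
  have hU' : UU A ⊆ cj g M := by
    intro u hu
    change g * u * g⁻¹ ∈ M
    rw [← hu.2.2 g hg]
    simpa using hU hu
  have hh' : g⁻¹ * h * g ∈ cj g M := by
    rw [mem_cj]; simpa [mul_assoc] using hhM
  obtain ⟨x, hx⟩ := step67 (cj_le_GG hgG hM) h0 hU' hh' (GG_conj' hgG hhN) key
  rw [WM_cj hgG] at hx
  obtain ⟨m, hm, -, hm1⟩ := exists_height_one hML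
  exact LL_le_of_full (all_full hM hx ⟨m, hm, hm1⟩)

end Pool.Agent.H57
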