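import Pool.Agent.H57.T14

/-!
A Baire category lemma in products of countable discrete spaces.
-/

namespace Pool.Agent.H57

open Topology

section
variable {α β ι : Type} [TopologicalSpace α] [DiscreteTopology α] [Countable α]
  [TopologicalSpace β] [DiscreteTopology β] [Countable β] [Countable ι]

lemma cyl {γ δ : Type} [TopologicalSpace δ] [DiscreteTopology δ] {s : Set (γ → δ)} {f : γ → δ}
    (hs : s ∈ 𝓝 f) : ∃ I : Set γ, I.Finite ∧ ∀ g : γ → δ, (∀ i ∈ I, g i = f i) → g ∈ s := by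
  rw [nhds_pi, Filter.mem_pi] at hs
  obtain ⟨I, hI, t, ht, hts⟩ := hs
  refine ⟨I, hI, fun g hg => hts ?_⟩
  intro i hi
  rw [hg i hi]
  exact mem_of_mem_nhds (ht i)

theorem baire_cyl (K : Set ((α → α) × (α → α) × (β → β) × (β → β))) (hKc : IsClosed K)
    (hne : K.Nonempty) (F : ι → Set ((α → α) × (α → α) × (β → β) × (β → β)))
    (hF : ∀ i, IsClosed (F i)) (hcov : ∀ x ∈ K, ∃ i, x ∈ F i) :
    ∃ i, ∃ x0 ∈ K, ∃ (I1 I2 : Set α) (I3 I4 : Set β), I1.Finite ∧ I2.Finite ∧ I3.Finite ∧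
      I4.Finite ∧ ∀ y ∈ K, (∀ v ∈ I1, y.1 v = x0.1 v) → (∀ v ∈ I2, y.2.1 v = x0.2.1 v) →
        (∀ v ∈ I3, y.2.2.1 v = x0.2.2.1 v) → (∀ v ∈ I4, y.2.2.2 v = x0.2.2.2 v) → y ∈ F i := by
  have hP : TopologicalSpace.IsCompletelyPseudoMetrizableSpace K :=
    hKc.isCompletelyPseudoMetrizableSpace
  have hN : Nonempty K := hne.to_subtype
  obtain ⟨i, x0, hx0⟩ := nonempty_interior_of_iUnion_of_closed (X := K)
    (f := fun i => Subtype.val ⁻¹' F i) (fun i => (hF i).preimage continuous_subtype_val) (by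
      ext x
      simp only [Set.mem_iUnion, Set.mem_preimage, Set.mem_univ, iff_true]
      exact hcov x.1 x.2)
  rw [mem_interior_iff_mem_nhds, mem_nhds_induced] at hx0
  obtain ⟨u, hu, hui⟩ := hx0
  rw [nhds_prod_eq, nhds_prod_eq, nhds_prod_eq, Filter.mem_prod_iff] at hu
  obtain ⟨t1, ht1, t2, ht2, h12⟩ := hu
  rw [Filter.mem_prod_iff] at ht2
  obtain ⟨t3, ht3, t4, ht4, h34⟩ := ht2
  rw [Filter.mem_prod_iff] at ht4
  obtain ⟨t5, ht5, t6, ht6, h56⟩ := ht4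
  obtain ⟨I1, hI1, h1⟩ := cyl ht1
  obtain ⟨I2, hI2, h2⟩ := cyl ht3
  obtain ⟨I3, hI3, h3⟩ := cyl ht5
  obtain ⟨I4, hI4, h4⟩ := cyl ht6
  refine ⟨i, x0.1, x0.2, I1, I2, I3, I4, hI1, hI2, hI3, hI4, ?_⟩
  intro y hy e1 e2 e3 e4
  have : y ∈ u := h12 ⟨h1 _ e1, h34 ⟨h2 _ e2, h56 ⟨h3 _ e3, h4 _ e4⟩⟩⟩
  exact hui (a := ⟨y, hy⟩) this

lemma closed_imp {X : Type*} [TopologicalSpace X] {p q : X → Prop} (hp : IsOpen {x | p x})
    (hq : IsClosed {x | q x}) : IsClosed {x | p x → q x} := by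
  have : {x | p x → q x} = {x | p x}ᶜ ∪ {x | q x} := by
    ext x
    simp only [Set.mem_ofPred_eq, Set.mem_union, Set.mem_compl_iff]
    tauto
  rw [this]
  exact hp.isClosed_compl.union hq

end

end Pool.Agent.H57
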