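import Pool.Agent.H57.T15

/-!
Every maximal subgroup of `GG` contains `LL`.
-/

namespace Pool.Agent.H57

open Equiv

/-- discrete copy of `V` -/
def Vd : Type := V
/-- discrete copy of `NN` -/
def Nd : Type := NN

instance : TopologicalSpace Vd := ⊥
instance : DiscreteTopology Vd := ⟨rfl⟩
instance : Countable Vd := inferInstanceAs (Countable V)
instance : TopologicalSpace Nd := ⊥
instance : DiscreteTopology Nd := ⟨rfl⟩
instance : Countable Nd := inferInstanceAs (Countable NN)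

/-- vertex underlying -/
def vv (v : Vd) : V := v
/-- permutation underlying -/
def nn (n : Nd) : Perm V := (n : NN).1

lemma nn_mem (n : Nd) : nn n ∈ NN := (n : NN).2

lemma nn_inj {n n' : Nd} (h : nn n = nn n') : n = n' := Subtype.ext h

/-- the ambient Polish space -/
abbrev XX := (Vd → Vd) × (Vd → Vd) × (Nd → Nd) × (Nd → Nd)

lemma cl1 (v w : Vd) : IsClopen {x : XX | x.1 v = w} := by
  have : Continuous (fun x : XX => x.1 v) := (continuous_apply v).comp continuous_fst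
  exact (isClopen_discrete {w}).preimage this

lemma cl2 (v w : Vd) : IsClopen {x : XX | x.2.1 v = w} := by
  have : Continuous (fun x : XX => x.2.1 v) :=
    (continuous_apply v).comp (continuous_fst.comp continuous_snd)
  exact (isClopen_discrete {w}).preimage this

lemma cl3 (v w : Nd) : IsClopen {x : XX | x.2.2.1 v = w} := by
  have : Continuous (fun x : XX => x.2.2.1 v) :=
    (continuous_apply v).comp (continuous_fst.comp (continuous_snd.comp continuous_snd))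
  exact (isClopen_discrete {w}).preimage this

lemma cl4 (v w : Nd) : IsClopen {x : XX | x.2.2.2 v = w} := by
  have : Continuous (fun x : XX => x.2.2.2 v) :=
    (continuous_apply v).comp (continuous_snd.comp (continuous_snd.comp continuous_snd))
  exact (isClopen_discrete {w}).preimage this

lemma closed_forall {X ι : Type*} [TopologicalSpace X] {p : ι → X → Prop}
    (h : ∀ i, IsClosed {x | p i x}) : IsClosed {x | ∀ i, p i x} := by
  have : {x | ∀ i, p i x} = ⋂ i, {x | p i x} := by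
    ext x; simp
  rw [this]; exact isClosed_iInter h

lemma closed_const {X : Type*} [TopologicalSpace X] (p : Prop) : IsClosed {_x : X | p} := by
  by_cases h : p <;> simp [h]

/-- codes of elements of `GG` -/
def KK : Set XX := {x | (∀ v w, x.1 v = w → x.2.1 w = v) ∧ (∀ v w, x.2.1 v = w → x.1 w = v) ∧
  (∀ v v', x.1 v = v' → ∀ w w', x.1 w = w' →
    (d (vv v') (vv w') = d (vv v) (vv w) ∧ ht (vv v') - ht (vv v) = ht (vv w') - ht (vv w))) ∧
  (∀ n n', x.2.2.1 n = n' → ∀ v v', x.1 v = v' → ∀ w w', x.1 w = w' →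
    (nn n (vv v) = vv w → nn n' (vv v') = vv w')) ∧
  (∀ n n', x.2.2.2 n = n' → ∀ v v', x.2.1 v = v' → ∀ w w', x.2.1 w = w' →
    (nn n (vv v) = vv w → nn n' (vv v') = vv w'))}

lemma KK_closed : IsClosed KK := by
  refine IsClosed.inter ?_ (IsClosed.inter ?_ (IsClosed.inter ?_ (IsClosed.inter ?_ ?_)))
  · exact closed_forall fun v => closed_forall fun w => closed_imp (cl1 _ _).2 (cl2 _ _).1
  · exact closed_forall fun v => closed_forall fun w => closed_imp (cl2 _ _).2 (cl1 _ _).1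
  · exact closed_forall fun v => closed_forall fun v' => closed_imp (cl1 _ _).2
      (closed_forall fun w => closed_forall fun w' => closed_imp (cl1 _ _).2 (closed_const _))
  · exact closed_forall fun n => closed_forall fun n' => closed_imp (cl3 _ _).2
      (closed_forall fun v => closed_forall fun v' => closed_imp (cl1 _ _).2
      (closed_forall fun w => closed_forall fun w' => closed_imp (cl1 _ _).2 (closed_const _)))
  · exact closed_forall fun n => closed_forall fun n' => closed_imp (cl4 _ _).2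
      (closed_forall fun v => closed_forall fun v' => closed_imp (cl2 _ _).2
      (closed_forall fun w => closed_forall fun w' => closed_imp (cl2 _ _).2 (closed_const _)))

/-- the permutation coded by a point of `KK` -/
def toP (x : XX) (hx : x ∈ KK) : Perm V where
  toFun := x.1
  invFun := x.2.1
  left_inv v := hx.1 v _ rfl
  right_inv v := hx.2.1 v _ rfl

lemma toP_conj {x : XX} (hx : x ∈ KK) (n : Nd) :
    toP x hx * nn n * (toP x hx)⁻¹ = nn (x.2.2.1 n) := by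
  ext1 v
  have h1 := hx.2.2.2.1 n _ rfl ((toP x hx)⁻¹ v : V) _ rfl (nn n ((toP x hx)⁻¹ v)) _ rfl rfl
  have h2 : x.1 ((toP x hx)⁻¹ v : V) = v := ap_inv (toP x hx) v
  rw [h2] at h1
  exact h1.symm

lemma toP_conj' {x : XX} (hx : x ∈ KK) (n : Nd) :
    (toP x hx)⁻¹ * nn n * toP x hx = nn (x.2.2.2 n) := by
  ext1 v
  have h1 := hx.2.2.2.2 n _ rfl (toP x hx v : V) _ rfl (nn n (toP x hx v)) _ rfl rfl
  have h2 : x.2.1 (toP x hx v : V) = v := inv_ap (toP x hx) v
  rw [h2] at h1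
  exact h1.symm

lemma toP_mem {x : XX} (hx : x ∈ KK) : toP x hx ∈ GG := by
  have h1 : ∀ n ∈ NN, toP x hx * n * (toP x hx)⁻¹ ∈ NN := by
    intro n hn
    have := toP_conj hx (⟨n, hn⟩ : NN)
    have h2 : nn (⟨n, hn⟩ : NN) = n := rfl
    rw [h2] at this
    rw [this]; exact nn_mem _
  have h2 : ∀ n ∈ NN, (toP x hx)⁻¹ * n * toP x hx ∈ NN := by
    intro n hn
    have := toP_conj' hx (⟨n, hn⟩ : NN)
    have h2 : nn (⟨n, hn⟩ : NN) = n := rfl
    rw [h2] at this
    rw [this]; exact nn_mem _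
  refine ⟨⟨fun v w => (hx.2.2.1 v _ rfl w _ rfl).1, fun v w => (hx.2.2.1 v _ rfl w _ rfl).2⟩,
    fun n => ⟨h1 n, fun hn => ?_⟩⟩
  have := h2 _ hn
  simpa [mul_assoc] using this

/-- the code of an element of `GG` -/
def jj (g : Perm V) (hg : g ∈ GG) : XX :=
  (g, (g⁻¹ : Perm V), fun n => (⟨g * nn n * g⁻¹, GG_conj hg (nn_mem n)⟩ : NN),
    fun n => (⟨g⁻¹ * nn n * g, GG_conj' hg (nn_mem n)⟩ : NN))

lemma jj_mem {g : Perm V} (hg : g ∈ GG) : jj g hg ∈ KK := by
  refine ⟨?_, ?_, ?_, ?_, ?_⟩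
  · rintro v w rfl; exact inv_ap g v
  · rintro v w rfl; exact ap_inv g v
  · rintro v _ rfl w _ rfl; exact ⟨hg.1.1 v w, hg.1.2 v w⟩
  · rintro n _ rfl v _ rfl w _ rfl h
    change (g * nn n * g⁻¹) (g (vv v)) = g (vv w)
    simp only [Perm.mul_apply]
    rw [inv_ap, h]
  · rintro n _ rfl v _ rfl w _ rfl h
    change (g⁻¹ * nn n * g) (g⁻¹ (vv v)) = g⁻¹ (vv w)
    simp only [Perm.mul_apply]
    rw [ap_inv, h]

lemma toP_jj {g : Perm V} (hg : g ∈ GG) : toP (jj g hg) (jj_mem hg) = g := by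
  ext1 v; rfl

lemma finite_TT_NA {S : Set V} (hS : S.Finite) {T : Set Nd} (hT : T.Finite) (A0 : Finset ℕ) :
    ∃ A : Finset ℕ, A0 ⊆ A ∧ S ⊆ TT A ∧ ∀ n ∈ T, nn n ∈ NA A := by
  obtain ⟨A1, hA1⟩ := exists_TT hS
  have h2 : ∃ A2 : Finset ℕ, ∀ A, A2 ⊆ A → ∀ n ∈ T, nn n ∈ NA A := by
    induction T, hT using Set.Finite.induction_on with
    | empty => exact ⟨∅, by simp⟩
    | @insert m T _ _ ih =>
      obtain ⟨A2, hA2⟩ := ih
      obtain ⟨A3, hA3⟩ := exists_NA (nn_mem m)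
      refine ⟨A2 ∪ A3, fun A hA n hn => ?_⟩
      rcases Set.mem_insert_iff.1 hn with rfl | hn
      · exact hA3 A (Finset.union_subset_right hA)
      · exact hA2 A (Finset.union_subset_left hA) n hn
  obtain ⟨A2, hA2⟩ := h2
  refine ⟨A0 ∪ A1 ∪ A2, fun x hx => by simp [hx], hA1.trans (TT_mono fun x hx => by simp [hx]), ?_⟩
  exact hA2 _ fun x hx => by simp [hx]

/-- Baire category argument -/
theorem exists_UU {M S : Subgroup (Perm V)}
    (hML : ∀ g ∈ GG, ∃ m ∈ M, ∃ l ∈ LL, g = m * l) (hSN : S ≤ NN)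
    (hMS : ∀ g, g ∈ M ↔ g ∈ GG ∧ ∀ v, v ∈ S ↔ g * v * g⁻¹ ∈ S) :
    ∃ A : Finset ℕ, 0 ∈ A ∧ UU A ⊆ M := by
  have hLN := LL_le_NN
  have hcount : Countable LL :=
    (Subgroup.inclusion_injective hLN).countable
  let F : LL → Set XX := fun l => {x | ∀ n n', x.2.2.1 n = n' →
    (nn n ∈ S ↔ l.1⁻¹ * nn n' * l.1 ∈ S)}
  have hF : ∀ l, IsClosed (F l) := fun l =>
    closed_forall fun n => closed_forall fun n' => closed_imp (cl3 _ _).2 (closed_const _)
  have hFM : ∀ (l : LL) (x : XX) (hx : x ∈ KK), x ∈ F l ↔ l.1⁻¹ * toP x hx ∈ M := by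
    intro l x hx
    have hlG : l.1⁻¹ ∈ GG := NN_le_GG (NN.inv_mem (hLN l.2))
    have hxG := toP_mem hx
    rw [hMS]
    constructor
    · intro h
      refine ⟨GG.mul_mem hlG hxG, fun v => ?_⟩
      by_cases hv : v ∈ NN
      · have h1 := h (⟨v, hv⟩ : NN) _ rfl
        have h2 : nn (⟨v, hv⟩ : NN) = v := rfl
        rw [← toP_conj hx, h2] at h1
        rw [h1]
        simp [mul_assoc]
      · constructor
        · intro h1; exact absurd (hSN h1) hv
        · intro h1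
          exfalso; apply hv
          have h3 := GG_conj' (GG.mul_mem hlG hxG) (hSN h1)
          simpa [mul_assoc] using h3
    · rintro ⟨-, h⟩ n n' rfl
      rw [h, ← toP_conj hx]
      simp [mul_assoc]
  have hcov : ∀ x ∈ KK, ∃ l, x ∈ F l := by
    intro x hx
    obtain ⟨m, hm, l, hl, h⟩ := hML (toP x hx)⁻¹ (GG.inv_mem (toP_mem hx))
    have h1 : toP x hx = l⁻¹ * m⁻¹ := by
      rw [← mul_inv_rev, ← h, inv_inv]
    refine ⟨⟨l⁻¹, LL.inv_mem hl⟩, ?_⟩
    rw [hFM _ x hx, h1]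
    simpa using M.inv_mem hm
  obtain ⟨l, x0, hx0, I1, I2, I3, I4, f1, f2, f3, f4, hcyl⟩ :=
    baire_cyl KK KK_closed ⟨_, jj_mem GG.one_mem⟩ F hF hcov
  set g0 := toP x0 hx0 with hg0
  have hg0G : g0 ∈ GG := toP_mem hx0
  obtain ⟨A, hA0, hA1, hA2⟩ := finite_TT_NA (S := (vv '' I1) ∪ (fun v => g0⁻¹ (vv v)) '' I2)
    (T := I3 ∪ x0.2.2.2 '' I4) ((f1.image _).union (f2.image _)) (f3.union (f4.image _)) {0}
  refine ⟨A, hA0 (by simp), fun u hu => ?_⟩
  obtain ⟨huG, hu1, hu2⟩ := hu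
  have hgu : g0 * u ∈ GG := GG.mul_mem hg0G huG
  have key := hcyl (jj (g0 * u) hgu) (jj_mem hgu) ?_ ?_ ?_ ?_
  · rw [hFM l _ (jj_mem hgu), toP_jj] at key
    have h0 : x0 ∈ F l := hcyl x0 hx0 (fun _ _ => rfl) (fun _ _ => rfl) (fun _ _ => rfl)
      (fun _ _ => rfl)
    rw [hFM l _ hx0] at h0
    have := M.mul_mem (M.inv_mem h0) key
    simpa [mul_assoc, ← hg0] using this
  · intro v hv
    change (g0 * u) v = g0 v
    rw [Perm.mul_apply, hu1 v (hA1 (Or.inl ⟨v, hv, rfl⟩))]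
  · intro v hv
    change (g0 * u)⁻¹ v = g0⁻¹ v
    rw [mul_inv_rev, Perm.mul_apply, Perm.inv_eq_iff_eq]
    exact (hu1 _ (hA1 (Or.inr ⟨v, hv, rfl⟩))).symm
  · intro n hn
    apply nn_inj
    change (g0 * u) * nn n * (g0 * u)⁻¹ = nn (x0.2.2.1 n)
    rw [← toP_conj hx0, ← hg0]
    have h1 := hu2 _ (hA2 n (Or.inl hn))
    have h2 : u * nn n * u⁻¹ = nn n := by rw [h1]; simp
    calc (g0 * u) * nn n * (g0 * u)⁻¹ = g0 * (u * nn n * u⁻¹) * g0⁻¹ := by group
      _ = _ := by rw [h2]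
  · intro n hn
    apply nn_inj
    change (g0 * u)⁻¹ * nn n * (g0 * u) = nn (x0.2.2.2 n)
    have h1 := hu2 _ (hA2 _ (Or.inr ⟨n, hn, rfl⟩))
    rw [← toP_conj' hx0, ← hg0] at h1
    rw [← toP_conj' hx0, ← hg0]
    have h2 : u⁻¹ * (g0⁻¹ * nn n * g0) * u = g0⁻¹ * nn n * g0 := by
      rw [mul_assoc, ← h1]; group
    calc (g0 * u)⁻¹ * nn n * (g0 * u) = u⁻¹ * (g0⁻¹ * nn n * g0) * u := by group
      _ = _ := h2

/-- the product of `M` and `LL` -/
def prodML (M : Subgroup (Perm V)) (hM : M ≤ GG) : Subgroup (Perm V) where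
  carrier := {g | ∃ m ∈ M, ∃ l ∈ LL, g = m * l}
  mul_mem' := by
    rintro _ _ ⟨m, hm, l, hl, rfl⟩ ⟨m', hm', l', hl', rfl⟩
    refine ⟨m * m', M.mul_mem hm hm', (m'⁻¹ * l * m'⁻¹⁻¹) * l',
      LL.mul_mem (LL_conj (GG.inv_mem (hM hm')) hl) hl', by group⟩
  one_mem' := ⟨1, M.one_mem, 1, LL.one_mem, by simp⟩
  inv_mem' := by
    rintro _ ⟨m, hm, l, hl, rfl⟩
    refine ⟨m⁻¹, M.inv_mem hm, m * l⁻¹ * m⁻¹, LL_conj (hM hm) (LL.inv_mem hl), by group⟩

/-- the normaliser of `S` in `GG` -/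
def nrm (S : Subgroup (Perm V)) : Subgroup (Perm V) where
  carrier := {g | g ∈ GG ∧ ∀ v, v ∈ S ↔ g * v * g⁻¹ ∈ S}
  mul_mem' := by
    rintro g h ⟨g1, g2⟩ ⟨h1, h2⟩
    refine ⟨GG.mul_mem g1 h1, fun n => ?_⟩
    rw [h2, g2]
    simp [mul_assoc]
  one_mem' := ⟨GG.one_mem, fun n => by simp⟩
  inv_mem' := by
    rintro g ⟨g1, g2⟩
    refine ⟨GG.inv_mem g1, fun n => ?_⟩
    rw [g2 (g⁻¹ * n * g⁻¹⁻¹)]
    simp [mul_assoc]

/-- **Main theorem**: every maximal subgroup of `GG` contains `LL`. -/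
theorem LL_le_maximal {M : Subgroup (Perm V)} (hM : M ≤ GG)
    (hmax : ∀ H : Subgroup (Perm V), M ≤ H → H ≤ GG → H = M ∨ H = GG) : LL ≤ M := by
  by_contra hLM
  have hLG : LL ≤ GG := LL_le_NN.trans NN_le_GG
  have h1a : prodML M hM ≤ GG := by
    rintro _ ⟨m, hm, l, hl, rfl⟩
    exact GG.mul_mem (hM hm) (hLG hl)
  have h1 : prodML M hM = GG := by
    rcases hmax (prodML M hM) (fun m hm => ⟨m, hm, 1, LL.one_mem, by simp⟩) h1a with h | h
    · exfalso
      apply hLM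
      intro l hl
      rw [← h]
      exact ⟨1, M.one_mem, l, hl, by simp⟩
    · exact h
  have hML : ∀ g ∈ GG, ∃ m ∈ M, ∃ l ∈ LL, g = m * l := by
    intro g hg
    rw [← h1] at hg
    exact hg
  have h2a : M ≤ nrm (M ⊓ NN) := by
    intro m hm
    refine ⟨hM hm, fun v => ⟨fun hv => ?_, fun hv => ?_⟩⟩
    · exact ⟨M.mul_mem (M.mul_mem hm hv.1) (M.inv_mem hm), GG_conj (hM hm) hv.2⟩
    · have h3 := M.mul_mem (M.mul_mem (M.inv_mem hm) hv.1) hm
      have h4 := GG_conj' (hM hm) hv.2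
      constructor
      · simpa [mul_assoc] using h3
      · simpa [mul_assoc] using h4
  have h2 : nrm (M ⊓ NN) = M := by
    rcases hmax (nrm (M ⊓ NN)) h2a (fun g hg => hg.1) with h | h
    · exact h
    · exfalso
      apply hLM
      obtain ⟨m, hm, hmN, hm1⟩ := exists_height_one hML
      have h3 : ∀ x, WM (M ⊓ NN) x := by
        apply normal_full
        · exact fun g hg => hg.2.1
        · intro g hg s hs
          have : g ∈ nrm (M ⊓ NN) := by rw [h]; exact NN_le_GG hg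
          exact (this.2 s).1 hs
        · exact ⟨m, ⟨hm, hmN⟩, hm1⟩
      exact (LL_le_of_full h3).trans inf_le_left
  obtain ⟨A, h0, hU⟩ := exists_UU (S := M ⊓ NN) hML inf_le_right
    (fun g => by rw [← h2]; rw [h2]; nth_rewrite 1 [← h2]; rfl)
  exact hLM (LL_le_of_UU hM hML h0 hU)

end Pool.Agent.H57
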