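import Pool.Agent.H57.T1

/-!
The tree of reduced words, rooted automorphisms from portraits, the translations `tr s`.
-/

namespace Pool.Agent.H57

/-- letters: a sign and a label -/
abbrev Om := Bool × ℕ

/-- the letter pointing back to the parent -/
def rv (w : Om) : Om := (!w.1, 0)

lemma rv_congr {a b : Om} (h : a.1 = b.1) : rv a = rv b := by simp [rv, h]

lemma rv_fst (a : Om) : (rv a).1 = !a.1 := rfl

lemma rv_snd (a : Om) : (rv a).2 = 0 := rfl

/-- reduced words; head = last letter -/
def Red (l : List Om) : Prop := l.IsChain (fun a b => a ≠ rv b)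

lemma red_nil : Red [] := by simp [Red]

lemma red_single (a : Om) : Red [a] := by simp [Red]

lemma red_append {l m : List Om} :
    Red (l ++ m) ↔ Red l ∧ Red m ∧ ∀ x ∈ l.getLast?, ∀ y ∈ m.head?, x ≠ rv y :=
  List.isChain_append

lemma red_cons {a : Om} {l : List Om} : Red (a :: l) ↔ (∀ b ∈ l.head?, a ≠ rv b) ∧ Red l := by
  have := @red_append [a] l
  simp only [List.singleton_append, List.getLast?_singleton, Option.mem_def, Option.some.injEq,
    forall_eq', red_single, true_and] at this
  rw [this]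
  constructor
  · rintro ⟨h1, h2⟩; exact ⟨fun b hb => h2 b hb, h1⟩
  · rintro ⟨h1, h2⟩; exact ⟨h2, fun b hb => h1 b hb⟩

lemma Red.tail' {a : Om} {l : List Om} (h : Red (a :: l)) : Red l := (red_cons.1 h).2

/-- the vertices of the tree -/
abbrev V := {l : List Om // Red l}

/-- the root -/
def nil : V := ⟨[], red_nil⟩

lemma nil_val : nil.1 = [] := rfl

lemma eq_nil {v : V} (h : v.1 = []) : v = nil := Subtype.ext h

lemma exists_cons {v : V} (h : v ≠ nil) : ∃ a, ∃ x : V, v.1 = a :: x.1 := by
  obtain ⟨l, hl⟩ := v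
  cases l with
  | nil => exact absurd rfl h
  | cons a l => exact ⟨a, ⟨l, hl.tail'⟩, rfl⟩

lemma ne_nil_of_cons {v x : V} {a : Om} (h : v.1 = a :: x.1) : v ≠ nil := by
  rintro rfl; simp [nil_val] at h

lemma vind {P : V → Prop} (h0 : P nil) (h1 : ∀ (a : Om) (x v : V), v.1 = a :: x.1 → P x → P v) :
    ∀ v, P v := by
  rintro ⟨l, hl⟩
  induction l with
  | nil => exact h0
  | cons a l ih => exact h1 a ⟨l, hl.tail'⟩ ⟨a :: l, hl⟩ rfl (ih hl.tail')

lemma cons_inj {v x y : V} {a b : Om} (h1 : v.1 = a :: x.1) (h2 : v.1 = b :: y.1) :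
    a = b ∧ x = y := by
  rw [h1] at h2
  injection h2 with h3 h4
  exact ⟨h3, Subtype.ext h4⟩

lemma cons_eq {v w x : V} {a : Om} (h1 : v.1 = a :: x.1) (h2 : w.1 = a :: x.1) : v = w :=
  Subtype.ext (h1.trans h2.symm)

/-- distance on the tree -/
noncomputable def d (v w : V) : ℕ := dd v.1 w.1

lemma d_comm (v w : V) : d v w = d w v := dd_comm _ _
lemma d_self (v : V) : d v v = 0 := dd_self _
lemma eq_of_d {v w : V} (h : d v w = 0) : v = w := Subtype.ext (eq_of_dd h)
lemma d_triangle (x y z : V) : d x z ≤ d x y + d y z := dd_triangle _ _ _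
lemma d_four (x y z w : V) : d x y + d z w ≤ max (d x z + d y w) (d x w + d y z) := dd_four _ _ _ _
lemma d_nil_left (w : V) : d nil w = w.1.length := dd_nil_left _
lemma d_nil_right (w : V) : d w nil = w.1.length := dd_nil_right _
lemma d_cons {v x : V} {a : Om} (h : v.1 = a :: x.1) : d v x = 1 := by
  unfold d; rw [h]; exact dd_cons_self _ _

lemma d_step {v x w : V} {a : Om} (h : v.1 = a :: x.1) (hl : w.1.length ≤ v.1.length)
    (hne : v ≠ w) : d x w + 1 = d v w := by
  unfold d; rw [h]
  apply dd_cons_step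
  · rw [h] at hl; simpa using hl
  · intro he; exact hne (Subtype.ext (h.trans he))

lemma d_eq_one {v w : V} (h : d v w = 1) : (∃ a, v.1 = a :: w.1) ∨ (∃ a, w.1 = a :: v.1) :=
  dd_eq_one h

/-- a map that is 1-Lipschitz on edges is 1-Lipschitz -/
lemma lip {f : V → V} (hf : ∀ (a : Om) (x v : V), v.1 = a :: x.1 → d (f v) (f x) ≤ 1) (v w : V) :
    d (f v) (f w) ≤ d v w := by
  obtain ⟨n, hn⟩ : ∃ n, n = v.1.length + w.1.length := ⟨_, rfl⟩
  induction n using Nat.strong_induction_on generalizing v w with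
  | _ n ih =>
    by_cases hvw : v = w
    · subst hvw; rw [d_self]; omega
    · rcases le_total w.1.length v.1.length with hl | hl
      · have hv : v ≠ nil := by
          rintro rfl
          apply hvw
          rw [nil_val] at hl
          exact (eq_nil (List.length_eq_zero_iff.1 (by simpa using hl))).symm
        obtain ⟨a, x, hx⟩ := exists_cons hv
        have h1 := d_step hx hl hvw
        have h2 := ih (x.1.length + w.1.length) (by rw [hn, hx]; simp) x w rfl
        have h3 := hf a x v hx
        have h4 := d_triangle (f v) (f x) (f w)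
        omega
      · have hw : w ≠ nil := by
          rintro rfl
          apply hvw
          rw [nil_val] at hl
          exact (eq_nil (List.length_eq_zero_iff.1 (by simpa using hl)))
        obtain ⟨a, x, hx⟩ := exists_cons hw
        have h1 := d_step hx hl (Ne.symm hvw)
        have h2 := ih (v.1.length + x.1.length) (by rw [hn, hx]; simp) v x rfl
        have h3 := hf a x w hx
        have h4 := d_triangle (f v) (f x) (f w)
        rw [d_comm v w, d_comm x v] at *
        rw [d_comm (f x) (f w)] at h4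
        omega

lemma iso_of_lip (g : Equiv.Perm V) (h1 : ∀ (a : Om) (x v : V), v.1 = a :: x.1 → d (g v) (g x) ≤ 1)
    (h2 : ∀ (a : Om) (x v : V), v.1 = a :: x.1 → d (g⁻¹ v) (g⁻¹ x) ≤ 1) (v w : V) :
    d (g v) (g w) = d v w := by
  apply le_antisymm (lip h1 v w)
  have := lip h2 (g v) (g w)
  simpa using this

/-- sign of a letter -/
def sg (a : Om) : ℤ := if a.1 then 1 else -1

/-- height of a vertex -/
def ht (v : V) : ℤ := (v.1.map sg).sum

lemma ht_nil : ht nil = 0 := rfl
lemma ht_cons {v x : V} {a : Om} (h : v.1 = a :: x.1) : ht v = sg a + ht x := by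
  unfold ht; rw [h]; simp

/-! ### portraits -/

/-- good portraits -/
def Port : Subgroup (V → Equiv.Perm Om) where
  carrier := {f | (∀ x a, (f x a).1 = a.1) ∧ ∀ (x : V) b, b ∈ x.1.head? → f x (rv b) = rv b}
  mul_mem' := by
    rintro f g ⟨f1, f2⟩ ⟨g1, g2⟩
    refine ⟨fun x a => ?_, fun x b hb => ?_⟩
    · simp [f1, g1]
    · simp [f2 x b hb, g2 x b hb]
  one_mem' := ⟨fun _ _ => rfl, fun _ _ _ => rfl⟩
  inv_mem' := by
    rintro f ⟨f1, f2⟩
    refine ⟨fun x a => ?_, fun x b hb => ?_⟩
    · have := f1 x ((f x)⁻¹ a)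
      simp at this
      simp [this]
    · simp only [Pi.inv_apply, Equiv.Perm.inv_eq_iff_eq]
      exact (f2 x b hb).symm

lemma port_sgn (f : Port) (x : V) (a : Om) : (f.1 x a).1 = a.1 := f.2.1 x a

lemma port_sgn_inv (f : Port) (x : V) (a : Om) : ((f.1 x)⁻¹ a).1 = a.1 := (f⁻¹).2.1 x a

open Classical in
/-- extension of a portrait to all lists -/
noncomputable def ex (f : V → Equiv.Perm Om) (l : List Om) : Equiv.Perm Om :=
  if h : Red l then f ⟨l, h⟩ else 1

lemma ex_val (f : V → Equiv.Perm Om) (x : V) : ex f x.1 = f x := by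
  unfold ex; rw [dif_pos x.2]

lemma ex_red (f : V → Equiv.Perm Om) {l : List Om} (h : Red l) : ex f l = f ⟨l, h⟩ := by
  unfold ex; rw [dif_pos h]

/-- the rooted map with portrait `F` -/
def rtL (F : List Om → Equiv.Perm Om) : List Om → List Om
  | [] => []
  | a :: l => F l a :: rtL F l

/-- its inverse -/
def ivL (F : List Om → Equiv.Perm Om) : List Om → List Om
  | [] => []
  | a :: l => (F (ivL F l))⁻¹ a :: ivL F l

lemma rtL_ivL (F : List Om → Equiv.Perm Om) (l : List Om) : rtL F (ivL F l) = l := by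
  induction l with
  | nil => rfl
  | cons a l ih => simp [rtL, ivL, ih]

lemma ivL_rtL (F : List Om → Equiv.Perm Om) (l : List Om) : ivL F (rtL F l) = l := by
  induction l with
  | nil => rfl
  | cons a l ih => simp [rtL, ivL, ih]

lemma red_rtL (f : Port) {l : List Om} (h : Red l) : Red (rtL (ex f.1) l) := by
  induction l with
  | nil => exact red_nil
  | cons a l ih =>
    rw [rtL, red_cons]
    refine ⟨?_, ih h.tail'⟩
    intro b hb hab
    cases l with
    | nil => simp [rtL] at hb
    | cons c l =>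
      simp only [rtL, List.head?_cons, Option.mem_def, Option.some.injEq] at hb
      have hs : b.1 = c.1 := by
        rw [← hb, ex_red _ h.tail'.tail']; exact f.2.1 _ _
      rw [rv_congr hs, ex_red _ h.tail'] at hab
      have h2 := f.2.2 ⟨c :: l, h.tail'⟩ c (by simp)
      have h3 : a = rv c := (f.1 ⟨c :: l, h.tail'⟩).injective (hab.trans h2.symm)
      exact (red_cons.1 h).1 c (by simp) h3

lemma red_ivL (f : Port) {l : List Om} (h : Red l) : Red (ivL (ex f.1) l) := by
  induction l with
  | nil => exact red_nil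
  | cons a l ih =>
    rw [ivL, red_cons]
    refine ⟨?_, ih h.tail'⟩
    intro b hb hab
    cases l with
    | nil => simp [ivL] at hb
    | cons c l =>
      have hr := ih h.tail'
      have hr2 : Red (ivL (ex f.1) l) := by
        rw [ivL] at hr; exact hr.tail'
      have hs : b.1 = c.1 := by
        simp only [ivL, List.head?_cons, Option.mem_def, Option.some.injEq] at hb
        rw [← hb, ex_red _ hr2]; exact port_sgn_inv f _ _
      rw [ex_red _ hr] at hab
      have h2 := f.2.2 ⟨_, hr⟩ b hb
      rw [Equiv.Perm.inv_eq_iff_eq, h2, rv_congr hs] at hab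
      exact (red_cons.1 h).1 c (by simp) hab

/-- the rooted automorphism with portrait `f` -/
noncomputable def rt (f : Port) : Equiv.Perm V where
  toFun v := ⟨rtL (ex f.1) v.1, red_rtL f v.2⟩
  invFun v := ⟨ivL (ex f.1) v.1, red_ivL f v.2⟩
  left_inv _ := Subtype.ext (ivL_rtL _ _)
  right_inv _ := Subtype.ext (rtL_ivL _ _)

lemma rt_nil (f : Port) : rt f nil = nil := rfl

lemma rt_inv_nil (f : Port) : (rt f)⁻¹ nil = nil := rfl

lemma rt_cons (f : Port) {v x : V} {a : Om} (h : v.1 = a :: x.1) :
    (rt f v).1 = f.1 x a :: (rt f x).1 := by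
  change rtL (ex f.1) v.1 = _
  rw [h, rtL, ex_val]; rfl

lemma rt_inv_cons (f : Port) {v x : V} {a : Om} (h : v.1 = a :: x.1) :
    ((rt f)⁻¹ v).1 = (f.1 ((rt f)⁻¹ x))⁻¹ a :: ((rt f)⁻¹ x).1 := by
  change ivL (ex f.1) v.1 = _
  rw [h, ivL]
  have : ivL (ex f.1) x.1 = ((rt f)⁻¹ x).1 := rfl
  rw [this, ex_val]

lemma rt_length (f : Port) (v : V) : (rt f v).1.length = v.1.length := by
  induction v using vind with
  | h0 => rfl
  | h1 a x v h ih => rw [rt_cons f h, h]; simp [ih]

lemma rt_ht (f : Port) (v : V) : ht (rt f v) = ht v := by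
  induction v using vind with
  | h0 => rfl
  | h1 a x v h ih =>
    rw [ht_cons (rt_cons f h), ht_cons h, ih]
    simp [sg, port_sgn]

lemma rt_one : rt 1 = 1 := by
  ext1 v
  induction v using vind with
  | h0 => rfl
  | h1 a x v h ih =>
    apply cons_eq (x := x) (a := a) _ h
    rw [rt_cons 1 h, ih]; rfl

/-- composition of rooted maps for insensitive portraits -/
lemma rt_mul (f g : Port) (h : ∀ x, f.1 (rt g x) = f.1 x) : rt f * rt g = rt (f * g) := by
  ext1 v
  induction v using vind with
  | h0 => rfl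
  | h1 a x v hv ih =>
    have h1 := rt_cons g hv
    have h2 := rt_cons f h1
    apply Subtype.ext
    rw [Equiv.Perm.mul_apply, h2, rt_cons (f * g) hv, h x, ← ih]
    rfl

lemma rt_inv (f : Port) (h : ∀ x, f.1 (rt f x) = f.1 x) : (rt f)⁻¹ = rt f⁻¹ := by
  symm
  rw [eq_inv_iff_mul_eq_one, rt_mul]
  · rw [inv_mul_cancel, rt_one]
  · intro x
    simp [h x]

lemma ap_inv (g : Equiv.Perm V) (v : V) : g (g⁻¹ v) = v := Equiv.apply_symm_apply g v

lemma inv_ap (g : Equiv.Perm V) (v : V) : g⁻¹ (g v) = v := Equiv.symm_apply_apply g v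

/-- the group of height-preserving isometries -/
def ISO : Subgroup (Equiv.Perm V) where
  carrier := {g | (∀ v w, d (g v) (g w) = d v w) ∧ ∀ v w, ht (g v) - ht v = ht (g w) - ht w}
  mul_mem' := by
    rintro g h ⟨g1, g2⟩ ⟨h1, h2⟩
    refine ⟨fun v w => by simp [g1, h1], fun v w => ?_⟩
    have := g2 (h v) (h w)
    have := h2 v w
    simp only [Equiv.Perm.mul_apply]
    omega
  one_mem' := ⟨fun _ _ => rfl, fun v w => by simp⟩
  inv_mem' := by
    rintro g ⟨g1, g2⟩
    refine ⟨fun v w => ?_, fun v w => ?_⟩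
    · rw [← g1 (g⁻¹ v) (g⁻¹ w)]; simp
    · have := g2 (g⁻¹ v) (g⁻¹ w)
      rw [ap_inv, ap_inv] at this
      omega

lemma rt_mem_ISO (f : Port) : rt f ∈ ISO := by
  refine ⟨?_, fun v w => by rw [rt_ht, rt_ht]; omega⟩
  apply iso_of_lip
  · intro a x v h
    rw [d_cons (rt_cons f h)]
  · intro a x v h
    rw [d_cons (rt_inv_cons f h)]

/-! ### translations -/

open Classical in
/-- left multiplication by the letter `(s,0)` -/
noncomputable def trL (s : Bool) (v : List Om) : List Om :=
  if v.getLast? = some (!s, 0) then v.dropLast else v ++ [(s, 0)]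

lemma red_trL (s : Bool) {v : List Om} (h : Red v) : Red (trL s v) := by
  unfold trL
  split_ifs with h1
  · have h2 : v = v.dropLast ++ [(!s, 0)] := by
      rw [List.getLast?_eq_some_iff] at h1
      obtain ⟨u, rfl⟩ := h1
      simp
    rw [h2] at h
    exact (red_append.1 h).1
  · rw [red_append]
    refine ⟨h, red_single _, ?_⟩
    intro x hx y hy
    simp only [List.head?_cons, Option.mem_def, Option.some.injEq] at hy
    subst hy
    rintro rfl
    exact h1 hx

lemma trL_trL (s : Bool) {v : List Om} (h : Red v) : trL (!s) (trL s v) = v := by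
  by_cases h1 : v.getLast? = some (!s, 0)
  · obtain ⟨u, rfl⟩ := List.getLast?_eq_some_iff.1 h1
    have e : trL s (u ++ [(!s, 0)]) = u := by
      unfold trL; rw [if_pos h1]; simp
    rw [e]
    unfold trL
    rw [if_neg]
    intro h2
    exact (red_append.1 h).2.2 _ h2 (!s, 0) (by simp) (by simp [rv])
  · have e : trL s v = v ++ [(s, 0)] := by unfold trL; rw [if_neg h1]
    rw [e]
    unfold trL
    rw [if_pos (by simp)]
    simp

/-- left multiplication by the letter `(s,0)` as a permutation of the vertices -/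
noncomputable def tr (s : Bool) : Equiv.Perm V where
  toFun v := ⟨trL s v.1, red_trL s v.2⟩
  invFun v := ⟨trL (!s) v.1, red_trL (!s) v.2⟩
  left_inv v := Subtype.ext (trL_trL s v.2)
  right_inv v := by
    apply Subtype.ext
    have := trL_trL (!s) v.2
    rw [Bool.not_not] at this
    exact this

lemma tr_inv (s : Bool) : (tr s)⁻¹ = tr (!s) := by
  ext1 v; rfl

lemma tr_val (s : Bool) (v : V) : (tr s v).1 = trL s v.1 := rfl

lemma tr_cons {s : Bool} {v x : V} {a : Om} (h : v.1 = a :: x.1) (hx : x ≠ nil) :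
    (tr s v).1 = a :: (tr s x).1 := by
  obtain ⟨b, y, hy⟩ := exists_cons hx
  rw [tr_val, tr_val, h, hy]
  unfold trL
  by_cases hc : (b :: y.1).getLast? = some (!s, 0)
  · rw [if_pos (by rw [List.getLast?_cons_cons]; exact hc), if_pos hc]
    simp
  · rw [if_neg (by rw [List.getLast?_cons_cons]; exact hc), if_neg hc]
    simp

lemma tr_nil (s : Bool) : (tr s nil).1 = [(s, 0)] := by
  rw [tr_val, nil_val]; simp [trL]

lemma tr_single {s : Bool} {v : V} {a : Om} (h : v.1 = [a]) (ha : a ≠ (!s, 0)) :
    (tr s v).1 = [a, (s, 0)] := by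
  rw [tr_val, h]; simp [trL, ha]

lemma tr_single' {s : Bool} {v : V} (h : v.1 = [(!s, 0)]) : tr s v = nil := by
  apply eq_nil
  rw [tr_val, h]; simp [trL]

lemma tr_adj (s : Bool) {a : Om} {x v : V} (h : v.1 = a :: x.1) : d (tr s v) (tr s x) = 1 := by
  by_cases hx : x = nil
  · subst hx
    rw [nil_val] at h
    by_cases ha : a = (!s, 0)
    · subst ha
      rw [tr_single' h, d_nil_left, tr_nil]; rfl
    · exact d_cons (a := a) (by rw [tr_single h ha, tr_nil])
  · exact d_cons (tr_cons h hx)

lemma tr_ht (s : Bool) (v : V) : ht (tr s v) = ht v + sg (s, 0) := by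
  induction v using vind with
  | h0 => rw [ht_nil, ht, tr_nil]; simp
  | h1 a x v h ih =>
    by_cases hx : x = nil
    · subst hx
      rw [nil_val] at h
      by_cases ha : a = (!s, 0)
      · subst ha
        rw [tr_single' h, ht_nil, ht, h]
        cases s <;> simp [sg]
      · rw [ht, ht, tr_single h ha, h]; simp
    · rw [ht_cons (tr_cons h hx), ht_cons h, ih]; ring

lemma tr_mem_ISO (s : Bool) : tr s ∈ ISO := by
  refine ⟨?_, fun v w => by rw [tr_ht, tr_ht]; omega⟩
  apply iso_of_lip
  · intro a x v h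
    exact (tr_adj s h).le
  · intro a x v h
    rw [tr_inv]
    exact (tr_adj _ h).le

end Pool.Agent.H57
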