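import Pool.Agent.H57.T2

/-!
The countable group `NN` of almost prefix-copying isometries.
-/

namespace Pool.Agent.H57

open Equiv

/-- the vertices at which `g` fails to copy the last letter -/
def bad (g : Perm V) : Set V := {v | ∃ a, ∃ x : V, v.1 = a :: x.1 ∧ (g v).1 ≠ a :: (g x).1}

lemma not_bad {g : Perm V} {v x : V} {a : Om} (h : v.1 = a :: x.1) (hb : v ∉ bad g) :
    (g v).1 = a :: (g x).1 := by
  by_contra hc
  exact hb ⟨a, x, h, hc⟩

lemma bad_mul (g h : Perm V) : bad (g * h) ⊆ bad h ∪ h ⁻¹' bad g := by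
  rintro v ⟨a, x, hv, hne⟩
  by_contra hc
  simp only [Set.mem_union, Set.mem_preimage, not_or] at hc
  exact hne (not_bad (g := g) (v := h v) (x := h x) (not_bad hv hc.1) hc.2)

lemma bad_one : bad 1 = ∅ := by
  ext v
  simp only [Set.mem_empty_iff_false, iff_false]
  rintro ⟨a, x, hv, hne⟩
  exact hne hv

lemma bad_inv (g : Perm V) : bad g⁻¹ ⊆ g '' bad g ∪ {g nil} := by
  rintro v ⟨a, x, hv, hne⟩
  by_contra hc
  simp only [Set.mem_union, Set.mem_singleton_iff, not_or] at hc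
  obtain ⟨h1, h2⟩ := hc
  have hy : g⁻¹ v ≠ nil := by
    intro h; apply h2; rw [← h, ap_inv]
  obtain ⟨b, z, hz⟩ := exists_cons hy
  have hb : g⁻¹ v ∉ bad g := fun h => h1 ⟨_, h, ap_inv _ _⟩
  have h3 := not_bad hz hb
  rw [ap_inv] at h3
  obtain ⟨rfl, h4⟩ := cons_inj hv h3
  apply hne
  rw [h4, inv_ap, hz]

/-- the countable group `N` -/
def NN : Subgroup (Perm V) where
  carrier := {g | g ∈ ISO ∧ (bad g).Finite}
  mul_mem' := by
    rintro g h ⟨g1, g2⟩ ⟨h1, h2⟩
    refine ⟨ISO.mul_mem g1 h1, Set.Finite.subset (h2.union ?_) (bad_mul g h)⟩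
    exact g2.preimage h.injective.injOn
  one_mem' := ⟨ISO.one_mem, by rw [bad_one]; exact Set.finite_empty⟩
  inv_mem' := by
    rintro g ⟨g1, g2⟩
    exact ⟨ISO.inv_mem g1, Set.Finite.subset ((g2.image g).union (Set.finite_singleton _))
      (bad_inv g)⟩

lemma NN_le_ISO : NN ≤ ISO := fun _ h => h.1

/-- finite graph determining an element of `NN` -/
noncomputable def gr (g : NN) : Finset (V × V) :=
  ((g.2.2.toFinset : Finset V).map ⟨fun v => (v, g.1 v), fun _ _ h => (Prod.ext_iff.1 h).1⟩) ∪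
    {(nil, g.1 nil)}

lemma mem_gr {g : NN} {v w : V} : (v, w) ∈ gr g ↔ (v ∈ bad g.1 ∨ v = nil) ∧ w = g.1 v := by
  classical
  unfold gr
  simp only [Finset.mem_union, Finset.mem_map, Set.Finite.mem_toFinset,
    Function.Embedding.coeFn_mk, Prod.mk.injEq, Finset.mem_singleton]
  constructor
  · rintro (⟨u, hu, rfl, rfl⟩ | ⟨rfl, rfl⟩)
    · exact ⟨Or.inl hu, rfl⟩
    · exact ⟨Or.inr rfl, rfl⟩
  · rintro ⟨h | rfl, rfl⟩
    · exact Or.inl ⟨v, h, rfl, rfl⟩
    · exact Or.inr ⟨rfl, rfl⟩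

lemma gr_inj : Function.Injective gr := by
  intro g h hgh
  apply Subtype.ext
  ext1 v
  induction v using vind with
  | h0 =>
    have : (nil, g.1 nil) ∈ gr g := mem_gr.2 ⟨Or.inr rfl, rfl⟩
    rw [hgh] at this
    exact (mem_gr.1 this).2
  | h1 a x v hv ih =>
    by_cases h1 : v ∈ bad g.1
    · have : (v, g.1 v) ∈ gr g := mem_gr.2 ⟨Or.inl h1, rfl⟩
      rw [hgh] at this
      exact (mem_gr.1 this).2
    · by_cases h2 : v ∈ bad h.1
      · have : (v, h.1 v) ∈ gr h := mem_gr.2 ⟨Or.inl h2, rfl⟩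
        rw [← hgh] at this
        exact (mem_gr.1 this).2.symm
      · exact cons_eq (not_bad hv h1) (by rw [ih]; exact not_bad hv h2)

instance : Countable NN := gr_inj.countable

lemma rt_mem_NN (f : Port) (h1 : {x | f.1 x ≠ 1}.Finite) (h2 : ∀ x, {a | f.1 x a ≠ a}.Finite) :
    rt f ∈ NN := by
  refine ⟨rt_mem_ISO f, ?_⟩
  have h3 : (⋃ x ∈ {x | f.1 x ≠ 1}, (Subtype.val : V → List Om) ⁻¹'
      ((fun a => a :: x.1) '' {a | f.1 x a ≠ a})).Finite := by
    apply h1.biUnion
    intro x _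
    exact ((h2 x).image _).preimage Subtype.val_injective.injOn
  apply h3.subset
  rintro v ⟨a, x, hv, hne⟩
  rw [rt_cons f hv] at hne
  have h4 : f.1 x a ≠ a := fun h => hne (by rw [h])
  have h5 : f.1 x ≠ 1 := fun h => h4 (by rw [h]; rfl)
  simp only [Set.mem_iUnion]
  exact ⟨x, h5, a, h4, hv.symm⟩

/-! ### portraits constant on a set -/

open Classical in
/-- portrait equal to `σ` on `X` and trivial elsewhere -/
noncomputable def pS (X : Set V) (σ : Perm Om) (h1 : ∀ a, (σ a).1 = a.1)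
    (h2 : ∀ x ∈ X, ∀ b ∈ x.1.head?, σ (rv b) = rv b) : Port :=
  ⟨fun x => if x ∈ X then σ else 1, by
    constructor
    · intro x a
      dsimp only
      split_ifs
      · exact h1 a
      · rfl
    · intro x b hb
      dsimp only
      split_ifs with h
      · exact h2 x h b hb
      · rfl⟩

lemma pS_pos {X : Set V} {σ : Perm Om} {h1 h2} {x : V} (h : x ∈ X) : (pS X σ h1 h2).1 x = σ := by
  classical
  simp [pS, h]

lemma pS_neg {X : Set V} {σ : Perm Om} {h1 h2} {x : V} (h : x ∉ X) : (pS X σ h1 h2).1 x = 1 := by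
  classical
  simp [pS, h]

lemma rt_pS_mem_NN {X : Set V} {σ : Perm Om} {h1 h2} (hX : X.Finite) (hσ : {a | σ a ≠ a}.Finite) :
    rt (pS X σ h1 h2) ∈ NN := by
  apply rt_mem_NN
  · apply hX.subset
    intro x hx
    by_contra hc
    exact hx (pS_neg hc)
  · intro x
    by_cases h : x ∈ X
    · rw [pS_pos h]; exact hσ
    · rw [pS_neg h]; simp

lemma swap_sgn {a b : Om} (h : a.1 = b.1) (c : Om) : (swap a b c).1 = c.1 := by
  rw [swap_apply_def]
  split_ifs with h1 h2
  · rw [h1, h]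
  · rw [h2, h]
  · rfl

lemma swap_fin (a b : Om) : {c | swap a b c ≠ c}.Finite := by
  apply Set.Finite.subset (Set.toFinite {a, b})
  intro c hc
  by_contra h
  simp only [Set.mem_insert_iff, Set.mem_singleton_iff, not_or] at h
  exact hc (swap_apply_of_ne_of_ne h.1 h.2)

/-- permuting the letters at the root -/
noncomputable def rr (σ : Perm Om) (h1 : ∀ a, (σ a).1 = a.1) : Perm V :=
  rt (pS {nil} σ h1 (by rintro x rfl b hb; simp [nil_val] at hb))

lemma rr_mem_NN {σ : Perm Om} {h1} (hσ : {a | σ a ≠ a}.Finite) : rr σ h1 ∈ NN :=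
  rt_pS_mem_NN (Set.finite_singleton _) hσ

lemma rr_nil {σ : Perm Om} {h1} : rr σ h1 nil = nil := rt_nil _

lemma rr_app {σ : Perm Om} {h1} {w : V} {q : List Om} {c : Om} (h : w.1 = q ++ [c]) :
    (rr σ h1 w).1 = q ++ [σ c] := by
  induction q generalizing w with
  | nil =>
    have h' : w.1 = c :: nil.1 := by simpa [nil_val] using h
    rw [rr, rt_cons _ h', rt_nil, pS_pos (Set.mem_singleton nil)]; rfl
  | cons a q ih =>
    have hr : Red (q ++ [c]) := by
      have := w.2; rw [h] at this; exact Red.tail' this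
    have h' : w.1 = a :: (⟨q ++ [c], hr⟩ : V).1 := by simpa using h
    have hne : (⟨q ++ [c], hr⟩ : V) ∉ ({nil} : Set V) := by
      intro he
      have he' : (⟨q ++ [c], hr⟩ : V) = nil := he
      have := congrArg Subtype.val he'
      simp [nil_val] at this
    rw [rr, rt_cons _ h', pS_neg hne]
    have := ih (w := ⟨q ++ [c], hr⟩) rfl
    rw [rr] at this
    rw [this]; rfl

/-- the set of words whose first (root side) letter is `a` -/
def B (a : Om) : Set V := {v | v.1.getLast? = some a}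

lemma mem_B {a : Om} {v : V} : v ∈ B a ↔ ∃ q, v.1 = q ++ [a] := by
  exact List.getLast?_eq_some_iff

lemma nil_notin_B (a : Om) : nil ∉ B a := by simp [B, nil_val]

lemma exists_B {v : V} (h : v ≠ nil) : ∃ a, v ∈ B a := by
  have : v.1 ≠ [] := fun h' => h (eq_nil h')
  exact ⟨v.1.getLast this, List.getLast?_eq_some_getLast this⟩

lemma B_unique {a b : Om} {v : V} (h1 : v ∈ B a) (h2 : v ∈ B b) : a = b := by
  have h1' : v.1.getLast? = some a := h1
  have h2' : v.1.getLast? = some b := h2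
  rw [h1'] at h2'
  exact Option.some_injective _ h2'

lemma rr_B {σ : Perm Om} {h1} {v : V} {a : Om} : rr σ h1 v ∈ B (σ a) ↔ v ∈ B a := by
  constructor
  · intro h
    have hne : v ≠ nil := by
      rintro rfl; rw [rr_nil] at h; exact nil_notin_B _ h
    obtain ⟨b, hb⟩ := exists_B hne
    obtain ⟨q, hq⟩ := mem_B.1 hb
    have h2 : rr σ h1 v ∈ B (σ b) := mem_B.2 ⟨q, rr_app hq⟩
    have h3 := σ.injective (B_unique h h2)
    rw [h3]; exact hb
  · intro h
    obtain ⟨q, hq⟩ := mem_B.1 h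
    exact mem_B.2 ⟨q, rr_app hq⟩

lemma bad_tr (s : Bool) : bad (tr s) ⊆ {v | v.1 = [(!s, 0)]} := by
  rintro v ⟨a, x, hv, hne⟩
  by_cases hx : x = nil
  · subst hx
    rw [nil_val] at hv
    by_cases ha : a = (!s, 0)
    · change v.1 = _
      rw [hv, ha]
    · exact absurd (by rw [tr_single hv ha, tr_nil]) hne
  · exact absurd (tr_cons hv hx) hne

lemma tr_mem_NN (s : Bool) : tr s ∈ NN := by
  refine ⟨tr_mem_ISO s, Set.Finite.subset ?_ (bad_tr s)⟩
  have : {v : V | v.1 = [(!s, 0)]} = Subtype.val ⁻¹' {[(!s, 0)]} := rfl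
  rw [this]
  exact (Set.finite_singleton _).preimage Subtype.val_injective.injOn

/-- left multiplication by a letter -/
noncomputable def lft (a : Om) : Perm V :=
  rr (swap (a.1, 0) a) (swap_sgn rfl) * tr a.1

lemma lft_app {q v : V} {a : Om} (h : v.1 = q.1 ++ [a]) : lft a q = v := by
  have hr := v.2
  rw [h] at hr
  have h1 : q.1.getLast? ≠ some (!a.1, 0) := by
    intro h1
    exact (red_append.1 hr).2.2 _ h1 a (by simp) rfl
  have h2 : (tr a.1 q).1 = q.1 ++ [(a.1, 0)] := by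
    rw [tr_val]; unfold trL; rw [if_neg h1]
  apply Subtype.ext
  rw [lft, Perm.mul_apply, rr_app h2, h, swap_apply_left]

lemma lft_mem_NN (a : Om) : lft a ∈ NN :=
  NN.mul_mem (rr_mem_NN (swap_fin _ _)) (tr_mem_NN _)

/-- an element of `NN` exchanging the half tree `B a` with the complement of `B b` -/
lemma exists_flip {a b : Om} (h : a.1 = !b.1) : ∃ g ∈ NN, ∀ v, v ∈ B a ↔ g v ∉ B b := by
  refine ⟨rr (swap (b.1, 0) b) (swap_sgn rfl) * tr b.1 * rr (swap (!b.1, 0) a) (swap_sgn h.symm),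
    NN.mul_mem (NN.mul_mem (rr_mem_NN (swap_fin _ _)) (tr_mem_NN _)) (rr_mem_NN (swap_fin _ _)), ?_⟩
  intro v
  rw [Perm.mul_apply, Perm.mul_apply]
  have e1 : ∀ w, rr (swap (b.1, 0) b) (swap_sgn rfl) w ∈ B b ↔ w ∈ B (b.1, 0) := by
    intro w
    have := @rr_B (swap (b.1, 0) b) (swap_sgn rfl) w (b.1, 0)
    rwa [swap_apply_left] at this
  have e2 : ∀ w, rr (swap (!b.1, 0) a) (swap_sgn h.symm) w ∈ B (!b.1, 0) ↔ w ∈ B a := by
    intro w
    have := @rr_B (swap (!b.1, 0) a) (swap_sgn h.symm) w a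
    rwa [swap_apply_right] at this
  rw [e1, ← e2]
  generalize rr (swap (!b.1, 0) a) (swap_sgn h.symm) v = w
  constructor
  · intro hw hc
    obtain ⟨q, hq⟩ := mem_B.1 hw
    have hr := w.2
    rw [hq] at hr
    have h3 : (tr b.1 w).1 = q := by
      rw [tr_val, hq]; simp [trL]
    have h4 : q.getLast? = some (b.1, 0) := by rw [← h3]; exact hc
    exact (red_append.1 hr).2.2 _ h4 (!b.1, 0) (by simp) (by simp [rv])
  · intro hw
    by_contra hc
    apply hw
    have h1 : w.1.getLast? ≠ some (!b.1, 0) := hc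
    apply mem_B.2
    exact ⟨w.1, by rw [tr_val]; unfold trL; rw [if_neg h1]⟩

end Pool.Agent.H57
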