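import Pool.Agent.H57.T3

/-!
Subtrees with bounded labels, the groups `NA A`, the big group `GG` and its subgroups `UU A`.
-/

namespace Pool.Agent.H57

open Equiv

/-- words with labels in `A` -/
def TT (A : Finset ℕ) : Set V := {v | ∀ a ∈ v.1, a.2 ∈ A}

lemma nil_mem_TT (A : Finset ℕ) : nil ∈ TT A := by intro a ha; simp [nil_val] at ha

lemma cons_mem_TT {A : Finset ℕ} {v x : V} {a : Om} (h : v.1 = a :: x.1) :
    v ∈ TT A ↔ a.2 ∈ A ∧ x ∈ TT A := by
  change (∀ b ∈ v.1, b.2 ∈ A) ↔ a.2 ∈ A ∧ (∀ b ∈ x.1, b.2 ∈ A)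
  rw [h]; simp

lemma TT_mono {A A' : Finset ℕ} (h : A ⊆ A') : TT A ⊆ TT A' := fun _ hv a ha => h (hv a ha)

lemma exists_TT {S : Set V} (hS : S.Finite) : ∃ A0 : Finset ℕ, S ⊆ TT A0 := by
  classical
  refine ⟨hS.toFinset.biUnion fun v => (v.1.map Prod.snd).toFinset, ?_⟩
  intro v hv a ha
  simp only [Finset.mem_biUnion, Set.Finite.mem_toFinset, List.mem_toFinset, List.mem_map]
  exact ⟨v, hv, a, ha, rfl⟩

/-- elements of `NN` only involving labels in `A` -/
def NA (A : Finset ℕ) : Subgroup (Perm V) where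
  carrier := {g | g ∈ NN ∧ (∀ x, g x ∈ TT A ↔ x ∈ TT A) ∧ bad g ⊆ TT A}
  mul_mem' := by
    rintro g h ⟨g1, g2, g3⟩ ⟨h1, h2, h3⟩
    refine ⟨NN.mul_mem g1 h1, fun x => ?_, ?_⟩
    · rw [Perm.mul_apply, g2, h2]
    · refine (bad_mul g h).trans (Set.union_subset h3 ?_)
      intro v hv
      exact (h2 v).1 (g3 hv)
  one_mem' := ⟨NN.one_mem, fun _ => Iff.rfl, by rw [bad_one]; exact Set.empty_subset _⟩
  inv_mem' := by
    rintro g ⟨g1, g2, g3⟩
    refine ⟨NN.inv_mem g1, fun x => ?_, ?_⟩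
    · rw [← g2, ap_inv]
    · refine (bad_inv g).trans (Set.union_subset ?_ ?_)
      · rintro _ ⟨v, hv, rfl⟩
        exact (g2 v).2 (g3 hv)
      · rintro _ rfl
        exact (g2 nil).2 (nil_mem_TT A)

lemma NA_le_NN (A : Finset ℕ) : NA A ≤ NN := fun _ h => h.1

lemma NA_TT {A : Finset ℕ} {g : Perm V} (hg : g ∈ NA A) {x : V} : g x ∈ TT A ↔ x ∈ TT A :=
  hg.2.1 x

lemma NA_cons {A : Finset ℕ} {g : Perm V} (hg : g ∈ NA A) {v x : V} {a : Om}
    (h : v.1 = a :: x.1) (hv : v ∉ TT A) : (g v).1 = a :: (g x).1 :=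
  not_bad h fun hb => hv (hg.2.2 hb)

lemma map_TT {g : Perm V} {A : Finset ℕ} (h1 : g nil ∈ TT A) (h2 : g '' bad g ⊆ TT A) {x : V}
    (hx : x ∈ TT A) : g x ∈ TT A := by
  induction x using vind with
  | h0 => exact h1
  | h1 a x v hv ih =>
    by_cases hb : v ∈ bad g
    · exact h2 ⟨v, hb, rfl⟩
    · rw [cons_mem_TT (not_bad hv hb)]
      rw [cons_mem_TT hv] at hx
      exact ⟨hx.1, ih hx.2⟩

lemma exists_NA {g : Perm V} (hg : g ∈ NN) : ∃ A0 : Finset ℕ, ∀ A, A0 ⊆ A → g ∈ NA A := by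
  have hi := (NN.inv_mem hg).2
  obtain ⟨A0, hA0⟩ := exists_TT (S := {g nil, g⁻¹ nil} ∪ bad g ∪ g '' bad g ∪ (g⁻¹ : Perm V) '' bad g⁻¹)
    ((((Set.toFinite {g nil, g⁻¹ nil}).union hg.2).union (hg.2.image g)).union (hi.image _))
  refine ⟨A0, fun A hA => ?_⟩
  have h := hA0.trans (TT_mono hA)
  refine ⟨hg, fun x => ⟨fun hx => ?_, fun hx => ?_⟩, fun v hv => h (by simp [hv])⟩
  · have := map_TT (g := g⁻¹) (A := A) (h (by simp)) (fun v hv => h (Or.inr hv)) hx
    rwa [inv_ap] at this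
  · exact map_TT (g := g) (A := A) (h (by simp)) (fun v hv => h (Or.inl (Or.inr hv))) hx

lemma bad_rt {f : Port} {v : V} (h : v ∈ bad (rt f)) :
    ∃ a, ∃ x : V, v.1 = a :: x.1 ∧ f.1 x a ≠ a := by
  obtain ⟨a, x, hv, hne⟩ := h
  refine ⟨a, x, hv, fun h' => hne ?_⟩
  rw [rt_cons f hv, h']

lemma tr_mem_NA {A : Finset ℕ} (h0 : 0 ∈ A) (s : Bool) : tr s ∈ NA A := by
  refine ⟨tr_mem_NN s, fun x => ?_, fun v hv => ?_⟩
  · change (∀ a ∈ (tr s x).1, a.2 ∈ A) ↔ (∀ a ∈ x.1, a.2 ∈ A)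
    rw [tr_val]
    by_cases h : x.1.getLast? = some (!s, 0)
    · obtain ⟨u, hu⟩ := List.getLast?_eq_some_iff.1 h
      unfold trL
      rw [if_pos h, hu]
      simp [or_imp, forall_and, h0]
    · unfold trL
      rw [if_neg h]
      simp [or_imp, forall_and, h0]
  · have h1 : v.1 = [(!s, 0)] := bad_tr s hv
    intro a ha
    rw [h1] at ha
    simp only [List.mem_singleton] at ha
    rw [ha]; exact h0

lemma rr_swap_mem_NA {A : Finset ℕ} {a b : Om} (h : a.1 = b.1) (ha : a.2 ∈ A) (hb : b.2 ∈ A) :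
    rr (swap a b) (swap_sgn h) ∈ NA A := by
  have key : ∀ c : Om, (swap a b c).2 ∈ A ↔ c.2 ∈ A := by
    intro c
    rw [swap_apply_def]
    split_ifs with h1 h2
    · simp [h1, ha, hb]
    · simp [h2, ha, hb]
    · rfl
  refine ⟨rr_mem_NN (swap_fin _ _), fun x => ?_, fun v hv => ?_⟩
  · by_cases hx : x = nil
    · subst hx; rw [rr_nil]
    · obtain ⟨c, hc⟩ := exists_B hx
      obtain ⟨q, hq⟩ := mem_B.1 hc
      change (∀ a ∈ (rr _ _ x).1, a.2 ∈ A) ↔ (∀ a ∈ x.1, a.2 ∈ A)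
      rw [rr_app hq, hq]
      simp only [List.mem_append, List.mem_singleton]
      constructor
      · rintro h1 e (he | rfl)
        · exact h1 e (Or.inl he)
        · exact (key e).1 (h1 _ (Or.inr rfl))
      · rintro h1 e (he | rfl)
        · exact h1 e (Or.inl he)
        · exact (key c).2 (h1 _ (Or.inr rfl))
  · obtain ⟨c, x, hv, hne⟩ := bad_rt hv
    by_cases hx : x ∈ ({nil} : Set V)
    · rw [pS_pos hx] at hne
      have hx' : x = nil := hx
      rw [cons_mem_TT hv, hx']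
      refine ⟨?_, nil_mem_TT A⟩
      by_contra hc
      apply hne
      apply swap_apply_of_ne_of_ne
      · rintro rfl; exact hc ha
      · rintro rfl; exact hc hb
    · rw [pS_neg hx] at hne
      exact absurd rfl hne

lemma lft_mem_NA {A : Finset ℕ} (h0 : 0 ∈ A) {a : Om} (ha : a.2 ∈ A) : lft a ∈ NA A :=
  (NA A).mul_mem (rr_swap_mem_NA (a := (a.1, 0)) (b := a) rfl h0 ha) (tr_mem_NA h0 _)

/-- prefix multiplication -/
lemma exists_pre {A : Finset ℕ} (h0 : 0 ∈ A) {α : V} (hα : α ∈ TT A) :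
    ∃ g ∈ NA A, ∀ q v : V, v.1 = q.1 ++ α.1 → g q = v := by
  induction α using vind with
  | h0 =>
    refine ⟨1, (NA A).one_mem, fun q v h => ?_⟩
    apply Subtype.ext
    rw [h, nil_val]; simp
  | h1 a x v hv ih =>
    rw [cons_mem_TT hv] at hα
    obtain ⟨g, hg, hg2⟩ := ih hα.2
    refine ⟨g * lft a, (NA A).mul_mem hg (lft_mem_NA h0 hα.1), fun q w h => ?_⟩
    have hw : w.1 = (q.1 ++ [a]) ++ x.1 := by rw [h, hv]; simp
    have hr : Red (q.1 ++ [a]) := by
      have := w.2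
      rw [hw] at this
      exact (red_append.1 this).1
    rw [Perm.mul_apply, lft_app (v := ⟨q.1 ++ [a], hr⟩) rfl]
    exact hg2 _ _ hw

lemma exists_to (v : V) : ∃ g ∈ NN, g nil = v := by
  obtain ⟨A0, hA0⟩ := exists_TT (Set.finite_singleton v)
  have h : v ∈ TT (insert 0 A0) := TT_mono (Finset.subset_insert _ _) (hA0 rfl)
  obtain ⟨g, hg, hg2⟩ := exists_pre (Finset.mem_insert_self 0 A0) h
  exact ⟨g, NA_le_NN _ hg, hg2 nil v (by rw [nil_val]; simp)⟩

/-! ### the big group -/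

/-- height preserving isometries normalising `NN` -/
def GG : Subgroup (Perm V) where
  carrier := {g | g ∈ ISO ∧ ∀ n, n ∈ NN ↔ g * n * g⁻¹ ∈ NN}
  mul_mem' := by
    rintro g h ⟨g1, g2⟩ ⟨h1, h2⟩
    refine ⟨ISO.mul_mem g1 h1, fun n => ?_⟩
    rw [h2, g2]
    simp [mul_assoc]
  one_mem' := ⟨ISO.one_mem, fun n => by simp⟩
  inv_mem' := by
    rintro g ⟨g1, g2⟩
    refine ⟨ISO.inv_mem g1, fun n => ?_⟩
    rw [g2 (g⁻¹ * n * g⁻¹⁻¹)]
    simp [mul_assoc]

lemma GG_conj {g n : Perm V} (hg : g ∈ GG) (hn : n ∈ NN) : g * n * g⁻¹ ∈ NN := (hg.2 n).1 hn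

lemma GG_conj' {g n : Perm V} (hg : g ∈ GG) (hn : n ∈ NN) : g⁻¹ * n * g ∈ NN := by
  have := GG_conj (GG.inv_mem hg) hn
  rwa [inv_inv] at this

lemma NN_le_GG : NN ≤ GG := by
  intro g hg
  refine ⟨hg.1, fun n => ⟨fun hn => NN.mul_mem (NN.mul_mem hg hn) (NN.inv_mem hg), fun hn => ?_⟩⟩
  have := NN.mul_mem (NN.mul_mem (NN.inv_mem hg) hn) hg
  simpa [mul_assoc] using this

lemma GG_le_ISO : GG ≤ ISO := fun _ h => h.1

/-- almost invariant portraits -/
def AI (f : V → Perm Om) : Prop := ∀ n ∈ NN, {x | f (n x) ≠ f x}.Finite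

lemma conj_mem {f : Port} (hf : AI f.1) (hfin : ∀ x, {a | f.1 x a ≠ a}.Finite) {n : Perm V}
    (hn : n ∈ NN) : rt f * n * (rt f)⁻¹ ∈ NN := by
  refine ⟨ISO.mul_mem (ISO.mul_mem (rt_mem_ISO f) hn.1) (ISO.inv_mem (rt_mem_ISO f)), ?_⟩
  have h3 : (rt f '' bad n ∪ ⋃ y ∈ {y | f.1 (n y) ≠ f.1 y}, (Subtype.val : V → List Om) ⁻¹'
      ((fun a => a :: (rt f y).1) '' {a | f.1 (n y) ((f.1 y)⁻¹ a) ≠ a})).Finite := by
    apply (hn.2.image _).union
    apply (hf n hn).biUnion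
    intro y _
    apply Set.Finite.preimage Subtype.val_injective.injOn
    apply Set.Finite.image
    apply ((hfin y).union (hfin (n y))).subset
    intro a ha
    by_cases h : f.1 y a = a
    · right
      have h' : (f.1 y)⁻¹ a = a := by rw [Perm.inv_eq_iff_eq, h]
      have ha' : f.1 (n y) ((f.1 y)⁻¹ a) ≠ a := ha
      rw [h'] at ha'
      exact ha'
    · exact Or.inl h
  apply h3.subset
  rintro v ⟨a, x, hv, hne⟩
  have h1 := rt_inv_cons f hv
  by_cases hb : (rt f)⁻¹ v ∈ bad n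
  · left; exact ⟨_, hb, ap_inv _ _⟩
  · right
    have h2 := not_bad h1 hb
    have h4 := rt_cons f h2
    have h5 : f.1 (n ((rt f)⁻¹ x)) ((f.1 ((rt f)⁻¹ x))⁻¹ a) ≠ a := by
      intro h5
      apply hne
      rw [h5] at h4
      exact h4
    have h6 : f.1 (n ((rt f)⁻¹ x)) ≠ f.1 ((rt f)⁻¹ x) := by
      intro h6
      apply h5
      rw [h6]; simp
    simp only [Set.mem_iUnion]
    refine ⟨(rt f)⁻¹ x, h6, a, h5, ?_⟩
    change a :: (rt f ((rt f)⁻¹ x)).1 = v.1
    rw [ap_inv, hv]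

lemma rt_mem_GG {f : Port} (hf : AI f.1) (hfin : ∀ x, {a | f.1 x a ≠ a}.Finite)
    (hz : ∀ x, f.1 (rt f x) = f.1 x) : rt f ∈ GG := by
  refine ⟨rt_mem_ISO f, fun n => ⟨fun hn => conj_mem hf hfin hn, fun hn => ?_⟩⟩
  have h1 : AI (f⁻¹).1 := by
    intro m hm
    apply (hf m hm).subset
    intro x hx h
    apply hx
    change (f.1 (m x))⁻¹ = (f.1 x)⁻¹
    rw [h]
  have h2 : ∀ x, {a | (f⁻¹).1 x a ≠ a}.Finite := by
    intro x
    apply (hfin x).subset
    intro a ha h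
    apply ha
    change (f.1 x)⁻¹ a = a
    rw [Perm.inv_eq_iff_eq, h]
  have h3 := conj_mem h1 h2 hn
  rw [← rt_inv f hz] at h3
  simpa [mul_assoc] using h3

/-- the group commuting with `NA A` and fixing `TT A` -/
def UU (A : Finset ℕ) : Set (Perm V) :=
  {u | u ∈ GG ∧ (∀ x ∈ TT A, u x = x) ∧ ∀ n ∈ NA A, u * n = n * u}

lemma rt_fix {f : Port} {A : Finset ℕ} (h1 : ∀ x ∈ TT A, ∀ a : Om, a.2 ∈ A → f.1 x a = a) {x : V}
    (hx : x ∈ TT A) : rt f x = x := by
  induction x using vind with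
  | h0 => rfl
  | h1 a x v hv ih =>
    rw [cons_mem_TT hv] at hx
    apply cons_eq (a := a) (x := x) _ hv
    rw [rt_cons f hv, h1 x hx.2 a hx.1, ih hx.2]

lemma rt_comm {f : Port} {A : Finset ℕ} (h1 : ∀ x ∈ TT A, ∀ a : Om, a.2 ∈ A → f.1 x a = a)
    {n : Perm V} (hn : n ∈ NA A) (h2 : ∀ x, f.1 (n x) = f.1 x) : rt f * n = n * rt f := by
  ext1 v
  induction v using vind with
  | h0 =>
    rw [Perm.mul_apply, Perm.mul_apply, rt_nil, rt_fix h1]
    exact (NA_TT hn).2 (nil_mem_TT A)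
  | h1 a x v hv ih =>
    rw [Perm.mul_apply, Perm.mul_apply] at *
    by_cases hT : v ∈ TT A
    · rw [rt_fix h1 hT, rt_fix h1 ((NA_TT hn).2 hT)]
    · have h3 := NA_cons hn hv hT
      have h4 := rt_cons f h3
      have h5 := rt_cons f hv
      have h6 : rt f v ∉ TT A := by
        intro h6
        have := rt_fix h1 h6
        have h7 := (rt f).injective this
        rw [h7] at h6
        exact hT h6
      have h8 := NA_cons hn h5 h6
      apply cons_eq h4
      rw [h8, h2, ih]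

/-- words ending with `W` -/
def XW (W : List Om) : Set V := {x | W <+: x.1}

lemma XW_fin (W : List Om) {n : Perm V} (hn : n ∈ NN) : {x | x ∈ XW W ∧ n x ∉ XW W}.Finite := by
  induction W with
  | nil =>
    convert Set.finite_empty
    ext x
    simp [XW]
  | cons c W ih =>
    have : (bad n ∪ (Subtype.val : V → List Om) ⁻¹'
        ((fun y : V => c :: y.1) '' {x | x ∈ XW W ∧ n x ∉ XW W})).Finite :=
      hn.2.union ((ih.image _).preimage Subtype.val_injective.injOn)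
    apply this.subset
    rintro x ⟨h1, h2⟩
    by_cases hb : x ∈ bad n
    · exact Or.inl hb
    · right
      have hx : x ≠ nil := by
        rintro rfl
        have : (c :: W) <+: nil.1 := h1
        simp [nil_val] at this
      obtain ⟨a, y, hy⟩ := exists_cons hx
      have h1' : (c :: W) <+: x.1 := h1
      rw [hy, List.cons_prefix_cons] at h1'
      obtain ⟨rfl, h1'⟩ := h1'
      refine ⟨y, ⟨h1', fun h3 => h2 ?_⟩, hy.symm⟩
      change (c :: W) <+: (n x).1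
      rw [not_bad hy hb, List.cons_prefix_cons]
      exact ⟨rfl, h3⟩

lemma pS_AI {X : Set V} {σ : Perm Om} {h1 h2} (hX : ∀ n ∈ NN, {x | x ∈ X ∧ n x ∉ X}.Finite) :
    AI (pS X σ h1 h2).1 := by
  intro n hn
  have h3 : ((n⁻¹ : Perm V) '' {x | x ∈ X ∧ n⁻¹ x ∉ X}).Finite := (hX _ (NN.inv_mem hn)).image _
  apply ((hX n hn).union h3).subset
  intro x hx
  by_cases h4 : x ∈ X
  · by_cases h5 : n x ∈ X
    · exfalso; apply hx; rw [pS_pos h4, pS_pos h5]
    · exact Or.inl ⟨h4, h5⟩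
  · by_cases h5 : n x ∈ X
    · right
      refine ⟨n x, ⟨h5, ?_⟩, inv_ap _ _⟩
      rw [inv_ap]; exact h4
    · exfalso; apply hx; rw [pS_neg h4, pS_neg h5]

lemma XW_TT {W : List Om} {A : Finset ℕ} {c : Om} (hc : W.getLast? = some c) (hA : c.2 ∉ A) {x : V}
    (hx : x ∈ TT A) : x ∉ XW W := by
  intro h
  have h' : W <+: x.1 := h
  exact hA (hx c (h'.subset (List.mem_of_getLast? hc)))

lemma XW_NA {W : List Om} {A : Finset ℕ} {c : Om} (hc : W.getLast? = some c) (hA : c.2 ∉ A)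
    {n : Perm V} (hn : n ∈ NA A) (x : V) : n x ∈ XW W ↔ x ∈ XW W := by
  induction x using vind generalizing W with
  | h0 =>
    have h1 := XW_TT hc hA (nil_mem_TT A)
    have h2 := XW_TT hc hA ((NA_TT hn).2 (nil_mem_TT A))
    exact ⟨fun h => absurd h h2, fun h => absurd h h1⟩
  | h1 a x v hv ih =>
    by_cases hT : v ∈ TT A
    · have h1 := XW_TT hc hA hT
      have h2 := XW_TT hc hA ((NA_TT hn).2 hT)
      exact ⟨fun h => absurd h h2, fun h => absurd h h1⟩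
    · have h3 := NA_cons hn hv hT
      cases W with
      | nil => simp at hc
      | cons b W =>
        change (b :: W) <+: (n v).1 ↔ (b :: W) <+: v.1
        rw [h3, hv, List.cons_prefix_cons, List.cons_prefix_cons]
        cases W with
        | nil => simp
        | cons e W =>
          rw [List.getLast?_cons_cons] at hc
          have := ih hc
          change (e :: W) <+: (n x).1 ↔ (e :: W) <+: x.1 at this
          rw [this]

end Pool.Agent.H57
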