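import Pool.Agent.H57.T4

/-!
Full vertices of a subgroup `M` of `GG`; a subgroup with an element of height one and one full
vertex has only full vertices.
-/

namespace Pool.Agent.H57

open Equiv

/-- commutator -/
def com {G : Type*} [Group G] (a b : G) : G := a * b * a⁻¹ * b⁻¹

/-! ### heights of isometries -/

lemma ht_app {g : Perm V} (hg : g ∈ ISO) (v : V) : ht (g v) = ht v + ht (g nil) := by
  have := hg.2 v nil
  rw [ht_nil] at this
  omega

lemma ht_mul {g h : Perm V} (hg : g ∈ ISO) : ht ((g * h) nil) = ht (g nil) + ht (h nil) := by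
  rw [Perm.mul_apply, ht_app hg (h nil)]; ring

lemma ht_inv {g : Perm V} (hg : g ∈ ISO) : ht (g⁻¹ nil) = - ht (g nil) := by
  have := ht_mul (h := g⁻¹) hg
  rw [mul_inv_cancel, Perm.one_apply, ht_nil] at this
  omega

/-! ### copying -/

lemma mem_TT_of_app {A : Finset ℕ} {v x : V} {q : List Om} {c : Om} (h : v.1 = q ++ c :: x.1)
    (hc : c.2 ∉ A) : v ∉ TT A := by
  intro hv
  exact hc (hv c (by rw [h]; simp))

lemma NA_app {A : Finset ℕ} {g : Perm V} (hg : g ∈ NA A) {v x : V} {q : List Om} {c : Om}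
    (h : v.1 = q ++ c :: x.1) (hc : c.2 ∉ A) : (g v).1 = q ++ c :: (g x).1 := by
  induction q generalizing v with
  | nil => exact NA_cons hg h (mem_TT_of_app h hc)
  | cons a q ih =>
    have hr : Red (q ++ c :: x.1) := by
      have := v.2; rw [h] at this; exact Red.tail' this
    have h' : v.1 = a :: (⟨q ++ c :: x.1, hr⟩ : V).1 := by simpa using h
    rw [NA_cons hg h' (mem_TT_of_app h hc), ih (v := ⟨q ++ c :: x.1, hr⟩) rfl]
    rfl

lemma NA_fix {A : Finset ℕ} {g : Perm V} (hg : g ∈ NA A) (h0 : g nil = nil) {v : V} {c : Om}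
    (hv : v ∈ B c) (hc : c.2 ∉ A) : g v = v := by
  obtain ⟨q, hq⟩ := mem_B.1 hv
  have h1 : v.1 = q ++ c :: nil.1 := by rw [hq, nil_val]
  apply Subtype.ext
  rw [NA_app hg h1 hc, h0, h1]

/-! ### rigid stabilisers -/

/-- elements of `NN` supported on `H` -/
def Rist (H : Set V) : Subgroup (Perm V) where
  carrier := {g | g ∈ NN ∧ ∀ v, v ∉ H → g v = v}
  mul_mem' := by
    rintro g h ⟨g1, g2⟩ ⟨h1, h2⟩
    exact ⟨NN.mul_mem g1 h1, fun v hv => by rw [Perm.mul_apply, h2 v hv, g2 v hv]⟩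
  one_mem' := ⟨NN.one_mem, fun _ _ => rfl⟩
  inv_mem' := by
    rintro g ⟨g1, g2⟩
    exact ⟨NN.inv_mem g1, fun v hv => by rw [Perm.inv_eq_iff_eq, g2 v hv]⟩

lemma Rist_mono {H H' : Set V} (h : H ⊆ H') : Rist H ≤ Rist H' :=
  fun _ hg => ⟨hg.1, fun v hv => hg.2 v fun h' => hv (h h')⟩

/-- commutators of elements supported on `H` are in `M` -/
def DH (M : Subgroup (Perm V)) (H : Set V) : Prop :=
  ∀ a ∈ Rist H, ∀ b ∈ Rist H, (com a b) ∈ M

/-- `x` is a full vertex of `M` -/
def WM (M : Subgroup (Perm V)) (x : V) : Prop :=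
  ∀ a ∈ NN, ∀ b ∈ NN, a x = x → b x = x → (com a b) ∈ M

lemma DH_mono {M : Subgroup (Perm V)} {H H' : Set V} (h : H ⊆ H') (h' : DH M H') : DH M H :=
  fun a ha b hb => h' a (Rist_mono h ha) b (Rist_mono h hb)

lemma WM_DH {M : Subgroup (Perm V)} {H : Set V} {x : V} (h : WM M x) (hx : x ∉ H) : DH M H :=
  fun a ha b hb => h a ha.1 b hb.1 (ha.2 x hx) (hb.2 x hx)

/-- conjugated subgroup: `m ∈ cj g M ↔ g m g⁻¹ ∈ M` -/
def cj (g : Perm V) (M : Subgroup (Perm V)) : Subgroup (Perm V) :=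
  M.comap (MulAut.conj g).toMonoidHom

lemma mem_cj {g m : Perm V} {M : Subgroup (Perm V)} : m ∈ cj g M ↔ g * m * g⁻¹ ∈ M := Iff.rfl

lemma conj_com (g a b : Perm V) : g * (com a b) * g⁻¹ = (com (g * a * g⁻¹) (g * b * g⁻¹)) := by
  simp only [com]
  group

lemma cj_le_GG {g : Perm V} {M : Subgroup (Perm V)} (hg : g ∈ GG) (hM : M ≤ GG) : cj g M ≤ GG := by
  intro m hm
  have := GG.mul_mem (GG.mul_mem (GG.inv_mem hg) (hM (mem_cj.1 hm))) hg
  simpa [mul_assoc] using this

lemma WM_cj {g : Perm V} {M : Subgroup (Perm V)} (hg : g ∈ GG) {x : V} :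
    WM (cj g M) x ↔ WM M (g x) := by
  constructor
  · intro h a ha b hb hax hbx
    have := h (g⁻¹ * a * g) (GG_conj' hg ha) (g⁻¹ * b * g) (GG_conj' hg hb)
      (by simp only [Perm.mul_apply]; rw [hax, inv_ap])
      (by simp only [Perm.mul_apply]; rw [hbx, inv_ap])
    rw [mem_cj, conj_com] at this
    simpa [mul_assoc] using this
  · intro h a ha b hb hax hbx
    rw [mem_cj, conj_com]
    exact h _ (GG_conj hg ha) _ (GG_conj hg hb)
      (by simp only [Perm.mul_apply]; rw [inv_ap, hax])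
      (by simp only [Perm.mul_apply]; rw [inv_ap, hbx])

lemma DH_cj {g : Perm V} {M : Subgroup (Perm V)} (hg : g ∈ GG) {H : Set V} :
    DH (cj g M) H ↔ DH M (g '' H) := by
  constructor
  · intro h a ha b hb
    have key : ∀ a ∈ Rist (g '' H), g⁻¹ * a * g ∈ Rist H := by
      intro a ha
      refine ⟨GG_conj' hg ha.1, fun v hv => ?_⟩
      simp only [Perm.mul_apply]
      rw [ha.2, inv_ap]
      rintro ⟨w, hw, hwv⟩
      exact hv (g.injective hwv ▸ hw)
    have := h _ (key a ha) _ (key b hb)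
    rw [mem_cj, conj_com] at this
    simpa [mul_assoc] using this
  · intro h a ha b hb
    rw [mem_cj, conj_com]
    have key : ∀ a ∈ Rist H, g * a * g⁻¹ ∈ Rist (g '' H) := by
      intro a ha
      refine ⟨GG_conj hg ha.1, fun v hv => ?_⟩
      simp only [Perm.mul_apply]
      rw [ha.2, ap_inv]
      intro hw
      exact hv ⟨_, hw, ap_inv _ _⟩
    exact h _ (key a ha) _ (key b hb)

lemma cj_of_mem {m : Perm V} {M : Subgroup (Perm V)} (hm : m ∈ M) : cj m M = M := by
  ext x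
  rw [mem_cj]
  constructor
  · intro h
    have := M.mul_mem (M.mul_mem (M.inv_mem hm) h) hm
    simpa [mul_assoc] using this
  · intro h
    exact M.mul_mem (M.mul_mem hm h) (M.inv_mem hm)

lemma WM_inv {M : Subgroup (Perm V)} (hM : M ≤ GG) {m : Perm V} (hm : m ∈ M) {x : V}
    (h : WM M x) : WM M (m x) := by
  rw [← WM_cj (hM hm), cj_of_mem hm]; exact h

lemma DH_inv {M : Subgroup (Perm V)} (hM : M ≤ GG) {m : Perm V} (hm : m ∈ M) {H : Set V}
    (h : DH M H) : DH M (m '' H) := by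
  rw [← DH_cj (hM hm), cj_of_mem hm]; exact h

/-! ### three-cycles -/

/-- the three-cycle at the root built from `a`, `c`, `c'` -/
lemma exists_cycle {a c c' : Om} (h1 : a.1 = c.1) (h2 : a.1 = c'.1) (hc : c' ≠ a) (hc' : c' ≠ c) :
    ∃ p ∈ NN, ∃ q ∈ NN, p nil = nil ∧ q nil = nil ∧
      (∀ b, b ≠ a → b ≠ c → ∀ v ∈ B b, p v = v) ∧ (∀ b, b ≠ a → b ≠ c' → ∀ v ∈ B b, q v = v) ∧
      (∀ v w : V, ∀ l, v.1 = l ++ [a] → w.1 = l ++ [c] → com p q v = w) := by
  refine ⟨rr (swap a c) (swap_sgn h1), rr_mem_NN (swap_fin _ _), rr (swap a c') (swap_sgn h2),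
    rr_mem_NN (swap_fin _ _), rr_nil, rr_nil, ?_, ?_, ?_⟩
  · intro b hb1 hb2 v hv
    obtain ⟨l, hl⟩ := mem_B.1 hv
    apply Subtype.ext
    rw [rr_app hl, swap_apply_of_ne_of_ne hb1 hb2, hl]
  · intro b hb1 hb2 v hv
    obtain ⟨l, hl⟩ := mem_B.1 hv
    apply Subtype.ext
    rw [rr_app hl, swap_apply_of_ne_of_ne hb1 hb2, hl]
  · intro v w l hv hw
    set p := rr (swap a c) (swap_sgn h1) with hp
    set q := rr (swap a c') (swap_sgn h2) with hq
    -- `q⁻¹ v = l ++ [c']`
    have hr : Red (l ++ [c']) := by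
      have := v.2
      rw [hv] at this
      rw [red_append] at this ⊢
      refine ⟨this.1, red_single _, ?_⟩
      intro x hx y hy
      simp only [List.head?_cons, Option.mem_def, Option.some.injEq] at hy
      subst hy
      have := this.2.2 x hx a (by simp)
      rwa [rv_congr h2] at this
    have e1 : q ⟨l ++ [c'], hr⟩ = v := by
      apply Subtype.ext
      rw [hq, rr_app rfl, swap_apply_right, hv]
    have e1' : q⁻¹ v = ⟨l ++ [c'], hr⟩ := by rw [Perm.inv_eq_iff_eq, e1]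
    have e2 : p ⟨l ++ [c'], hr⟩ = ⟨l ++ [c'], hr⟩ := by
      apply Subtype.ext
      rw [hp, rr_app rfl, swap_apply_of_ne_of_ne hc hc']
    have e2' : p⁻¹ ⟨l ++ [c'], hr⟩ = ⟨l ++ [c'], hr⟩ := by rw [Perm.inv_eq_iff_eq, e2]
    have e3 : p v = w := by
      apply Subtype.ext
      rw [hp, rr_app hv, swap_apply_left, hw]
    rw [com]
    simp only [Perm.mul_apply]
    rw [e1', e2', e1, e3]

/-- fresh letters -/
lemma exists_fresh (A : Finset ℕ) : ∃ k, k ∉ A := Infinite.exists_notMem_finset A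

lemma full_nil_of {M : Subgroup (Perm V)} {a b : Om} (hab : a ≠ b) (ha : DH M (B a)ᶜ)
    (hb : DH M (B b)ᶜ) : WM M nil := by
  intro x hx y hy hx0 hy0
  obtain ⟨A1, hA1⟩ := exists_NA hx
  obtain ⟨A2, hA2⟩ := exists_NA hy
  obtain ⟨k, hk⟩ := exists_fresh (A1 ∪ A2 ∪ {a.2, b.2})
  obtain ⟨k', hk'⟩ := exists_fresh (insert k (A1 ∪ A2 ∪ {a.2, b.2}))
  have hkA : k ∉ A1 ∪ A2 := fun h => hk (Finset.mem_union_left _ h)
  have hka : k ≠ a.2 := fun h => hk (by simp [h])
  have hkb : k ≠ b.2 := fun h => hk (by simp [h])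
  have hka' : k' ≠ a.2 := fun h => hk' (by simp [h])
  have hkb' : k' ≠ b.2 := fun h => hk' (by simp [h])
  have hkk' : k' ≠ k := fun h => hk' (by simp [h])
  have hxA := hA1 (A1 ∪ A2) Finset.subset_union_left
  have hyA := hA2 (A1 ∪ A2) Finset.subset_union_right
  obtain ⟨p, hp, q, hq, hp0, hq0, hpf, hqf, hcyc⟩ := exists_cycle (a := a) (c := (a.1, k))
    (c' := (a.1, k')) rfl rfl (fun h => hka' (by rw [← h])) (fun h => hkk' (by
      have := congrArg Prod.snd h; exact this))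
  have hr : (com p q) ∈ M := by
    apply hb
    · refine ⟨hp, fun v hv => hpf b (Ne.symm hab) (fun h => hkb (by rw [h])) v ?_⟩
      simpa using hv
    · refine ⟨hq, fun v hv => hqf b (Ne.symm hab) (fun h => hkb' (by rw [h])) v ?_⟩
      simpa using hv
  set r := (com p q) with hrdef
  have hrN : r ∈ NN := NN.mul_mem (NN.mul_mem (NN.mul_mem hp hq) (NN.inv_mem hp)) (NN.inv_mem hq)
  have hrB : ∀ v ∈ B a, r v ∈ B (a.1, k) := by
    intro v hv
    obtain ⟨l, hl⟩ := mem_B.1 hv
    have hred : Red (l ++ [(a.1, k)]) := by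
      have := v.2
      rw [hl] at this
      rw [red_append] at this ⊢
      refine ⟨this.1, red_single _, ?_⟩
      intro x hx y hy
      simp only [List.head?_cons, Option.mem_def, Option.some.injEq] at hy
      subst hy
      exact this.2.2 x hx a (by simp)
    rw [hcyc v ⟨_, hred⟩ l hl rfl]
    exact mem_B.2 ⟨l, rfl⟩
  have key : ∀ x, x ∈ NA (A1 ∪ A2) → x nil = nil → r⁻¹ * x * r ∈ Rist (B a)ᶜ := by
    intro x hx hx0
    refine ⟨NN.mul_mem (NN.mul_mem (NN.inv_mem hrN) hx.1) hrN, fun v hv => ?_⟩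
    have hv' : v ∈ B a := by simpa using hv
    simp only [Perm.mul_apply]
    rw [NA_fix hx hx0 (hrB v hv') hkA, inv_ap]
  have h1 := ha _ (key x hxA hx0) _ (key y hyA hy0)
  have h2 := M.mul_mem (M.mul_mem hr h1) (M.inv_mem hr)
  rw [conj_com] at h2
  simpa [mul_assoc] using h2

lemma full_nil_convex {M : Subgroup (Perm V)} {a b : Om} (hab : a ≠ b) {x y : V} (hx : x ∈ B a)
    (hy : y ∈ B b) (hx' : WM M x) (hy' : WM M y) : WM M nil :=
  full_nil_of hab (WM_DH hx' (by simpa using hx)) (WM_DH hy' (by simpa using hy))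

/-! ### sign changes -/

lemma sign_change (l : List Om) :
    (∃ q a b x, l = q ++ a :: b :: x ∧ a.1 ≠ b.1) ∨ (∃ s, ∀ a ∈ l, a.1 = s) := by
  induction l with
  | nil => right; exact ⟨true, by simp⟩
  | cons c l ih =>
    rcases ih with ⟨q, a, b, x, h, hne⟩ | ⟨s, hs⟩
    · left; exact ⟨c :: q, a, b, x, by rw [h]; rfl, hne⟩
    · cases l with
      | nil => right; exact ⟨c.1, by simp⟩
      | cons e l =>
        by_cases h : c.1 = e.1
        · right
          refine ⟨s, fun a ha => ?_⟩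
          rcases List.mem_cons.1 ha with rfl | ha
          · rw [h]; exact hs e (by simp)
          · exact hs a ha
        · left; exact ⟨[], c, e, l, rfl, h⟩

lemma ht_of_const {v : V} {s : Bool} (h : ∀ a ∈ v.1, a.1 = s) :
    ht v = (if s then 1 else -1) * (v.1.length : ℤ) := by
  induction v using vind with
  | h0 => simp [ht_nil, nil_val]
  | h1 a x v hv ih =>
    have h1 : a.1 = s := h a (by rw [hv]; simp)
    rw [ht_cons hv, ih (fun b hb => h b (by rw [hv]; simp [hb])), hv]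
    simp only [sg, h1, List.length_cons, Nat.cast_add, Nat.cast_one]
    ring

/-- in a suffix relation from distances -/
lemma suffix_of_dist {v w : V} (h : w.1.length = v.1.length + d v w) : v.1 <:+ w.1 := by
  unfold d dd at h
  have h1 := cs_le_left v.1 w.1
  have h2 := cs_le_right v.1 w.1
  exact suffix_of_cs_eq (by omega)

lemma dist_of_suffix {v w : V} (h : v.1 <:+ w.1) : w.1.length = v.1.length + d v w := by
  unfold d dd
  have h1 := cs_eq_length_left h
  have h2 := h.length_le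
  omega

end Pool.Agent.H57
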