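import Pool.Agent.H57.T5

/-!
Folding: a subgroup `M ≤ GG` with an element of height one and one full vertex has only full
vertices.
-/

namespace Pool.Agent.H57

open Equiv

/-- prefix multiplication, without labels -/
lemma exists_pre' (α : V) : ∃ g ∈ NN, ∀ q v : V, v.1 = q.1 ++ α.1 → g q = v := by
  obtain ⟨A0, hA0⟩ := exists_TT (Set.finite_singleton α)
  have h : α ∈ TT (insert 0 A0) := TT_mono (Finset.subset_insert _ _) (hA0 rfl)
  obtain ⟨g, hg, hg2⟩ := exists_pre (Finset.mem_insert_self 0 A0) h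
  exact ⟨g, NA_le_NN _ hg, hg2⟩

lemma d_inv {g : Perm V} (hg : g ∈ ISO) (v w : V) : d (g⁻¹ v) w = d v (g w) := by
  rw [← hg.1 (g⁻¹ v) w, ap_inv]

lemma fold_step {M : Subgroup (Perm V)} (hM : M ≤ GG) (h0 : WM M nil) {m : Perm V} (hm : m ∈ M)
    {q : List Om} {a b : Om} {x : V} (hv : (m nil).1 = q ++ a :: b :: x.1) (hab : a.1 ≠ b.1) :
    ∃ m' ∈ M, ht (m' nil) = ht (m nil) ∧ (m' nil).1.length < (m nil).1.length := by
  have hvr := (m nil).2
  rw [hv] at hvr
  have hvr2 : Red (q ++ a :: b :: x.1) := hvr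
  have hpr : Red (b :: x.1) := by
    have := (red_append.1 hvr).2.1
    exact Red.tail' this
  have hwr : Red (q ++ [a]) := by
    have h1 : q ++ a :: b :: x.1 = (q ++ [a]) ++ b :: x.1 := by simp
    rw [h1] at hvr
    exact (red_append.1 hvr).1
  obtain ⟨g, hg, hpre⟩ := exists_pre' ⟨b :: x.1, hpr⟩
  have hgI : g ∈ ISO := hg.1
  have hgG : g ∈ GG := NN_le_GG hg
  have hgnil : g nil = ⟨b :: x.1, hpr⟩ := hpre _ _ (by rw [nil_val]; simp)
  have hgw : g ⟨q ++ [a], hwr⟩ = m nil := hpre _ _ (by rw [hv]; simp)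
  have hdx : d (g⁻¹ x) nil = 1 := by
    rw [d_inv hgI, hgnil, d_comm]; exact d_cons (a := b) rfl
  obtain ⟨c, hc⟩ : ∃ c, (g⁻¹ x).1 = [c] := by
    rcases d_eq_one hdx with ⟨c, hc⟩ | ⟨c, hc⟩
    · exact ⟨c, hc⟩
    · simp [nil_val] at hc
  have hsg : sg c = sg a := by
    have h1 := ht_app hgI (g⁻¹ x)
    rw [ap_inv, hgnil] at h1
    have h2 : ht (⟨b :: x.1, hpr⟩ : V) = sg b + ht x := ht_cons rfl
    have h3 : ht (g⁻¹ x) = sg c := by rw [ht, hc]; simp
    rw [h2, h3] at h1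
    have h4 : sg a = - sg b := by
      unfold sg
      cases h5 : a.1 <;> cases h6 : b.1 <;> simp [h5, h6] at hab ⊢
    omega
  have hca1 : a.1 = c.1 := by
    unfold sg at hsg
    cases h5 : a.1 <;> cases h6 : c.1 <;> simp_all
  have har : Red (a :: b :: x.1) := (red_append.1 hvr2).2.1
  have hcne : c ≠ a := by
    rintro rfl
    have e1 : g ⟨[c], red_single c⟩ = ⟨c :: b :: x.1, har⟩ := hpre _ _ rfl
    have e2 : g⁻¹ x = ⟨[c], red_single c⟩ := Subtype.ext hc
    rw [← e2, ap_inv] at e1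
    have := congrArg (fun v : V => v.1.length) e1
    simp only [List.length_cons] at this
    omega
  have hu1 : (g⁻¹ nil).1.length = x.1.length + 1 := by
    rw [← d_nil_right (g⁻¹ nil), d_inv hgI, hgnil, d_nil_left]; simp
  have hu2 : d (g⁻¹ x) (g⁻¹ nil) = x.1.length := by
    rw [d_inv hgI, ap_inv, d_nil_right]
  have hu3 : (g⁻¹ x).1 <:+ (g⁻¹ nil).1 := by
    apply suffix_of_dist
    rw [hu1, hu2, hc]; simp; omega
  rw [hc] at hu3
  have huB : g⁻¹ nil ∈ B c := by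
    obtain ⟨l, hl⟩ := hu3
    exact mem_B.2 ⟨l, hl.symm⟩
  have hW1 : WM (cj g M) (g⁻¹ nil) := by
    rw [WM_cj hgG, ap_inv]; exact h0
  have hW2 : WM (cj g M) ⟨q ++ [a], hwr⟩ := by
    rw [WM_cj hgG, hgw]; exact WM_inv hM hm h0
  have hW3 : WM (cj g M) nil := full_nil_convex (a := c) (b := a) hcne huB (mem_B.2 ⟨q, rfl⟩) hW1 hW2
  obtain ⟨k, hk⟩ := exists_fresh {a.2, c.2}
  have hka : k ≠ a.2 := fun h => hk (by simp [h])
  have hkc : k ≠ c.2 := fun h => hk (by simp [h])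
  obtain ⟨p', hp', q', hq', hp0, hq0, -, -, hcyc⟩ := exists_cycle (a := a) (c := c)
    (c' := (a.1, k)) hca1 rfl (fun h => hka (by rw [← h])) (fun h => hkc (by rw [← h]))
  have hr : com p' q' ∈ cj g M := hW3 _ hp' _ hq' hp0 hq0
  have hrnil : com p' q' nil = nil := by
    have e1 : p'⁻¹ nil = nil := by rw [Perm.inv_eq_iff_eq, hp0]
    have e2 : q'⁻¹ nil = nil := by rw [Perm.inv_eq_iff_eq, hq0]
    rw [com]; simp only [Perm.mul_apply]
    rw [e2, e1, hq0, hp0]
  have hrN : com p' q' ∈ NN :=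
    NN.mul_mem (NN.mul_mem (NN.mul_mem hp' hq') (NN.inv_mem hp')) (NN.inv_mem hq')
  have hw'r : Red (q ++ [c]) := by
    rw [red_append] at hwr ⊢
    refine ⟨hwr.1, red_single _, ?_⟩
    intro y hy z hz
    simp only [List.head?_cons, Option.mem_def, Option.some.injEq] at hz
    subst hz
    have := hwr.2.2 y hy a (by simp)
    rwa [rv_congr hca1] at this
  have hrw : com p' q' ⟨q ++ [a], hwr⟩ = ⟨q ++ [c], hw'r⟩ := hcyc _ _ q rfl rfl
  refine ⟨g * com p' q' * g⁻¹ * m, M.mul_mem hr hm, ?_, ?_⟩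
  · rw [ht_mul (ISO.mul_mem (ISO.mul_mem hgI hrN.1) (ISO.inv_mem hgI)),
      ht_mul (ISO.mul_mem hgI hrN.1), ht_mul hgI, hrnil, ht_inv hgI, ht_nil]
    ring
  · have e1 : (g * com p' q' * g⁻¹ * m) nil = g ⟨q ++ [c], hw'r⟩ := by
      simp only [Perm.mul_apply]
      rw [← hgw, inv_ap, hrw]
    rw [e1, ← d_nil_left (g _), ← d_inv hgI, hv]
    have h2 : 1 ≤ cs (g⁻¹ nil).1 (q ++ [c]) := by
      have := le_cs (s := [c]) hu3 (⟨q, rfl⟩ : [c] <:+ q ++ [c])
      simpa using this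
    have h3 : d (g⁻¹ nil) ⟨q ++ [c], hw'r⟩ =
      (g⁻¹ nil).1.length + (q ++ [c]).length - 2 * cs (g⁻¹ nil).1 (q ++ [c]) := rfl
    rw [h3, hu1]
    simp only [List.length_append, List.length_cons, List.length_nil]
    omega

lemma exists_nbr {M : Subgroup (Perm V)} (hM : M ≤ GG) (h0 : WM M nil) {s : Bool}
    (n : ℕ) : ∀ m ∈ M, ht (m nil) = sg (s, 0) → (m nil).1.length ≤ n →
      ∃ a : Om, a.1 = s ∧ ∃ v : V, v.1 = [a] ∧ WM M v := by
  induction n with
  | zero =>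
    intro m hm hh hl
    exfalso
    have : m nil = nil := eq_nil (List.length_eq_zero_iff.1 (by omega))
    rw [this, ht_nil] at hh
    cases s <;> simp [sg] at hh
  | succ n ih =>
    intro m hm hh hl
    rcases sign_change (m nil).1 with ⟨q, a, b, x, hx, hab⟩ | ⟨s', hs'⟩
    · have hr : Red x := by
        have := (m nil).2
        rw [hx] at this
        exact Red.tail' (Red.tail' (red_append.1 this).2.1)
      obtain ⟨m', hm', h1, h2⟩ := fold_step hM h0 hm (x := ⟨x, hr⟩) hx hab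
      exact ih m' hm' (by rw [h1, hh]) (by omega)
    · have h1 := ht_of_const hs'
      rw [hh] at h1
      have h2 : (m nil).1.length = 1 := by
        cases s <;> cases s' <;> simp [sg] at h1 <;> omega
      obtain ⟨a, ha⟩ := List.length_eq_one_iff.1 h2
      refine ⟨a, ?_, m nil, ha, WM_inv hM hm h0⟩
      have h3 : ht (m nil) = sg a := by rw [ht, ha]; simp
      rw [hh] at h3
      unfold sg at h3
      cases s <;> cases h5 : a.1 <;> simp_all

lemma full_letter {M : Subgroup (Perm V)} (hM : M ≤ GG) (h0 : WM M nil)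
    (h1 : ∃ m ∈ M, ht (m nil) = 1) {a : Om} {v : V} (hv : v.1 = [a]) : WM M v := by
  obtain ⟨m, hm, hm1⟩ := h1
  obtain ⟨b, hb, w, hw, hWw⟩ : ∃ b : Om, b.1 = a.1 ∧ ∃ v : V, v.1 = [b] ∧ WM M v := by
    cases h : a.1
    · have := ht_inv (GG_le_ISO (hM hm))
      exact exists_nbr hM h0 _ _ (M.inv_mem hm) (by rw [this, hm1]; simp [sg]) le_rfl
    · exact exists_nbr hM h0 _ _ hm (by rw [hm1]; simp [sg]) le_rfl
  by_cases hab : b = a
  · subst hab
    have : v = w := Subtype.ext (hv.trans hw.symm)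
    rw [this]; exact hWw
  · obtain ⟨k, hk⟩ := exists_fresh {a.2, b.2}
    have hka : k ≠ a.2 := fun h => hk (by simp [h])
    have hkb : k ≠ b.2 := fun h => hk (by simp [h])
    obtain ⟨p', hp', q', hq', hp0, hq0, -, -, hcyc⟩ := exists_cycle (a := b) (c := a)
      (c' := (b.1, k)) hb rfl (fun h => hkb (by rw [← h])) (fun h => hka (by rw [← h]))
    have hr : com p' q' ∈ M := h0 _ hp' _ hq' hp0 hq0
    have : com p' q' w = v := hcyc w v [] hw hv
    rw [← this]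
    exact WM_inv hM hr hWw

lemma ht_conj {g m : Perm V} (hg : g ∈ ISO) (hm : m ∈ ISO) :
    ht ((g⁻¹ * m * g) nil) = ht (m nil) := by
  rw [ht_mul (ISO.mul_mem (ISO.inv_mem hg) hm), ht_mul (ISO.inv_mem hg), ht_inv hg]
  ring

lemma cj_height {M : Subgroup (Perm V)} (hM : M ≤ GG) {g : Perm V} (hg : g ∈ ISO)
    (h1 : ∃ m ∈ M, ht (m nil) = 1) : ∃ m ∈ cj g M, ht (m nil) = 1 := by
  obtain ⟨m, hm, hm1⟩ := h1
  refine ⟨g⁻¹ * m * g, ?_, ?_⟩
  · rw [mem_cj]; simpa [mul_assoc] using hm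
  · rw [ht_conj hg (GG_le_ISO (hM hm)), hm1]

lemma all_full_nil {M : Subgroup (Perm V)} (hM : M ≤ GG) (h0 : WM M nil)
    (h1 : ∃ m ∈ M, ht (m nil) = 1) (v : V) : WM M v := by
  induction v using vind with
  | h0 => exact h0
  | h1 a x v hv ih =>
    obtain ⟨g, hg, hpre⟩ := exists_pre' x
    have hgG := NN_le_GG hg
    have h2 : g nil = x := hpre _ _ (by rw [nil_val]; simp)
    have h3 : WM (cj g M) nil := by rw [WM_cj hgG, h2]; exact ih
    have h4 := full_letter (cj_le_GG hgG hM) h3 (cj_height hM hg.1 h1)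
      (v := ⟨[a], red_single a⟩) rfl
    rw [WM_cj hgG, hpre _ v (by rw [hv]; rfl)] at h4
    exact h4

/-- one full vertex implies that all vertices are full -/
theorem all_full {M : Subgroup (Perm V)} (hM : M ≤ GG) {x : V} (h0 : WM M x)
    (h1 : ∃ m ∈ M, ht (m nil) = 1) (v : V) : WM M v := by
  obtain ⟨g, hg, hgx⟩ := exists_to x
  have hgG := NN_le_GG hg
  have h3 : WM (cj g M) nil := by rw [WM_cj hgG, hgx]; exact h0
  have h4 := all_full_nil (cj_le_GG hgG hM) h3 (cj_height hM hg.1 h1) (g⁻¹ v)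
  rw [WM_cj hgG, ap_inv] at h4
  exact h4

end Pool.Agent.H57
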