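import Pool.Agent.H57.T6

/-!
The group `LL`, and subgroups of `NN` normalised by `GG`.
-/

namespace Pool.Agent.H57

open Equiv

/-- the subgroup generated by the commutators of vertex stabilisers in `NN` -/
def LL : Subgroup (Perm V) :=
  Subgroup.closure {g | ∃ x : V, ∃ a ∈ NN, ∃ b ∈ NN, a x = x ∧ b x = x ∧ g = com a b}

lemma com_mem {G : Type*} [Group G] {S : Subgroup G} {a b : G} (ha : a ∈ S) (hb : b ∈ S) :
    com a b ∈ S :=
  S.mul_mem (S.mul_mem (S.mul_mem ha hb) (S.inv_mem ha)) (S.inv_mem hb)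

lemma LL_le_NN : LL ≤ NN := by
  rw [LL, Subgroup.closure_le]
  rintro g ⟨x, a, ha, b, hb, -, -, rfl⟩
  exact com_mem ha hb

lemma LL_conj {g l : Perm V} (hg : g ∈ GG) (hl : l ∈ LL) : g * l * g⁻¹ ∈ LL := by
  have h : LL ≤ cj g LL := by
    nth_rewrite 1 [LL]
    rw [Subgroup.closure_le]
    rintro l ⟨x, a, ha, b, hb, hax, hbx, rfl⟩
    change com a b ∈ cj g LL
    rw [mem_cj, conj_com]
    apply Subgroup.subset_closure
    refine ⟨g x, _, GG_conj hg ha, _, GG_conj hg hb, ?_, ?_, rfl⟩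
    · simp only [Perm.mul_apply]; rw [inv_ap, hax]
    · simp only [Perm.mul_apply]; rw [inv_ap, hbx]
  exact h hl

lemma LL_le_of_full {M : Subgroup (Perm V)} (h : ∀ x, WM M x) : LL ≤ M := by
  rw [LL, Subgroup.closure_le]
  rintro g ⟨x, a, ha, b, hb, hax, hbx, rfl⟩
  exact h x a ha b hb hax hbx

/-- isometries of height zero -/
def ISO0 : Subgroup (Perm V) where
  carrier := {g | g ∈ ISO ∧ ht (g nil) = 0}
  mul_mem' := by
    rintro a b ⟨ha, ha'⟩ ⟨hb, hb'⟩
    exact ⟨ISO.mul_mem ha hb, by rw [ht_mul ha, ha', hb']; rfl⟩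
  one_mem' := ⟨ISO.one_mem, ht_nil⟩
  inv_mem' := by
    rintro a ⟨ha, ha'⟩
    exact ⟨ISO.inv_mem ha, by rw [ht_inv ha, ha']; rfl⟩

lemma LL_ht {l : Perm V} (hl : l ∈ LL) : ht (l nil) = 0 := by
  have h : LL ≤ ISO0 := by
    rw [LL, Subgroup.closure_le]
    rintro g ⟨x, a, ha, b, hb, -, -, rfl⟩
    refine ⟨(com_mem ha hb).1, ?_⟩
    rw [com, ht_mul (ISO.mul_mem (ISO.mul_mem ha.1 hb.1) (ISO.inv_mem ha.1)),
      ht_mul (ISO.mul_mem ha.1 hb.1), ht_mul ha.1, ht_inv ha.1, ht_inv hb.1]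
    ring
  exact (h hl).2

/-! ### disjointness -/

lemma cs_zero {e : Om} {v w : V} (hv : v ∈ B e) (hw : w ∉ B e) : cs v.1 w.1 = 0 := by
  obtain ⟨s, h1, h2, h3⟩ := cs_spec v.1 w.1
  rw [← h3]
  by_contra hne
  have hs : s ≠ [] := fun h => hne (by rw [h]; rfl)
  apply hw
  obtain ⟨t, ht'⟩ := h1
  obtain ⟨u, hu⟩ := h2
  have hv' : v.1.getLast? = some e := hv
  change w.1.getLast? = some e
  rw [← hu, List.getLast?_append_of_ne_nil _ hs]
  rw [← ht', List.getLast?_append_of_ne_nil _ hs] at hv'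
  exact hv'

lemma d_of_cs_zero {v w : V} (h : cs v.1 w.1 = 0) : d v w = v.1.length + w.1.length := by
  unfold d dd; omega

lemma disj {g : Perm V} (hg : g ∈ ISO) {e : Om} (h0 : g nil ≠ nil) (h1 : g nil ∉ B e)
    (h2 : g⁻¹ nil ∉ B e) {v : V} (hv : v ∈ B e) : g v ∉ B e := by
  intro hgv
  have e1 := d_of_cs_zero (cs_zero hgv h1)
  rw [hg.1, d_nil_right] at e1
  have e2 := d_of_cs_zero (cs_zero hv h2)
  have e3 : d v (g⁻¹ nil) = (g v).1.length := by
    rw [d_comm, d_inv hg, d_nil_left]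
  rw [e3] at e2
  have e4 : (g nil).1.length = 0 := by omega
  exact h0 (eq_nil (List.length_eq_zero_iff.1 e4))

lemma big {g : Perm V} (hg : g ∈ ISO) {e : Om} (h1 : g nil ∈ B e) {v : V}
    (hv : ¬ (g⁻¹ nil).1 <:+ v.1) : g v ∈ B e := by
  by_contra hgv
  apply hv
  apply suffix_of_dist
  have e1 := d_of_cs_zero (cs_zero h1 hgv)
  rw [hg.1, d_nil_left] at e1
  have e2 : d (g⁻¹ nil) v = (g v).1.length := by rw [d_inv hg, d_nil_left]
  have e3 : (g⁻¹ nil).1.length = (g nil).1.length := by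
    rw [← d_nil_right (g⁻¹ nil), d_inv hg, d_nil_left]
  omega

/-! ### double commutators -/

lemma com_com {G : Type*} [Group G] {v a b : G} (h1 : Commute (v * a * v⁻¹) a)
    (h2 : Commute (v * a * v⁻¹) b) : com (com v a) b = com a⁻¹ b := by
  have h3 : com v a = v * a * v⁻¹ * a⁻¹ := rfl
  rw [h3]
  generalize v * a * v⁻¹ = c at *
  have h4 : Commute c (a⁻¹ * b * a) := (h1.inv_right.mul_right h2).mul_right h1
  calc com (c * a⁻¹) b = (c * (a⁻¹ * b * a)) * c⁻¹ * b⁻¹ := by simp only [com]; group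
    _ = com a⁻¹ b := by rw [h4.eq]; simp only [com]; group

lemma rist_commute {H : Set V} {v a b : Perm V} (hv : ∀ x ∈ H, v x ∉ H) (ha : a ∈ Rist H)
    (hb : b ∈ Rist H) : Commute (v * a * v⁻¹) b := by
  apply Perm.Disjoint.commute
  intro x
  by_cases hx : x ∈ H
  · left
    simp only [Perm.mul_apply]
    rw [ha.2, ap_inv]
    intro h
    have := hv _ h
    rw [ap_inv] at this
    exact this hx
  · right; exact hb.2 x hx

lemma DH_of_move {S : Subgroup (Perm V)} (hS : ∀ g ∈ NN, ∀ s ∈ S, g * s * g⁻¹ ∈ S) {H : Set V}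
    {v : Perm V} (hv : v ∈ S) (hvH : ∀ x ∈ H, v x ∉ H) : DH S H := by
  have key : ∀ a ∈ Rist H, ∀ b ∈ Rist H, com a⁻¹ b ∈ S := by
    intro a ha b hb
    rw [← com_com (rist_commute hvH ha ha) (rist_commute hvH ha hb)]
    have h1 : com v a ∈ S := by
      have := S.mul_mem hv (hS a ha.1 _ (S.inv_mem hv))
      have e : com v a = v * (a * v⁻¹ * a⁻¹) := by simp only [com]; group
      rw [e]; exact this
    have := S.mul_mem h1 (hS b hb.1 _ (S.inv_mem h1))
    have e : com (com v a) b = com v a * (b * (com v a)⁻¹ * b⁻¹) := by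
      rw [com]; group
    rw [e]; exact this
  intro a ha b hb
  have := key a⁻¹ ((Rist H).inv_mem ha) b hb
  rwa [inv_inv] at this

/-- a subgroup normalised by `NN` with an element of height one contains `LL` -/
lemma normal_full {S : Subgroup (Perm V)} (hSI : S ≤ ISO)
    (hS : ∀ g ∈ NN, ∀ s ∈ S, g * s * g⁻¹ ∈ S) (h1 : ∃ m ∈ S, ht (m nil) = 1) (x : V) :
    WM S x := by
  have key : WM S nil := by
    intro a ha b hb ha0 hb0
    obtain ⟨m, hm, hm1⟩ := h1
    obtain ⟨A1, hA1⟩ := exists_NA ha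
    obtain ⟨A2, hA2⟩ := exists_NA hb
    have haA := hA1 (A1 ∪ A2) Finset.subset_union_left
    have hbA := hA2 (A1 ∪ A2) Finset.subset_union_right
    obtain ⟨k, hk⟩ := exists_fresh (A1 ∪ A2)
    obtain ⟨A3, hA3⟩ := exists_TT (S := {m nil, m⁻¹ nil}) (Set.toFinite _)
    obtain ⟨k', hk'⟩ := exists_fresh A3
    have hfr : ∀ v ∈ TT A3, v ∉ B (false, k') := by
      intro v hv hvB
      obtain ⟨q, hq⟩ := mem_B.1 hvB
      exact hk' (hv (false, k') (by rw [hq]; simp))
    obtain ⟨g, hg, hflip⟩ := exists_flip (a := (false, k')) (b := (true, k)) rfl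
    have hmI := hSI hm
    have hm0 : m nil ≠ nil := by
      intro h; rw [h, ht_nil] at hm1; omega
    have hv := hS g hg m hm
    have hvH : ∀ x ∈ (B (true, k))ᶜ, (g * m * g⁻¹) x ∉ (B (true, k))ᶜ := by
      intro x hx
      have hx1 : g⁻¹ x ∈ B (false, k') := by
        rw [hflip, ap_inv]; exact hx
      have hx2 := disj hmI hm0 (hfr _ (hA3 (by simp))) (hfr _ (hA3 (by simp))) hx1
      simp only [Perm.mul_apply, Set.mem_compl_iff, not_not]
      by_contra h3
      exact hx2 ((hflip _).2 h3)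
    refine DH_of_move hS hv hvH a ⟨ha, ?_⟩ b ⟨hb, ?_⟩
    · intro x hx
      exact NA_fix haA ha0 (by simpa using hx) hk
    · intro x hx
      exact NA_fix hbA hb0 (by simpa using hx) hk
  obtain ⟨g, hg, hgx⟩ := exists_to x
  intro a ha b hb hax hbx
  have hgG := NN_le_GG hg
  have h2 := key (g⁻¹ * a * g) (GG_conj' hgG ha) (g⁻¹ * b * g) (GG_conj' hgG hb)
    (by simp only [Perm.mul_apply]; rw [hgx, hax, ← hgx, inv_ap])
    (by simp only [Perm.mul_apply]; rw [hgx, hbx, ← hgx, inv_ap])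
  have h3 := hS g hg _ h2
  rw [conj_com] at h3
  simpa [mul_assoc] using h3

end Pool.Agent.H57
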