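import Pool.Agent.H57.T7

/-!
Finding an element of `M ∩ NN` moving `TT A` off itself.
-/

namespace Pool.Agent.H57

open Equiv

/-! ### the shifting portrait -/

/-- exchange the labels below `K` with the labels between `K` and `2K` -/
def sh (K : ℕ) : Perm Om where
  toFun a := (a.1, if a.2 < K then a.2 + K else if a.2 < 2 * K then a.2 - K else a.2)
  invFun a := (a.1, if a.2 < K then a.2 + K else if a.2 < 2 * K then a.2 - K else a.2)
  left_inv a := by
    apply Prod.ext
    · rfl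
    · simp only
      split_ifs <;> omega
  right_inv a := by
    apply Prod.ext
    · rfl
    · simp only
      split_ifs <;> omega

lemma sh_fst (K : ℕ) (a : Om) : (sh K a).1 = a.1 := rfl

lemma sh_lt {K : ℕ} {a : Om} (h : a.2 < K) : sh K a = (a.1, a.2 + K) := by
  simp [sh, h]

lemma sh_fin (K : ℕ) : {a | sh K a ≠ a}.Finite := by
  apply Set.Finite.subset (s := Set.univ ×ˢ Set.Iio (2 * K))
    (Set.finite_univ.prod (Set.finite_Iio _))
  intro a ha
  simp only [Set.mem_prod, Set.mem_univ, Set.mem_Iio, true_and]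
  by_contra hc
  apply ha
  apply Prod.ext
  · rfl
  · simp only [sh, Equiv.coe_fn_mk]
    split_ifs <;> omega

/-- the portrait -/
def shf (K : ℕ) : List Om → Perm Om
  | [] => sh K
  | b :: _ => swap (!b.1, 0) (!b.1, K) * sh K

lemma shf_sgn (K : ℕ) (l : List Om) (a : Om) : (shf K l a).1 = a.1 := by
  cases l with
  | nil => rfl
  | cons b l =>
    rw [shf, Perm.mul_apply, swap_sgn (a := (!b.1, 0)) (b := (!b.1, K)) rfl]; rfl

lemma shf_fin (K : ℕ) (l : List Om) : {a | shf K l a ≠ a}.Finite := by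
  cases l with
  | nil => exact sh_fin K
  | cons b l =>
    apply ((sh_fin K).union (swap_fin (!b.1, 0) (!b.1, K))).subset
    intro a ha
    by_cases h : sh K a = a
    · right
      have ha' : (swap (!b.1, 0) (!b.1, K) * sh K) a ≠ a := ha
      rw [Perm.mul_apply, h] at ha'
      exact ha'
    · exact Or.inl h

/-- the shifting portrait -/
def shP {K : ℕ} (hK : 0 < K) : Port :=
  ⟨fun x => shf K x.1, by
    constructor
    · intro x a; exact shf_sgn K _ a
    · rintro ⟨l, hl⟩ b hb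
      cases l with
      | nil => simp at hb
      | cons c l =>
        simp only [List.head?_cons, Option.mem_def, Option.some.injEq] at hb
        subst hb
        have h1 : sh K (rv c) = (!c.1, K) := by
          rw [sh_lt hK]; simp [rv]
        change (swap (!c.1, 0) (!c.1, K) * sh K) (rv c) = rv c
        rw [Perm.mul_apply, h1, swap_apply_right]
        rfl⟩

lemma shP_val {K : ℕ} (hK : 0 < K) (x : V) : (shP hK).1 x = shf K x.1 := rfl

lemma shP_cons {K : ℕ} (hK : 0 < K) {v w x y : V} {a b : Om} (h1 : v.1 = a :: x.1)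
    (h2 : w.1 = b :: y.1) (hab : a.1 = b.1) : (shP hK).1 v = (shP hK).1 w := by
  rw [shP_val, shP_val, h1, h2, shf, shf, hab]

lemma shP_mem_GG {K : ℕ} (hK : 0 < K) : rt (shP hK) ∈ GG := by
  apply rt_mem_GG
  · intro n hn
    apply (hn.2.union (Set.finite_singleton nil)).subset
    intro x hx
    by_contra hc
    simp only [Set.mem_union, Set.mem_singleton_iff, not_or] at hc
    obtain ⟨a, y, hy⟩ := exists_cons hc.2
    exact hx (shP_cons hK (not_bad hy hc.1) hy rfl)
  · intro x; exact shf_fin K _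
  · intro x
    by_cases hx : x = nil
    · subst hx; rw [rt_nil]
    · obtain ⟨a, y, hy⟩ := exists_cons hx
      exact shP_cons hK (rt_cons _ hy) hy (port_sgn _ _ _)

lemma shP_big {K : ℕ} (hK : 0 < K) {A : Finset ℕ} (hA : ∀ k ∈ A, k < K) {v : V} (hv : v ∈ TT A) :
    ∀ a ∈ (rt (shP hK) v).1, K ≤ a.2 := by
  induction v using vind with
  | h0 => rw [rt_nil]; intro a ha; simp [nil_val] at ha
  | h1 a x v hv' ih =>
    rw [cons_mem_TT hv'] at hv
    have h1 := ih hv.2
    have haK := hA _ hv.1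
    have h2 : K ≤ ((shP hK).1 x a).2 := by
      rw [shP_val]
      have hred := v.2
      rw [hv'] at hred
      obtain ⟨l, hl⟩ := x
      cases l with
      | nil =>
        change K ≤ (sh K a).2
        rw [sh_lt haK]; simp
      | cons b l =>
        change K ≤ ((swap (!b.1, 0) (!b.1, K) * sh K) a).2
        rw [Perm.mul_apply, sh_lt haK, swap_apply_of_ne_of_ne]
        · simp
        · intro h
          have := congrArg Prod.snd h
          simp at this
          omega
        · intro h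
          apply (red_cons.1 hred).1 b (by simp)
          have h1 : a.1 = !b.1 := congrArg Prod.fst h
          have h2 : a.2 + K = K := congrArg Prod.snd h
          apply Prod.ext
          · exact h1
          · rw [rv_snd]; omega
    rw [rt_cons _ hv']
    intro c hc
    rcases List.mem_cons.1 hc with rfl | hc
    · exact h2
    · exact h1 c hc

/-! ### the `A`-part of a word -/

/-- `p` is the longest root-side part of `v` with labels in `A` -/
def PP (A : Finset ℕ) (p v : V) : Prop :=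
  p ∈ TT A ∧ (p = v ∨ ∃ q : List Om, ∃ c : Om, v.1 = q ++ c :: p.1 ∧ c.2 ∉ A)

lemma exists_PP (A : Finset ℕ) (v : V) : ∃ p, PP A p v := by
  induction v using vind with
  | h0 => exact ⟨nil, nil_mem_TT A, Or.inl rfl⟩
  | h1 a x v hv ih =>
    by_cases hT : v ∈ TT A
    · exact ⟨v, hT, Or.inl rfl⟩
    · obtain ⟨p, hp, h | ⟨q, c, h, hc⟩⟩ := ih
      · subst h
        refine ⟨p, hp, Or.inr ⟨[], a, hv, fun ha => hT ?_⟩⟩
        rw [cons_mem_TT hv]; exact ⟨ha, hp⟩
      · exact ⟨p, hp, Or.inr ⟨a :: q, c, by rw [hv, h]; rfl, hc⟩⟩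

lemma PP_suffix {A : Finset ℕ} {p v : V} (h : PP A p v) : p.1 <:+ v.1 := by
  rcases h.2 with h | ⟨q, c, h, -⟩
  · rw [h]
  · rw [h]; exact ⟨q ++ [c], by simp⟩

lemma PP_map {A : Finset ℕ} {p v g} (hg : g ∈ NA A) (h : PP A p v) : PP A (g p) (g v) := by
  refine ⟨(NA_TT hg).2 h.1, ?_⟩
  rcases h.2 with h | ⟨q, c, h, hc⟩
  · left; rw [h]
  · right; exact ⟨q, c, NA_app hg h hc, hc⟩

lemma suffix_fin (w : V) : {p : V | p.1 <:+ w.1}.Finite := by
  have : {p : V | p.1 <:+ w.1} ⊆ Subtype.val ⁻¹' {l | l ∈ w.1.tails} := by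
    intro p hp
    change p.1 ∈ w.1.tails
    rw [List.mem_tails]; exact hp
  exact ((List.finite_toSet _).preimage Subtype.val_injective.injOn).subset this

lemma PP_fin {n : Perm V} (hn : n ∈ NN) (A : Finset ℕ) :
    {p | ∃ u ∈ bad n ∪ {nil}, PP A p (n u)}.Finite := by
  have : (⋃ u ∈ bad n ∪ {nil}, {p : V | p.1 <:+ (n u).1}).Finite :=
    (hn.2.union (Set.finite_singleton nil)).biUnion fun u _ => suffix_fin _
  apply this.subset
  rintro p ⟨u, hu, hp⟩
  simp only [Set.mem_iUnion]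
  exact ⟨u, hu, PP_suffix hp⟩

lemma PP_big {n : Perm V} {A : Finset ℕ} {K : ℕ} (hA : ∀ k ∈ A, k < K) {v : V}
    (hv : ∀ a ∈ v.1, K ≤ a.2) {p : V} (hp : PP A p (n v)) :
    ∃ u ∈ bad n ∪ {nil}, PP A p (n u) := by
  induction v using vind with
  | h0 => exact ⟨nil, Or.inr rfl, hp⟩
  | h1 a x v hvx ih =>
    by_cases hb : v ∈ bad n
    · exact ⟨v, Or.inl hb, hp⟩
    · have h1 := not_bad hvx hb
      have haA : a.2 ∉ A := by
        intro h
        have := hA _ h
        have := hv a (by rw [hvx]; simp)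
        omega
      apply ih (fun b hb => hv b (by rw [hvx]; simp [hb]))
      refine ⟨hp.1, ?_⟩
      rcases hp.2 with h | ⟨q, c, h, hc⟩
      · exfalso
        have := hp.1
        rw [h, cons_mem_TT h1] at this
        exact haA this.1
      · rw [h1] at h
        cases q with
        | nil =>
          left
          simp only [List.nil_append, List.cons.injEq] at h
          exact (Subtype.ext h.2).symm
        | cons e q =>
          right
          simp only [List.cons_append, List.cons.injEq] at h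
          exact ⟨q, c, h.2, hc⟩

/-! ### step 4 -/

lemma ht_pow {g : Perm V} (hg : g ∈ ISO) (k : ℕ) : ht ((g ^ k) nil) = k * ht (g nil) := by
  induction k with
  | zero => simp [ht_nil]
  | succ k ih =>
    rw [pow_succ, ht_mul (ISO.pow_mem hg k), ih]
    push_cast; ring

lemma exists_height_one {M : Subgroup (Perm V)}
    (hML : ∀ g ∈ GG, ∃ m ∈ M, ∃ l ∈ LL, g = m * l) : ∃ m ∈ M, m ∈ NN ∧ ht (m nil) = 1 := by
  obtain ⟨m, hm, l, hl, h⟩ := hML (tr true) (NN_le_GG (tr_mem_NN true))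
  have hm' : m = tr true * l⁻¹ := by rw [h]; simp
  refine ⟨m, hm, ?_, ?_⟩
  · rw [hm']; exact NN.mul_mem (tr_mem_NN true) (NN.inv_mem (LL_le_NN hl))
  · rw [hm', ht_mul (tr_mem_ISO true), ht_inv (LL_le_NN hl).1, LL_ht hl, tr_ht, ht_nil]
    simp [sg]

lemma step4 {M : Subgroup (Perm V)} (hM : M ≤ GG)
    (hML : ∀ g ∈ GG, ∃ m ∈ M, ∃ l ∈ LL, g = m * l) (A : Finset ℕ) :
    ∃ h ∈ M, h ∈ NN ∧ ∀ x ∈ TT A, h x ∉ TT A := by
  obtain ⟨m1, hm1, hm1N, hm1h⟩ := exists_height_one hML
  obtain ⟨A0, hA0⟩ := exists_NA hm1N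
  have hA1 := hA0 A0 subset_rfl
  obtain ⟨K, hK⟩ : ∃ K, ∀ k ∈ A ∪ A0, k < K := by
    refine ⟨(A ∪ A0).sup id + 1, fun k hk => ?_⟩
    have : k ≤ (A ∪ A0).sup id := Finset.le_sup (f := id) hk
    omega
  have hK' : ∀ k ∈ A ∪ A0, k < K + 1 := fun k hk => (hK k hk).trans (Nat.lt_succ_self K)
  have hKpos : 0 < K + 1 := Nat.succ_pos K
  set z := rt (shP hKpos) with hz
  have hzG : z ∈ GG := shP_mem_GG hKpos
  obtain ⟨m, hm, l, hl, hml⟩ := hML z⁻¹ (GG.inv_mem hzG)
  have hmi : m⁻¹ = l * z := by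
    have : m = z⁻¹ * l⁻¹ := by rw [hml]; simp
    rw [this]; simp
  have hlN := LL_le_NN hl
  have hfin := PP_fin hlN A0
  obtain ⟨C, hC⟩ : ∃ C : ℕ, ∀ p ∈ {p | ∃ u ∈ bad l ∪ {nil}, PP A0 p (l u)}, |ht p| ≤ C := by
    obtain ⟨C, hC⟩ := (hfin.image fun p => (ht p).natAbs).bddAbove
    refine ⟨C, fun p hp => ?_⟩
    have := hC (Set.mem_image_of_mem _ hp)
    rw [← Int.natCast_natAbs]
    exact_mod_cast this
  refine ⟨m * m1 ^ (2 * C + 1) * m⁻¹, M.mul_mem (M.mul_mem hm (M.pow_mem hm1 _)) (M.inv_mem hm),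
    GG_conj (hM hm) (NN.pow_mem hm1N _), ?_⟩
  intro x hx hx'
  set h := m * m1 ^ (2 * C + 1) * m⁻¹ with hh
  have e1 : m⁻¹ x = l (z x) := by rw [hmi]; rfl
  have e2 : (m1 ^ (2 * C + 1)) (l (z x)) = l (z (h x)) := by
    have : m⁻¹ (h x) = l (z (h x)) := by rw [hmi]; rfl
    rw [← this, hh]
    simp only [Perm.mul_apply]
    rw [inv_ap, e1]
  have big1 := shP_big hKpos (A := A) (fun k hk => hK' k (Finset.mem_union_left _ hk)) hx
  have big2 := shP_big hKpos (A := A) (fun k hk => hK' k (Finset.mem_union_left _ hk)) hx'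
  obtain ⟨p, hp⟩ := exists_PP A0 (l (z x))
  have hp2 := PP_map ((NA A0).pow_mem hA1 (2 * C + 1)) hp
  rw [e2] at hp2
  have f1 := hC p (PP_big (fun k hk => hK' k (Finset.mem_union_right _ hk)) big1 hp)
  have f2 := hC _ (PP_big (fun k hk => hK' k (Finset.mem_union_right _ hk)) big2 hp2)
  rw [ht_app (ISO.pow_mem hm1N.1 _), ht_pow hm1N.1, hm1h] at f2
  rw [abs_le] at f1 f2
  push_cast at f2
  omega

lemma step5 {h : Perm V} (hhI : h ∈ ISO) {A : Finset ℕ} (h0 : 0 ∈ A)
    (hT : ∀ x ∈ TT A, h x ∉ TT A) :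
    ∃ g ∈ NA A, ∀ x ∈ TT A, ∃ c, (g⁻¹ * h * g) x ∈ B c ∧ c.2 ∉ A := by
  obtain ⟨α, hα⟩ := exists_PP A (h nil)
  have key : ∀ x ∈ TT A, PP A α (h x) := by
    intro x hx
    induction x using vind with
    | h0 => exact hα
    | h1 a y x hv ih =>
      have hy := ((cons_mem_TT hv).1 hx).2
      have h1 := ih hy
      have h2 : d (h x) (h y) = 1 := by rw [hhI.1]; exact d_cons hv
      rcases h1.2 with h3 | ⟨q, c, h3, hc⟩
      · exact absurd (h3 ▸ h1.1) (hT y hy)
      · rcases d_eq_one h2 with ⟨e, he⟩ | ⟨e, he⟩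
        · exact ⟨h1.1, Or.inr ⟨e :: q, c, by rw [he, h3]; rfl, hc⟩⟩
        · rw [h3] at he
          cases q with
          | nil =>
            simp only [List.nil_append, List.cons.injEq] at he
            have : α = h x := Subtype.ext he.2
            exact absurd (this ▸ h1.1) (hT x hx)
          | cons e' q =>
            simp only [List.cons_append, List.cons.injEq] at he
            exact ⟨h1.1, Or.inr ⟨q, c, he.2.symm, hc⟩⟩
  obtain ⟨g, hg, hpre⟩ := exists_pre h0 hα.1
  refine ⟨g, hg, fun x hx => ?_⟩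
  have hgx := (NA_TT hg).2 hx
  have h1 := key _ hgx
  rcases h1.2 with h3 | ⟨q, c, h3, hc⟩
  · exact absurd (h3 ▸ h1.1) (hT _ hgx)
  · refine ⟨c, ?_, hc⟩
    have hr : Red (q ++ [c]) := by
      have := (h (g x)).2
      have e : q ++ c :: α.1 = (q ++ [c]) ++ α.1 := by simp
      rw [h3, e] at this
      exact (red_append.1 this).1
    have h4 : g ⟨q ++ [c], hr⟩ = h (g x) := hpre _ _ (by rw [h3]; simp)
    simp only [Perm.mul_apply]
    rw [← h4, inv_ap]
    exact mem_B.2 ⟨q, rfl⟩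

end Pool.Agent.H57
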