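import Pool.Agent.H57.T8

/-!
Pattern automata.
-/

namespace Pool.Agent.H57

open Equiv

/-- the pattern condition -/
def PC (W : List Om) (σ : Perm Om) : Prop :=
  ∀ L c R, W = L ++ c :: R → R <+: W → σ c = c

section
variable {W : List Om} {σ : Perm Om} {h1 : ∀ a, (σ a).1 = a.1}
  {h2 : ∀ x ∈ XW W, ∀ b ∈ x.1.head?, σ (rv b) = rv b}

lemma pat_fwd (hC : PC W σ) {R L : List Om} (hR : W = L ++ R) {v x : V} (hv : v.1 = R ++ x.1) :
    (rt (pS (XW W) σ h1 h2) v).1 = R ++ (rt (pS (XW W) σ h1 h2) x).1 := by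
  induction R generalizing v L with
  | nil =>
    have : v = x := Subtype.ext (by simpa using hv)
    rw [this]; rfl
  | cons c R ih =>
    have hr : Red (R ++ x.1) := by
      have := v.2; rw [hv] at this; exact Red.tail' this
    have hv' : v.1 = c :: (⟨R ++ x.1, hr⟩ : V).1 := by simpa using hv
    rw [rt_cons _ hv', ih (L := L ++ [c]) (v := ⟨R ++ x.1, hr⟩) (by simp [hR]) rfl]
    by_cases hX : (⟨R ++ x.1, hr⟩ : V) ∈ XW W
    · rw [pS_pos hX]
      have hX' : W <+: R ++ x.1 := hX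
      have h3 : R <+: W := by
        apply List.prefix_of_prefix_length_le (List.prefix_append R x.1) hX'
        rw [hR]; simp; omega
      rw [hC L c R hR h3]; rfl
    · rw [pS_neg hX]; rfl

lemma pat_bwd (hC : PC W σ) {R L : List Om} (hR : W = L ++ R) {x : V}
    (hx : R <+: (rt (pS (XW W) σ h1 h2) x).1) : R <+: x.1 := by
  induction R generalizing x L with
  | nil => exact List.nil_prefix
  | cons c R ih =>
    have hxn : x ≠ nil := by
      rintro rfl
      rw [rt_nil, nil_val] at hx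
      simp at hx
    obtain ⟨a, y, hy⟩ := exists_cons hxn
    rw [rt_cons _ hy, List.cons_prefix_cons] at hx
    have h3 := ih (L := L ++ [c]) (by simp [hR]) hx.2
    rw [hy, List.cons_prefix_cons]
    refine ⟨?_, h3⟩
    by_cases hX : y ∈ XW W
    · have h4 := hx.1
      rw [pS_pos hX] at h4
      have hX' : W <+: y.1 := hX
      have h5 : R <+: W := by
        apply List.prefix_of_prefix_length_le h3 hX'
        rw [hR]; simp; omega
      have h6 := hC L c R hR h5
      exact σ.injective (h6.trans h4)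
    · have h4 := hx.1
      rw [pS_neg hX] at h4
      exact h4

lemma pat_inv (hC : PC W σ) (x : V) :
    rt (pS (XW W) σ h1 h2) x ∈ XW W ↔ x ∈ XW W := by
  constructor
  · intro h
    exact pat_bwd hC (L := []) (by simp) h
  · rintro ⟨t, ht'⟩
    have hr : Red t := by
      have := x.2; rw [← ht'] at this; exact (red_append.1 this).2.1
    have := pat_fwd (h1 := h1) (h2 := h2) hC (L := []) (R := W) (by simp) (v := x) (x := ⟨t, hr⟩)
      ht'.symm
    change W <+: _
    rw [this]
    exact List.prefix_append _ _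

lemma pat_short {v : V} (hv : v.1.length ≤ W.length) : rt (pS (XW W) σ h1 h2) v = v := by
  induction v using vind with
  | h0 => rfl
  | h1 a x v hvx ih =>
    have hl : x.1.length < W.length := by rw [hvx] at hv; simpa using hv
    apply cons_eq (a := a) (x := x) _ hvx
    rw [rt_cons _ hvx, pS_neg, ih hl.le]; · rfl
    intro hX
    have hX' : W <+: x.1 := hX
    have := hX'.length_le
    omega

lemma pat_mem_UU (hC : PC W σ) (hfin : {a | σ a ≠ a}.Finite) {A : Finset ℕ} {c : Om}
    (hc : W.getLast? = some c) (hA : c.2 ∉ A) : rt (pS (XW W) σ h1 h2) ∈ UU A := by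
  have e1 : ∀ x ∈ TT A, ∀ a : Om, a.2 ∈ A → (pS (XW W) σ h1 h2).1 x a = a := by
    intro x hx a _
    rw [pS_neg (XW_TT hc hA hx)]; rfl
  refine ⟨rt_mem_GG (pS_AI fun n hn => XW_fin W hn) ?_ ?_, ?_, ?_⟩
  · intro x
    by_cases h : x ∈ XW W
    · rw [pS_pos h]; exact hfin
    · rw [pS_neg h]; simp
  · intro x
    have := pat_inv (h1 := h1) (h2 := h2) hC x
    by_cases h : x ∈ XW W
    · rw [pS_pos h, pS_pos (this.2 h)]
    · rw [pS_neg h, pS_neg (fun h' => h (this.1 h'))]
  · intro x hx; exact rt_fix e1 hx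
  · intro n hn
    apply rt_comm e1 hn
    intro x
    have := XW_NA hc hA hn x
    by_cases h : x ∈ XW W
    · rw [pS_pos h, pS_pos (this.2 h)]
    · rw [pS_neg h, pS_neg (fun h' => h (this.1 h'))]

end

/-! ### relabelings -/

/-- relabeling by a permutation fixing the letters with label zero -/
noncomputable def rl (σ : Perm Om) (h1 : ∀ a, (σ a).1 = a.1) (h2 : ∀ a : Om, a.2 = 0 → σ a = a) :
    Perm V :=
  rt (pS Set.univ σ h1 (fun _ _ b _ => h2 (rv b) rfl))

lemma rl_val {σ : Perm Om} {h1 h2} (v : V) : (rl σ h1 h2 v).1 = v.1.map σ := by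
  induction v using vind with
  | h0 => rfl
  | h1 a x v hv ih =>
    rw [rl, rt_cons _ hv, hv, pS_pos (Set.mem_univ x)]
    rw [rl] at ih
    rw [ih]; rfl

lemma rl_mem_UU {σ : Perm Om} {h1 h2} (hfin : {a | σ a ≠ a}.Finite) {A : Finset ℕ}
    (hA : ∀ a : Om, a.2 ∈ A → σ a = a) : rl σ h1 h2 ∈ UU A := by
  have hc : ∀ x y : V, (pS Set.univ σ h1 (fun _ _ b _ => h2 (rv b) rfl)).1 x =
      (pS Set.univ σ h1 (fun _ _ b _ => h2 (rv b) rfl)).1 y := by
    intro x y
    rw [pS_pos (Set.mem_univ x), pS_pos (Set.mem_univ y)]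
  have e1 : ∀ x ∈ TT A, ∀ a : Om, a.2 ∈ A →
      (pS Set.univ σ h1 (fun _ _ b _ => h2 (rv b) rfl)).1 x a = a := by
    intro x _ a ha
    rw [pS_pos (Set.mem_univ x), hA a ha]
  refine ⟨rt_mem_GG ?_ ?_ ?_, ?_, ?_⟩
  · intro n _
    convert Set.finite_empty
    ext x
    simp [hc (n x) x]
  · intro x
    rw [pS_pos (Set.mem_univ x)]; exact hfin
  · intro x; exact hc _ _
  · intro x hx; exact rt_fix e1 hx
  · intro n hn
    exact rt_comm e1 hn fun x => hc _ _

/-- relabeling exchanging two letters -/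
lemma exists_rl {A : Finset ℕ} {a b : Om} (h0 : 0 ∈ A) (hab : a.1 = b.1) (ha : a.2 ∉ A)
    (hb : b.2 ∉ A) : ∃ u ∈ UU A, ∀ v, (u v).1 = v.1.map (swap a b) := by
  refine ⟨rl (swap a b) (swap_sgn hab) ?_, rl_mem_UU (swap_fin _ _) ?_, rl_val⟩
  · intro c hc
    apply swap_apply_of_ne_of_ne
    · rintro rfl; exact ha (hc ▸ h0)
    · rintro rfl; exact hb (hc ▸ h0)
  · intro c hc
    apply swap_apply_of_ne_of_ne
    · rintro rfl; exact ha hc
    · rintro rfl; exact hb hc

end Pool.Agent.H57
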