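import Mathlib

/-!
The geodesic realisation of a discrete 0-hyperbolic space with discrete geodesics.
-/

namespace Pool.Agent.H57

/-- a discrete tree metric -/
structure TreeMet (X : Type) where
  d : X → X → ℕ
  self : ∀ x, d x x = 0
  comm : ∀ x y, d x y = d y x
  tri : ∀ x y z, d x z ≤ d x y + d y z
  four : ∀ x y z w, d x y + d z w ≤ max (d x z + d y w) (d x w + d y z)
  geo : ∀ x y, ∀ j ≤ d x y, ∃ z, d x z = j ∧ d z y = d x y - j

namespace TreeMet

variable {X : Type} (T : TreeMet X)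

/-- real valued distance -/
def D (x y : X) : ℝ := (T.d x y : ℝ)

lemma D_self (x : X) : T.D x x = 0 := by simp [D, T.self]
lemma D_comm (x y : X) : T.D x y = T.D y x := by simp [D, T.comm x y]
lemma D_nonneg (x y : X) : 0 ≤ T.D x y := by simp [D]
lemma D_tri (x y z : X) : T.D x z ≤ T.D x y + T.D y z := by
  unfold D; exact_mod_cast T.tri x y z
lemma D_four (x y z w : X) :
    T.D x y + T.D z w ≤ max (T.D x z + T.D y w) (T.D x w + T.D y z) := by
  unfold D; exact_mod_cast T.four x y z w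

/-- points of segments as functions -/
noncomputable def ga (v w : X) (t : ℝ) (u : X) : ℝ := max (T.D u v - t) (T.D u w - (T.D v w - t))

/-- extremality -/
structure Ext (f : X → ℝ) : Prop where
  lo : ∀ x y, T.D x y ≤ f x + f y
  att : ∀ x, ∃ y, f x + f y = T.D x y

variable {T}

lemma ga_left {v w : X} {t : ℝ} (h0 : 0 ≤ t) : T.ga v w t v = t := by
  unfold ga
  rw [T.D_self]
  rw [max_eq_right]
  · ring
  · linarith

lemma ga_right {v w : X} {t : ℝ} (h1 : t ≤ T.D v w) : T.ga v w t w = T.D v w - t := by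
  unfold ga
  rw [T.D_self, T.D_comm w v]
  rw [max_eq_left]
  linarith

lemma ga_ext {v w : X} {t : ℝ} (h0 : 0 ≤ t) (h1 : t ≤ T.D v w) : T.Ext (T.ga v w t) := by
  constructor
  · intro x y
    have h := T.D_four x y v w
    have a1 : T.D x v - t ≤ T.ga v w t x := le_max_left _ _
    have a2 : T.D x w - (T.D v w - t) ≤ T.ga v w t x := le_max_right _ _
    have a3 : T.D y v - t ≤ T.ga v w t y := le_max_left _ _
    have a4 : T.D y w - (T.D v w - t) ≤ T.ga v w t y := le_max_right _ _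
    rcases le_max_iff.1 h with h | h <;> linarith
  · intro x
    rcases le_total (T.D x v - t) (T.D x w - (T.D v w - t)) with h | h
    · refine ⟨w, ?_⟩
      rw [ga_right h1]
      unfold ga
      rw [max_eq_right h]; ring
    · refine ⟨v, ?_⟩
      rw [ga_left h0]
      unfold ga
      rw [max_eq_left h]; ring

lemma Ext.nonneg {f : X → ℝ} (hf : T.Ext f) (x : X) : 0 ≤ f x := by
  have := hf.lo x x
  rw [T.D_self] at this; linarith

lemma Ext.le {f : X → ℝ} (hf : T.Ext f) (x y : X) : f x ≤ T.D x y + f y := by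
  obtain ⟨z, hz⟩ := hf.att x
  have h1 := hf.lo y z
  have h2 := T.D_tri x y z
  linarith

lemma Ext.eq_ga {f : X → ℝ} (hf : T.Ext f) {a b : X} (hab : f a + f b = T.D a b) :
    f = T.ga a b (f a) := by
  funext u
  apply le_antisymm
  · obtain ⟨u', hu'⟩ := hf.att u
    have h := T.D_four u u' a b
    have h1 := hf.lo u' b
    have h2 := hf.lo u' a
    unfold ga
    rcases le_max_iff.1 h with h | h
    · apply le_max_of_le_left; linarith
    · apply le_max_of_le_right; linarith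
  · unfold ga
    apply max_le
    · have := hf.lo u a; linarith
    · have := hf.lo u b; linarith

variable (T)

/-- the geometric realisation -/
structure Re : Type where
  /-- the underlying function -/
  fn : X → ℝ
  mem : ∃ v w t, 0 ≤ t ∧ t ≤ T.D v w ∧ fn = T.ga v w t

variable {T}

lemma Re.ext0 {f g : T.Re} (h : f.1 = g.1) : f = g := by
  cases f; cases g; cases h; rfl

lemma Re.ext' (f : T.Re) : T.Ext f.1 := by
  obtain ⟨f, v, w, t, h0, h1, rfl⟩ := f
  exact ga_ext h0 h1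

lemma sub_le {f g : X → ℝ} (hf : T.Ext f) (hg : T.Ext g) (o u : X) : f u - g u ≤ f o + g o := by
  have h1 := hf.le u o
  have h2 := hg.lo u o
  linarith

lemma bdd {f g : X → ℝ} (hf : T.Ext f) (hg : T.Ext g) :
    BddAbove (Set.range fun u => |f u - g u|) := by
  rcases isEmpty_or_nonempty X with h | ⟨⟨o⟩⟩
  · rw [Set.range_eq_empty]; exact bddAbove_empty
  · refine ⟨f o + g o, ?_⟩
    rintro _ ⟨u, rfl⟩
    rw [abs_le]
    have h1 := sub_le hf hg o u
    have h2 := sub_le hg hf o u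
    constructor <;> linarith

noncomputable instance : MetricSpace T.Re where
  dist f g := ⨆ u, |f.1 u - g.1 u|
  dist_self f := by simp
  dist_comm f g := by
    congr 1; funext u; exact abs_sub_comm _ _
  dist_triangle f g h := by
    rcases isEmpty_or_nonempty X with hX | hX
    · simp [Real.iSup_of_isEmpty]
    · apply ciSup_le
      intro u
      have h1 := le_ciSup (bdd f.ext' g.ext') u
      have h2 := le_ciSup (bdd g.ext' h.ext') u
      have h3 := abs_sub_le (f.1 u) (g.1 u) (h.1 u)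
      exact h3.trans (add_le_add h1 h2)
  eq_of_dist_eq_zero := by
    intro f g h
    apply Re.ext0
    funext u
    have h1 := le_ciSup (bdd f.ext' g.ext') u
    have h2 : (⨆ u, |f.1 u - g.1 u|) = 0 := h
    rw [h2] at h1
    have h3 := abs_nonneg (f.1 u - g.1 u)
    have h4 : |f.1 u - g.1 u| = 0 := le_antisymm h1 h3
    have := abs_eq_zero.1 h4
    linarith

lemma dist_def (f g : T.Re) : dist f g = ⨆ u, |f.1 u - g.1 u| := rfl

lemma le_dist (f g : T.Re) (u : X) : |f.1 u - g.1 u| ≤ dist f g :=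
  le_ciSup (bdd f.ext' g.ext') u

lemma dist_le' [Nonempty X] {f g : T.Re} {C : ℝ} (h : ∀ u, |f.1 u - g.1 u| ≤ C) : dist f g ≤ C :=
  ciSup_le h

lemma ga_lip (v w : X) (s t : ℝ) (u : X) : |T.ga v w s u - T.ga v w t u| ≤ |s - t| := by
  unfold ga
  refine (abs_max_sub_max_le_max _ _ _ _).trans (max_le ?_ ?_)
  · rw [show T.D u v - s - (T.D u v - t) = -(s - t) by ring, abs_neg]
  · rw [show T.D u w - (T.D v w - s) - (T.D u w - (T.D v w - t)) = s - t by ring]

lemma dist_ga {v w : X} {s t : ℝ} (hs0 : 0 ≤ s) (hs1 : s ≤ T.D v w) (ht0 : 0 ≤ t)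
    (ht1 : t ≤ T.D v w) :
    dist (⟨T.ga v w s, v, w, s, hs0, hs1, rfl⟩ : T.Re) ⟨T.ga v w t, v, w, t, ht0, ht1, rfl⟩ =
      |s - t| := by
  have : Nonempty X := ⟨v⟩
  apply le_antisymm
  · exact dist_le' fun u => ga_lip v w s t u
  · have := le_dist (⟨T.ga v w s, v, w, s, hs0, hs1, rfl⟩ : T.Re) ⟨T.ga v w t, v, w, t, ht0, ht1, rfl⟩ v
    simp only [ga_left hs0, ga_left ht0] at this
    exact this

/-- vertices -/
noncomputable def io (T : TreeMet X) (x : X) : T.Re :=
  ⟨fun u => T.D u x, x, x, 0, le_rfl, T.D_nonneg _ _, by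
    funext u; unfold ga; rw [T.D_self]; simp⟩

lemma dist_io (x y : X) : dist (T.io x) (T.io y) = T.D x y := by
  have : Nonempty X := ⟨x⟩
  apply le_antisymm
  · apply dist_le'
    intro u
    change |T.D u x - T.D u y| ≤ T.D x y
    rw [abs_le]
    have h1 := T.D_tri u x y
    have h2 := T.D_tri u y x
    rw [T.D_comm y x] at h2
    constructor <;> linarith
  · have h : |T.D x x - T.D x y| ≤ dist (T.io x) (T.io y) := le_dist (T.io x) (T.io y) x
    rw [T.D_self, zero_sub, abs_neg, abs_of_nonneg (T.D_nonneg _ _)] at h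
    exact h

lemma near (f : T.Re) : ∃ x, dist f (T.io x) ≤ 1 := by
  obtain ⟨f, v, w, t, h0, h1, rfl⟩ := f
  have hj : ⌊t⌋₊ ≤ T.d v w := by
    have : (⌊t⌋₊ : ℝ) ≤ (T.d v w : ℝ) := (Nat.floor_le h0).trans h1
    exact_mod_cast this
  obtain ⟨z, hz1, hz2⟩ := T.geo v w _ hj
  refine ⟨z, ?_⟩
  have e1 : T.D v z = ⌊t⌋₊ := by unfold D; rw [hz1]
  have e2 : T.D z w = T.D v w - ⌊t⌋₊ := by unfold D; rw [hz2]; push_cast [hj]; ring
  have e3 : (T.io z).1 v + (T.io z).1 w = T.D v w := by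
    change T.D v z + T.D w z = T.D v w
    rw [T.D_comm w z, e1, e2]; ring
  have e4 := (T.io z).ext'.eq_ga e3
  have e5 : (T.io z).1 v = ⌊t⌋₊ := e1
  have hj0 : (0 : ℝ) ≤ ⌊t⌋₊ := Nat.cast_nonneg _
  have hj1 : (⌊t⌋₊ : ℝ) ≤ T.D v w := (Nat.floor_le h0).trans h1
  have e6 : T.io z = ⟨T.ga v w ⌊t⌋₊, v, w, _, hj0, hj1, rfl⟩ := by
    apply Re.ext0
    rw [e4, e5]
  rw [e6, dist_ga h0 h1 hj0 hj1, abs_le]
  have := Nat.floor_le h0
  have := Nat.lt_floor_add_one t
  constructor <;> linarith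

lemma hyp_io (x y z w : X) :
    min ((T.D w x + T.D w z - T.D x z) / 2) ((T.D w y + T.D w z - T.D y z) / 2)
      ≤ (T.D w x + T.D w y - T.D x y) / 2 := by
  have h := T.D_four x y z w
  rw [T.D_comm z w, T.D_comm y w, T.D_comm x w] at h
  rcases le_max_iff.1 h with h | h
  · apply min_le_of_left_le; linarith
  · apply min_le_of_right_le; linarith

/-- hyperbolicity -/
theorem hyp : ∃ δ : ℝ, ∀ x y z w : T.Re,
    min ((dist w x + dist w z - dist x z) / 2) ((dist w y + dist w z - dist y z) / 2) - δ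
      ≤ (dist w x + dist w y - dist x y) / 2 := by
  refine ⟨6, fun x y z w => ?_⟩
  obtain ⟨x', hx⟩ := near x
  obtain ⟨y', hy⟩ := near y
  obtain ⟨z', hz⟩ := near z
  obtain ⟨w', hw⟩ := near w
  have key : ∀ a b : T.Re, ∀ a' b' : X, dist a (T.io a') ≤ 1 → dist b (T.io b') ≤ 1 →
      |dist a b - T.D a' b'| ≤ 2 := by
    intro a b a' b' ha hb
    have h1 := dist_triangle4 a (T.io a') (T.io b') b
    have h2 := dist_triangle4 (T.io a') a b (T.io b')
    rw [dist_io] at h1 h2
    rw [dist_comm (T.io b') b] at h1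
    rw [dist_comm (T.io a') a] at h2
    rw [abs_le]
    constructor <;> linarith
  have k1 := abs_le.1 (key w x w' x' hw hx)
  have k2 := abs_le.1 (key w z w' z' hw hz)
  have k3 := abs_le.1 (key x z x' z' hx hz)
  have k4 := abs_le.1 (key w y w' y' hw hy)
  have k5 := abs_le.1 (key y z y' z' hy hz)
  have k6 := abs_le.1 (key x y x' y' hx hy)
  have h := T.hyp_io x' y' z' w'
  rcases min_le_iff.1 h with h | h
  · have : min ((dist w x + dist w z - dist x z) / 2) ((dist w y + dist w z - dist y z) / 2) ≤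
      (dist w x + dist w z - dist x z) / 2 := min_le_left _ _
    linarith [k1.1, k1.2, k2.1, k2.2, k3.1, k3.2, k4.1, k4.2, k5.1, k5.2, k6.1, k6.2]
  · have : min ((dist w x + dist w z - dist x z) / 2) ((dist w y + dist w z - dist y z) / 2) ≤
      (dist w y + dist w z - dist y z) / 2 := min_le_right _ _
    linarith [k1.1, k1.2, k2.1, k2.2, k3.1, k3.2, k4.1, k4.2, k5.1, k5.2, k6.1, k6.2]

/-! ### geodesics -/

lemma fin_range (f g : T.Re) : (Set.range fun u => |f.1 u - g.1 u|).Finite := by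
  have hb := bdd f.ext' g.ext'
  obtain ⟨R, hR⟩ := hb
  obtain ⟨f, v, w, t, h0, h1, rfl⟩ := f
  obtain ⟨g, v', w', t', h0', h1', rfl⟩ := g
  -- the constants
  let C : Set ℝ := {-t + t', -t + (T.D v' w' - t'), -(T.D v w - t) + t',
    -(T.D v w - t) + (T.D v' w' - t')}
  have hC : C.Finite := Set.toFinite _
  have key : ∀ u, ∃ m : ℤ, ∃ c ∈ C, T.ga v w t u - T.ga v' w' t' u = m + c := by
    intro u
    have h1 : T.ga v w t u = T.D u v - t ∨ T.ga v w t u = T.D u w - (T.D v w - t) := by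
      unfold ga; rcases max_choice (T.D u v - t) (T.D u w - (T.D v w - t)) with h | h <;> simp [h]
    have h2 : T.ga v' w' t' u = T.D u v' - t' ∨ T.ga v' w' t' u = T.D u w' - (T.D v' w' - t') := by
      unfold ga
      rcases max_choice (T.D u v' - t') (T.D u w' - (T.D v' w' - t')) with h | h <;> simp [h]
    rcases h1 with h1 | h1 <;> rcases h2 with h2 | h2
    · refine ⟨(T.d u v : ℤ) - T.d u v', -t + t', by simp [C], ?_⟩
      rw [h1, h2]; unfold D; push_cast; ring
    · refine ⟨(T.d u v : ℤ) - T.d u w', -t + (T.D v' w' - t'), by simp [C], ?_⟩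
      rw [h1, h2]; unfold D; push_cast; ring
    · refine ⟨(T.d u w : ℤ) - T.d u v', -(T.D v w - t) + t', by simp [C], ?_⟩
      rw [h1, h2]; unfold D; push_cast; ring
    · refine ⟨(T.d u w : ℤ) - T.d u w', -(T.D v w - t) + (T.D v' w' - t'), by simp [C], ?_⟩
      rw [h1, h2]; unfold D; push_cast; ring
  obtain ⟨R', hR'⟩ := (hC.image fun c => |c|).bddAbove
  obtain ⟨N, hN⟩ := exists_nat_ge (R + R')
  have hfin : ((fun p : ℤ × ℝ => |(p.1 : ℝ) + p.2|) '' (Set.Icc (-(N : ℤ)) N ×ˢ C)).Finite :=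
    ((Set.finite_Icc _ _).prod hC).image _
  apply hfin.subset
  rintro _ ⟨u, rfl⟩
  obtain ⟨m, c, hc, hmc⟩ := key u
  refine ⟨(m, c), ⟨?_, hc⟩, ?_⟩
  · have h2 : |T.ga v w t u - T.ga v' w' t' u| ≤ R := hR ⟨u, rfl⟩
    have h3 : |c| ≤ R' := hR' ⟨c, hc, rfl⟩
    rw [hmc] at h2
    have h4 : |(m : ℝ)| ≤ N := by
      have : (m : ℝ) = (m + c) - c := by ring
      rw [this]
      have := abs_sub (m + c : ℝ) c
      linarith
    rw [abs_le] at h4
    constructor
    · have := h4.1
      exact_mod_cast this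
    · have := h4.2
      exact_mod_cast this
  · simp only
    rw [hmc]

lemma exists_max [Nonempty X] (f g : T.Re) : ∃ a, |f.1 a - g.1 a| = dist f g := by
  obtain ⟨b, hb, hmax⟩ := Set.exists_max_image _ id (fin_range f g) (Set.range_nonempty _)
  obtain ⟨a, rfl⟩ := hb
  refine ⟨a, le_antisymm (le_dist f g a) ?_⟩
  apply dist_le'
  intro u
  exact hmax _ ⟨u, rfl⟩

lemma exists_seg [Nonempty X] (f g : T.Re) : ∃ a b : X, f.1 = T.ga a b (f.1 a) ∧
    g.1 = T.ga a b (f.1 a + dist f g) ∧ f.1 a + dist f g ≤ T.D a b := by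
  have key : ∀ a, g.1 a - f.1 a = dist f g → ∃ b : X, f.1 = T.ga a b (f.1 a) ∧
    g.1 = T.ga a b (f.1 a + dist f g) ∧ f.1 a + dist f g ≤ T.D a b := by
    intro a ha
    obtain ⟨b, hb⟩ := g.ext'.att a
    have h1 := f.ext'.lo a b
    have h2 := (abs_le.1 (le_dist f g b)).2
    have h3 : f.1 a + f.1 b = T.D a b := by linarith
    have h4 := g.ext'.nonneg b
    have h5 : f.1 a + dist f g = g.1 a := by linarith
    exact ⟨b, f.ext'.eq_ga h3, by rw [h5]; exact g.ext'.eq_ga hb, by linarith⟩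
  obtain ⟨a, ha⟩ := exists_max f g
  rcases abs_choice (f.1 a - g.1 a) with h | h
  · rw [h] at ha
    obtain ⟨b, hb⟩ := f.ext'.att a
    have h1 := g.ext'.lo a b
    have h2 := (abs_le.1 (le_dist f g b)).1
    exact ⟨b, key b (by linarith)⟩
  · rw [h] at ha
    exact ⟨a, key a (by linarith)⟩

/-- the realisation is geodesic -/
theorem geod [Nonempty X] (f g : T.Re) : ∃ γ : ℝ → T.Re, γ 0 = f ∧ γ (dist f g) = g ∧
    ∀ s ∈ Set.Icc (0 : ℝ) (dist f g), ∀ t ∈ Set.Icc (0 : ℝ) (dist f g),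
      dist (γ s) (γ t) = |s - t| := by
  obtain ⟨a, b, h1, h2, h3⟩ := exists_seg f g
  have h0 := f.ext'.nonneg a
  have hd : 0 ≤ dist f g := dist_nonneg
  let c : ℝ → ℝ := fun s => max 0 (min (T.D a b) (f.1 a + s))
  have c0 : ∀ s, 0 ≤ c s := fun s => le_max_left _ _
  have c1 : ∀ s, c s ≤ T.D a b := fun s => max_le (T.D_nonneg _ _) (min_le_left _ _)
  have cs : ∀ s ∈ Set.Icc (0 : ℝ) (dist f g), c s = f.1 a + s := by
    intro s hs
    simp only [c]
    rw [min_eq_right (by linarith [hs.2]), max_eq_right (by linarith [hs.1])]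
  refine ⟨fun s => ⟨T.ga a b (c s), a, b, c s, c0 s, c1 s, rfl⟩, ?_, ?_, ?_⟩
  · apply Re.ext0
    rw [h1]
    simp only
    rw [cs 0 ⟨le_rfl, hd⟩, add_zero]
  · apply Re.ext0
    simp only
    rw [cs _ ⟨hd, le_rfl⟩]
    exact h2.symm
  · intro s hs t ht
    simp only
    rw [dist_ga (c0 s) (c1 s) (c0 t) (c1 t), cs s hs, cs t ht]
    congr 1; ring

/-! ### isometries -/

/-- isometries act on the realisation -/
def Iso (T : TreeMet X) : Subgroup (Equiv.Perm X) where
  carrier := {g | ∀ x y, T.d (g x) (g y) = T.d x y}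
  mul_mem' := by
    intro g h hg hh x y
    rw [Equiv.Perm.mul_apply, Equiv.Perm.mul_apply, hg, hh]
  one_mem' := fun _ _ => rfl
  inv_mem' := by
    intro g hg x y
    have := hg (g⁻¹ x) (g⁻¹ y)
    simpa using this.symm

lemma ga_comp {g : Equiv.Perm X} (hg : g ∈ T.Iso) (v w : X) (t : ℝ) :
    (fun u => T.ga v w t (g⁻¹ u)) = T.ga (g v) (g w) t := by
  have hi : ∀ x y, T.d (g x) (g y) = T.d x y := hg
  have e : ∀ u v, T.D (g⁻¹ u) v = T.D u (g v) := by
    intro u v
    unfold D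
    rw [← hi (g⁻¹ u) v]
    simp
  have e2 : T.D v w = T.D (g v) (g w) := by unfold D; rw [hi]
  funext u
  unfold ga
  rw [e, e, e2]

/-- the action of an isometry on the realisation -/
def actf (g : Equiv.Perm X) (hg : g ∈ T.Iso) (f : T.Re) : T.Re :=
  ⟨fun u => f.1 (g⁻¹ u), by
    obtain ⟨f, v, w, t, h0, h1, rfl⟩ := f
    refine ⟨g v, g w, t, h0, ?_, ga_comp hg v w t⟩
    unfold D
    rw [hg v w]; exact h1⟩

lemma dist_actf (g : Equiv.Perm X) (hg : g ∈ T.Iso) (f f' : T.Re) :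
    dist (actf g hg f) (actf g hg f') = dist f f' := by
  rw [dist_def, dist_def]
  exact (g⁻¹ : Equiv.Perm X).iSup_comp (g := fun u => |f.1 u - f'.1 u|)

/-- the action as a homomorphism -/
def act (T : TreeMet X) : T.Iso →* (T.Re ≃ᵢ T.Re) where
  toFun g :=
    { toFun := actf g.1 g.2
      invFun := actf g.1⁻¹ (T.Iso.inv_mem g.2)
      left_inv := by
        intro f; apply Re.ext0; funext u; simp [actf]
      right_inv := by
        intro f; apply Re.ext0; funext u; simp [actf]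
      isometry_toFun := Isometry.of_dist_eq (dist_actf g.1 g.2) }
  map_one' := by
    ext f; apply Re.ext0; funext u; simp [actf]
  map_mul' g h := by
    ext f; apply Re.ext0; funext u; simp [actf]

lemma act_io (g : T.Iso) (x : X) : act T g (T.io x) = T.io (g.1 x) := by
  apply Re.ext0
  funext u
  change T.D (g.1⁻¹ u) x = T.D u (g.1 x)
  unfold D
  rw [← g.2 (g.1⁻¹ u) x]
  simp

end TreeMet

end Pool.Agent.H57
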