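import Pool.Agent.H57.T16
import Pool.Agent.H57.U1

/-!
Assembly: the action of `GG` on the realisation of the tree.
-/

namespace Pool.Agent.H57

open Equiv

lemma geo_V (x y : V) : ∀ j ≤ d x y, ∃ z, d x z = j ∧ d z y = d x y - j := by
  obtain ⟨n, hn⟩ : ∃ n, n = x.1.length + y.1.length := ⟨_, rfl⟩
  induction n using Nat.strong_induction_on generalizing x y with
  | _ n ih =>
    intro j hj
    by_cases hxy : x = y
    · subst hxy
      rw [d_self] at hj ⊢
      exact ⟨x, by rw [d_self]; omega, by rw [d_self]; omega⟩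
    · rcases le_total y.1.length x.1.length with hl | hl
      · have hx : x ≠ nil := by
          rintro rfl
          apply hxy
          rw [nil_val] at hl
          exact (eq_nil (List.length_eq_zero_iff.1 (by simpa using hl))).symm
        obtain ⟨a, x', hx'⟩ := exists_cons hx
        have h1 := d_step hx' hl hxy
        have h2 := d_cons hx'
        by_cases hj0 : j = 0
        · subst hj0
          exact ⟨x, d_self x, by omega⟩
        · obtain ⟨z, hz1, hz2⟩ := ih (x'.1.length + y.1.length) (by rw [hn, hx']; simp) x' y rfl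
            (j - 1) (by omega)
          have h3 := d_triangle x x' z
          have h4 := d_triangle x z y
          refine ⟨z, ?_, ?_⟩ <;> omega
      · have hy : y ≠ nil := by
          rintro rfl
          apply hxy
          rw [nil_val] at hl
          exact (eq_nil (List.length_eq_zero_iff.1 (by simpa using hl)))
        obtain ⟨a, y', hy'⟩ := exists_cons hy
        have h1 := d_step hy' hl (Ne.symm hxy)
        have h2 := d_cons hy'
        rw [d_comm y x, d_comm y' x] at h1
        rw [d_comm y y'] at h2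
        by_cases hjd : j = d x y
        · exact ⟨y, hjd.symm, by rw [d_self]; omega⟩
        · obtain ⟨z, hz1, hz2⟩ := ih (x.1.length + y'.1.length) (by rw [hn, hy']; simp) x y' rfl
            j (by omega)
          have h3 := d_triangle z y' y
          have h4 := d_triangle x z y
          refine ⟨z, ?_, ?_⟩ <;> omega

/-- the tree metric on `V` -/
noncomputable def TV : TreeMet V where
  d := d
  self := d_self
  comm := d_comm
  tri := d_triangle
  four := d_four
  geo := geo_V

lemma GG_le_Iso : GG ≤ TV.Iso := fun _ hg => hg.1.1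

/-- the action of `GG` on the realisation -/
noncomputable def phi : GG →* (TV.Re ≃ᵢ TV.Re) :=
  (TreeMet.act TV).comp (Subgroup.inclusion GG_le_Iso)

lemma phi_io (g : GG) (x : V) : phi g (TV.io x) = TV.io (g.1 x) :=
  TreeMet.act_io (T := TV) (Subgroup.inclusion GG_le_Iso g) x

lemma LL_frattini {l : Perm V} (hl : l ∈ LL) (hlG : l ∈ GG) :
    phi.rangeRestrict ⟨l, hlG⟩ ∈ frattini phi.range := by
  simp only [frattini, Order.radical, Subgroup.mem_iInf]
  intro K hK
  have hK' : IsCoatom (K.comap phi.rangeRestrict) :=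
    Subgroup.isCoatom_comap_of_surjective phi.rangeRestrict_surjective hK
  have hM : (K.comap phi.rangeRestrict).map GG.subtype ≤ GG := Subgroup.map_subtype_le _
  have h := LL_le_maximal hM ?_ hl
  · obtain ⟨y, hy, hyl⟩ := h
    have : y = ⟨l, hlG⟩ := Subtype.ext hyl
    rw [← this]
    exact hy
  · intro H h1 h2
    have h3 : K.comap phi.rangeRestrict ≤ H.subgroupOf GG := by
      intro x hx
      exact h1 ⟨x, hx, rfl⟩
    rcases hK'.le_iff.1 h3 with h4 | h4
    · right
      apply le_antisymm h2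
      intro g hg
      have : (⟨g, hg⟩ : GG) ∈ H.subgroupOf GG := by rw [h4]; trivial
      exact this
    · left
      rw [← h4, Subgroup.subgroupOf_map_subtype, inf_eq_left.2 h2]

/-! ### general type -/

lemma tr_pow (s : Bool) (n : ℕ) : ((tr s ^ n) nil).1 = List.replicate n (s, 0) := by
  induction n with
  | zero => rfl
  | succ n ih =>
    rw [pow_succ', Perm.mul_apply, tr_val, ih]
    unfold trL
    rw [if_neg]
    · rw [List.replicate_succ']
    · intro h
      have := List.mem_of_getLast? h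
      rw [List.mem_replicate] at this
      have h2 := congrArg Prod.fst this.2
      simp at h2

lemma tr_pow_B (s : Bool) {n : ℕ} (hn : n ≠ 0) : (tr s ^ n) nil ∈ B (s, 0) := by
  obtain ⟨m, rfl⟩ := Nat.exists_eq_succ_of_ne_zero hn
  apply mem_B.2
  exact ⟨List.replicate m (s, 0), by rw [tr_pow, Nat.succ_eq_add_one, List.replicate_succ']⟩

lemma tr_zpow (n : ℤ) : (tr true ^ n) nil = nil ∨ (tr true ^ n) nil ∈ B (true, 0) ∨
    (tr true ^ n) nil ∈ B (false, 0) := by
  obtain ⟨k, rfl | rfl⟩ := n.eq_nat_or_neg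
  · by_cases hk : k = 0
    · left; subst hk; simp
    · right; left; rw [zpow_natCast]; exact tr_pow_B true hk
  · by_cases hk : k = 0
    · left; subst hk; simp
    · right; right
      rw [zpow_neg, zpow_natCast, ← inv_pow, tr_inv]
      exact tr_pow_B false hk

/-- the root swap -/
noncomputable def sw : Perm V :=
  rr (swap (true, 0) (true, 1) * swap (false, 0) (false, 1)) (by
    intro a
    rw [Perm.mul_apply, swap_sgn (a := (true, 0)) (b := (true, 1)) rfl,
      swap_sgn (a := (false, 0)) (b := (false, 1)) rfl])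

lemma sw_mem : sw ∈ NN := by
  apply rr_mem_NN
  apply ((swap_fin (true, 0) (true, 1)).union (swap_fin (false, 0) (false, 1))).subset
  intro a ha
  by_contra hc
  simp only [Set.mem_union, Set.mem_ofPred_eq, not_or, not_not] at hc
  apply ha
  rw [Perm.mul_apply, hc.2, hc.1]

lemma sw_nil : sw nil = nil := rr_nil

lemma sw_B (s : Bool) {v : V} (hv : v ∈ B (s, 0)) : sw v ∈ B (s, 1) := by
  have : (swap (true, 0) (true, 1) * swap (false, 0) (false, 1) : Perm Om) (s, 0) = (s, 1) := by
    cases s
    · rw [Perm.mul_apply, swap_apply_left, swap_apply_of_ne_of_ne] <;> simp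
    · rw [Perm.mul_apply, swap_apply_of_ne_of_ne (a := (false, 0)), swap_apply_left] <;> simp
  rw [← this]
  exact rr_B.2 hv

lemma ht_le_length (v : V) : |ht v| ≤ v.1.length := by
  induction v using vind with
  | h0 => simp [ht_nil]
  | h1 a x v hv ih =>
    rw [ht_cons hv, hv]
    have h1 : |sg a| = 1 := by unfold sg; split_ifs <;> simp
    have h2 := abs_add_le (sg a) (ht x)
    simp only [List.length_cons]
    push_cast
    linarith

lemma ht_zpow {g : Perm V} (hg : g ∈ ISO) (n : ℤ) : ht ((g ^ n) nil) = n * ht (g nil) := by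
  obtain ⟨k, rfl | rfl⟩ := n.eq_nat_or_neg
  · rw [zpow_natCast, ht_pow hg]
  · rw [zpow_neg, zpow_natCast, ht_inv (ISO.pow_mem hg k), ht_pow hg]; ring

lemma disp {g : Perm V} (hg : g ∈ ISO) (h1 : ht (g nil) = 1) (n : ℤ) :
    |(n : ℝ)| ≤ TV.D nil ((g ^ n) nil) := by
  have h2 := ht_le_length ((g ^ n) nil)
  rw [ht_zpow hg, h1, mul_one, ← d_nil_left] at h2
  change |(n : ℝ)| ≤ (d nil ((g ^ n) nil) : ℝ)
  exact_mod_cast h2

lemma tr_nil_ht : ht (tr true nil) = 1 := by
  rw [tr_ht, ht_nil]; simp [sg]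

/-- the second loxodromic element -/
noncomputable def t2 : Perm V := sw * tr true * sw⁻¹

lemma t2_mem : t2 ∈ NN := NN.mul_mem (NN.mul_mem sw_mem (tr_mem_NN true)) (NN.inv_mem sw_mem)

lemma t2_zpow (n : ℤ) : (t2 ^ n) nil = sw ((tr true ^ n) nil) := by
  have h1 : t2 ^ n = sw * tr true ^ n * sw⁻¹ := by
    rw [t2, conj_zpow]
  rw [h1]
  simp only [Perm.mul_apply]
  have : sw⁻¹ nil = nil := by rw [Perm.inv_eq_iff_eq, sw_nil]
  rw [this]

lemma t2_ht : ht (t2 nil) = 1 := by
  have := t2_zpow 1
  rw [zpow_one, zpow_one] at this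
  rw [this, ht_app sw_mem.1, sw_nil, ht_nil, tr_nil_ht]; rfl

lemma cs_zero' {n m : ℤ} : cs ((tr true ^ n) nil).1 ((t2 ^ m) nil).1 = 0 := by
  rw [t2_zpow]
  have hB : ∀ (s : Bool) (v w : V), v ∈ B (s, 0) →
      (w = nil ∨ w ∈ B (true, 0) ∨ w ∈ B (false, 0)) → cs v.1 (sw w).1 = 0 := by
    intro s v w hv hw
    apply cs_zero hv
    rcases hw with rfl | hw | hw
    · rw [sw_nil]; exact nil_notin_B _
    · intro h
      have := B_unique h (sw_B true hw)
      have := congrArg Prod.snd this
      simp at this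
    · intro h
      have := B_unique h (sw_B false hw)
      have := congrArg Prod.snd this
      simp at this
  rcases tr_zpow n with h | h | h
  · rw [h]
    have := cs_le_left nil.1 (sw ((tr true ^ m) nil)).1
    rw [nil_val] at this ⊢
    simpa using this
  · exact hB true _ _ h (tr_zpow m)
  · exact hB false _ _ h (tr_zpow m)

lemma gromov (n m : ℤ) : (TV.D nil ((tr true ^ n) nil) + TV.D nil ((t2 ^ m) nil) -
    TV.D ((tr true ^ n) nil) ((t2 ^ m) nil)) / 2 ≤ 0 := by
  have h1 : d ((tr true ^ n) nil) ((t2 ^ m) nil) = _ := d_of_cs_zero cs_zero'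
  have h2 : TV.D nil ((tr true ^ n) nil) = (((tr true ^ n) nil).1.length : ℝ) := by
    change ((d nil _ : ℕ) : ℝ) = _
    rw [d_nil_left]
  have h3 : TV.D nil ((t2 ^ m) nil) = (((t2 ^ m) nil).1.length : ℝ) := by
    change ((d nil _ : ℕ) : ℝ) = _
    rw [d_nil_left]
  have h4 : TV.D ((tr true ^ n) nil) ((t2 ^ m) nil) =
      (((tr true ^ n) nil).1.length : ℝ) + (((t2 ^ m) nil).1.length : ℝ) := by
    change ((d _ _ : ℕ) : ℝ) = _
    rw [h1]; push_cast; rfl
  rw [h2, h3, h4]
  apply le_of_eq; ring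

/-! ### unboundedness of `LL` -/

lemma LL_unbounded (k : ℕ) : ∃ l ∈ LL, d nil (l nil) = 2 * (k + 1) := by
  obtain ⟨p, hp, q, hq, hp0, hq0, -, -, hcyc⟩ := exists_cycle (a := (false, 0)) (c := (false, 1))
    (c' := (false, 2)) rfl rfl (by simp) (by simp)
  have hl : com p q ∈ LL := Subgroup.subset_closure ⟨nil, p, hp, q, hq, hp0, hq0, rfl⟩
  refine ⟨tr true ^ (k + 1) * com p q * (tr true ^ (k + 1))⁻¹,
    LL_conj (NN_le_GG (NN.pow_mem (tr_mem_NN true) _)) hl, ?_⟩
  have hI : tr true ^ (k + 1) ∈ ISO := ISO.pow_mem (tr_mem_ISO true) _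
  have e1 : ((tr true ^ (k + 1))⁻¹ nil).1 = List.replicate k (false, 0) ++ [(false, 0)] := by
    rw [← inv_pow, tr_inv]
    have := tr_pow false (k + 1)
    rw [List.replicate_succ'] at this
    exact this
  have hr : Red (List.replicate k (false, 0) ++ [(false, 1)]) := by
    have h1 := ((tr true ^ (k + 1))⁻¹ nil).2
    rw [e1] at h1
    rw [red_append] at h1 ⊢
    refine ⟨h1.1, red_single _, ?_⟩
    intro x hx y hy
    simp only [List.head?_cons, Option.mem_def, Option.some.injEq] at hy
    subst hy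
    exact h1.2.2 x hx (false, 0) (by simp)
  have e2 : com p q ((tr true ^ (k + 1))⁻¹ nil) = ⟨_, hr⟩ := hcyc _ _ _ e1 rfl
  simp only [Perm.mul_apply]
  rw [← d_inv hI, e2]
  have h1 : (tr true ^ (k + 1))⁻¹ nil ∈ B (false, 0) := mem_B.2 ⟨_, e1⟩
  have h2 : (⟨_, hr⟩ : V) ∉ B (false, 0) := by
    intro h
    have h3 : (⟨_, hr⟩ : V) ∈ B (false, 1) := mem_B.2 ⟨_, rfl⟩
    have := B_unique h h3
    simp at this
  rw [d_of_cs_zero (cs_zero h1 h2), e1]
  simp
  ring

end Pool.Agent.H57
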